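import Pool.Agent.Helper49P.LOG

/-!
# An element whose logarithm is in a subalgebra is in the subalgebra
-/

set_option autoImplicit false

namespace Pool.Agent.Helper49P

open Filter Topology Module

namespace ALG

open TAN1 LOG

variable {ℓ : ℕ} [Fact ℓ.Prime]
variable {E : Type} [NormedRing E] [NormedAlgebra ℚ_[ℓ] E] [IsUltrametricDist E]

theorem pow_sub_one_le (h1 : ‖(1 : E)‖ ≤ 1) {α : E} {r : ℝ} (hr : r ≤ 1) (hα : ‖α - 1‖ ≤ r) (n : ℕ) :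
    ‖α ^ n - 1‖ ≤ r := by
  induction n with
  | zero => rw [pow_zero, sub_self, norm_zero]; exact (norm_nonneg _).trans hα
  | succ n ih =>
    have e1 : α ^ (n + 1) - 1 = (α ^ n - 1) * α + (α - 1) := by
      rw [pow_succ, sub_mul, one_mul]; abel
    have h2 : ‖α‖ ≤ 1 := by
      have e2 : α = (α - 1) + 1 := by abel
      rw [e2]
      exact (norm_add_max _ _).trans (max_le (hα.trans hr) h1)
    rw [e1]
    refine (norm_add_max _ _).trans (max_le ?_ hα)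
    exact ((norm_mul_le _ _).trans (mul_le_of_le_one_right (norm_nonneg _) h2)).trans ih

theorem telescope (h1 : ‖(1 : E)‖ ≤ 1) {g α : E} {r : ℝ} (hr : r ≤ 1) (hg : ‖g - 1‖ ≤ r)
    (hα : ‖α - 1‖ ≤ r) (n : ℕ) :
    ‖g ^ n - α ^ n - (n : ℚ_[ℓ]) • (g - α)‖ ≤ r * ‖g - α‖ := by
  have hr0 : 0 ≤ r := (norm_nonneg _).trans hg
  induction n with
  | zero =>
    rw [pow_zero, pow_zero, sub_self, Nat.cast_zero, zero_smul, sub_self, norm_zero]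
    exact mul_nonneg hr0 (norm_nonneg _)
  | succ n ih =>
    have e1 : g ^ (n + 1) - α ^ (n + 1) - ((n + 1 : ℕ) : ℚ_[ℓ]) • (g - α) =
        (g ^ n - α ^ n - (n : ℚ_[ℓ]) • (g - α)) * g + ((n : ℚ_[ℓ]) • ((g - α) * (g - 1)) +
          (α ^ n - 1) * (g - α)) := by
      rw [pow_succ, pow_succ]
      push_cast
      rw [add_smul, one_smul]
      simp only [mul_sub, sub_mul, smul_mul_assoc, mul_one, one_mul, smul_sub]
      abel
    have h2 : ‖g‖ ≤ 1 := by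
      have e2 : g = (g - 1) + 1 := by abel
      rw [e2]
      exact (norm_add_max _ _).trans (max_le (hg.trans hr) h1)
    rw [e1]
    refine (norm_add_max _ _).trans (max_le ?_ ((norm_add_max _ _).trans (max_le ?_ ?_)))
    · exact ((norm_mul_le _ _).trans (mul_le_of_le_one_right (norm_nonneg _) h2)).trans ih
    · refine (norm_nat_le n _).trans ((norm_mul_le _ _).trans ?_)
      rw [mul_comm]
      exact mul_le_mul_of_nonneg_right hg (norm_nonneg _)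
    · refine (norm_mul_le _ _).trans ?_
      exact mul_le_mul_of_nonneg_right (pow_sub_one_le h1 hr hα n) (norm_nonneg _)

end ALG

open TAN1 LOG ALG in
theorem t_ALG : S_ALG := by
  intro ℓ _ E _ _ _ _ h1 A g X hg hX hXA
  have hq := q_pos (ℓ := ℓ)
  have hq1 := q_lt (ℓ := ℓ)
  have hr : ((ℓ : ℝ)⁻¹) ^ 2 ≤ 1 := pow_le_one₀ hq.le hq1.le
  have hl0 : (ℓ : ℚ_[ℓ]) ≠ 0 := by exact_mod_cast (Fact.out : ℓ.Prime).ne_zero
  haveI : ProperSpace E := FiniteDimensional.proper ℚ_[ℓ] E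
  have hcl : IsClosed (A : Set E) := (Subalgebra.toSubmodule A).closed_of_finiteDimensional
  have hne : (A : Set E).Nonempty := ⟨1, A.one_mem⟩
  -- the step
  have step : ∀ (h : E) (d : ℝ), ‖h - 1‖ ≤ ((ℓ : ℝ)⁻¹) ^ 2 → (∀ a ∈ A, d ≤ ‖h - a‖) →
      ∀ a ∈ A, (ℓ : ℝ)⁻¹ * d ≤ ‖h ^ ℓ - a‖ := by
    intro h d hh hd a ha
    obtain ⟨α, hα, hmin⟩ := hcl.exists_infDist_eq_dist hne h
    have hle : ∀ b ∈ A, ‖h - α‖ ≤ ‖h - b‖ := by
      intro b hb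
      rw [← dist_eq_norm, ← dist_eq_norm, ← hmin]
      exact Metric.infDist_le_dist_of_mem hb
    have h2 : ‖h - α‖ ≤ ((ℓ : ℝ)⁻¹) ^ 2 := (hle 1 A.one_mem).trans hh
    have h3 : ‖α - 1‖ ≤ ((ℓ : ℝ)⁻¹) ^ 2 := by
      have e1 : α - 1 = (h - 1) - (h - α) := by abel
      rw [e1]
      exact (norm_sub_max _ _).trans (max_le hh h2)
    have h4 := telescope (ℓ := ℓ) h1 hr hh h3 ℓ
    have h5 : (ℓ : ℝ)⁻¹ * d ≤ (ℓ : ℝ)⁻¹ * ‖h - α‖ :=
      mul_le_mul_of_nonneg_left (hd α hα) hq.le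
    refine h5.trans ?_
    rcases (norm_nonneg (h - α)).eq_or_lt with h0 | h0
    · rw [← h0, mul_zero]; exact norm_nonneg _
    · -- the main part
      have h6 : (ℓ : ℝ)⁻¹ * ‖h - α‖ ≤ ‖(ℓ : ℚ_[ℓ]) • (h - α) + (α ^ ℓ - a)‖ := by
        have e1 : (ℓ : ℚ_[ℓ]) • (h - α) + (α ^ ℓ - a) =
            (ℓ : ℚ_[ℓ]) • (h - (α - ((ℓ : ℚ_[ℓ])⁻¹) • (α ^ ℓ - a))) := by
          rw [← sub_add, smul_add, smul_smul, mul_inv_cancel₀ hl0, one_smul]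
        rw [e1, norm_smul, Padic.norm_p]
        refine mul_le_mul_of_nonneg_left (hle _ ?_) hq.le
        exact A.sub_mem hα (A.smul_mem (A.sub_mem (A.pow_mem hα _) ha) _)
      have e2 : (ℓ : ℚ_[ℓ]) • (h - α) + (α ^ ℓ - a) = (h ^ ℓ - a) -
          (h ^ ℓ - α ^ ℓ - (ℓ : ℚ_[ℓ]) • (h - α)) := by abel
      rw [e2] at h6
      have h7 := h6.trans (norm_sub_max _ _)
      rcases le_max_iff.1 h7 with h8 | h8
      · exact h8
      · exfalso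
        have h9 := h8.trans h4
        have h10 : ((ℓ : ℝ)⁻¹) ^ 2 * ‖h - α‖ < (ℓ : ℝ)⁻¹ * ‖h - α‖ := by
          refine mul_lt_mul_of_pos_right ?_ h0
          nlinarith
        exact absurd h9 (not_le.2 h10)
  obtain ⟨α, hα, hmin⟩ := hcl.exists_infDist_eq_dist hne g
  have hle : ∀ b ∈ A, ‖g - α‖ ≤ ‖g - b‖ := by
    intro b hb
    rw [← dist_eq_norm, ← dist_eq_norm, ← hmin]
    exact Metric.infDist_le_dist_of_mem hb
  have hk : ∀ k : ℕ, ∀ a ∈ A, ((ℓ : ℝ)⁻¹) ^ k * ‖g - α‖ ≤ ‖g ^ (ℓ ^ k) - a‖ := by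
    intro k
    induction k with
    | zero => intro a ha; rw [pow_zero, pow_zero, one_mul, pow_one]; exact hle a ha
    | succ k ih =>
      intro a ha
      have h2 : ‖g ^ (ℓ ^ k) - 1‖ ≤ ((ℓ : ℝ)⁻¹) ^ 2 := pow_sub_one_le h1 hr hg _
      have h3 := step _ _ h2 ih a ha
      rw [← pow_mul, ← pow_succ, ← mul_assoc, ← pow_succ'] at h3
      exact h3
  have hd : ∀ k : ℕ, ‖g - α‖ ≤ ‖(((ℓ : ℚ_[ℓ]) ^ k)⁻¹) • (g ^ (ℓ ^ k) - 1) - X‖ := by
    intro k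
    have h2 := hk k (1 + ((ℓ : ℚ_[ℓ]) ^ k) • X) (A.add_mem A.one_mem (A.smul_mem hXA _))
    have hlk : ((ℓ : ℚ_[ℓ]) ^ k) ≠ 0 := pow_ne_zero _ hl0
    have e1 : g ^ (ℓ ^ k) - (1 + ((ℓ : ℚ_[ℓ]) ^ k) • X) =
        ((ℓ : ℚ_[ℓ]) ^ k) • ((((ℓ : ℚ_[ℓ]) ^ k)⁻¹) • (g ^ (ℓ ^ k) - 1) - X) := by
      rw [smul_sub, smul_smul, mul_inv_cancel₀ hlk, one_smul]
      abel
    rw [e1, norm_smul, norm_pow, Padic.norm_p] at h2
    exact le_of_mul_le_mul_left h2 (pow_pos hq k)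
  have hlim : Tendsto (fun k : ℕ => ‖(((ℓ : ℚ_[ℓ]) ^ k)⁻¹) • (g ^ (ℓ ^ k) - 1) - X‖) atTop (𝓝 0) :=
    tendsto_iff_norm_sub_tendsto_zero.1 hX
  have h0 : ‖g - α‖ ≤ 0 := ge_of_tendsto' hlim hd
  have h00 : g - α = 0 := norm_eq_zero.1 (le_antisymm h0 (norm_nonneg _))
  rw [sub_eq_zero.1 h00]
  exact hα

end Pool.Agent.Helper49P
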