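import Pool.Agent.Helper49P.Stm
import Pool.Agent.R401.Burn

/-!
# The radical of the trace form of a completely reducible Lie algebra (piece CART, helper98)
-/

set_option autoImplicit false

namespace Pool.Agent.Helper49P

open Module

namespace Cart

attribute [local instance 100] LieRing.ofAssociativeRing

variable {k : Type} [Field k] {V : Type} [AddCommGroup V] [Module k V] [FiniteDimensional k V]

/-- An ideal of nilpotent elements of a completely reducible Lie algebra is zero. -/
lemma nil (L : Submodule k (End k V))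
    (hss : ∀ U : Submodule k V, (∀ X ∈ L, ∀ u ∈ U, X u ∈ U) →
      ∃ U' : Submodule k V, (∀ X ∈ L, ∀ u ∈ U', X u ∈ U') ∧ IsCompl U U')
    (I : Submodule k (End k V)) (hIL : I ≤ L) (hI : ∀ A ∈ L, ∀ X ∈ I, A * X - X * A ∈ I)
    (hnil : ∀ X ∈ I, IsNilpotent X) : ∀ X ∈ I, X = 0 := by
  let J : LieSubalgebra k (End k V) :=
    { I with lie_mem' := fun {x y} hx hy => hI x (hIL hx) y hy }
  have hJ : LieModule.IsNilpotent J V := by
    rw [LieModule.isNilpotent_iff_forall' (R := k)]
    intro x
    obtain ⟨m, hm⟩ := hnil x x.2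
    refine ⟨m, ?_⟩
    have e : LieModule.toEnd k J V x = (x : End k V) := by
      ext v
      rfl
    rw [e, hm]
  obtain ⟨N, hN⟩ := LieModule.IsNilpotent.nilpotent k J V
  let W : Submodule k V :=
    { carrier := {v | ∀ X ∈ I, X v = 0}
      add_mem' := fun ha hb X hX => by rw [map_add, ha X hX, hb X hX, add_zero]
      zero_mem' := fun X _ => map_zero X
      smul_mem' := fun c v hv X hX => by rw [map_smul, hv X hX, smul_zero] }
  have hW : ∀ A ∈ L, ∀ v ∈ W, A v ∈ W := by
    intro A hA v hv X hX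
    have h1 : (A * X - X * A) v = 0 := hv _ (hI A hA X hX)
    have h2 : X v = 0 := hv X hX
    rw [LinearMap.sub_apply, End.mul_apply, End.mul_apply, h2, map_zero, zero_sub,
      neg_eq_zero] at h1
    exact h1
  obtain ⟨W', hW', hc⟩ := hss W hW
  have hbot : W' = ⊥ := by
    rw [Submodule.eq_bot_iff]
    by_contra hne
    push Not at hne
    obtain ⟨w, hw, hw0⟩ := hne
    have key : ∀ j : ℕ, ∃ w' ∈ W', w' ≠ 0 ∧ w' ∈ LieModule.lowerCentralSeries k J V j := by
      intro j
      induction j with
      | zero => exact ⟨w, hw, hw0, by simp⟩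
      | succ j ih =>
        obtain ⟨w', h1, h2, h3⟩ := ih
        have h4 : w' ∉ W := fun h => h2 ((Submodule.disjoint_def.1 hc.disjoint) w' h h1)
        have h5 : ∃ X ∈ I, X w' ≠ 0 := by
          by_contra h
          push Not at h
          exact h4 h
        obtain ⟨X, hX, hXw⟩ := h5
        refine ⟨X w', hW' X (hIL hX) w' h1, hXw, ?_⟩
        rw [LieModule.lowerCentralSeries_succ]
        exact LieSubmodule.lie_mem_lie (LieSubmodule.mem_top (⟨X, hX⟩ : J)) h3
    obtain ⟨w', h1, h2, h3⟩ := key N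
    rw [hN] at h3
    exact h2 (by simpa using h3)
  rw [hbot] at hc
  have htop : W = ⊤ := by simpa using hc.sup_eq_top
  intro X hX
  ext v
  have : v ∈ W := htop ▸ Submodule.mem_top
  exact this X hX

/-- The elements of the derived algebra of a Lie algebra with zero trace form are nilpotent. -/
lemma nilp [CharZero k] (R : Submodule k (End k V)) (hR : ∀ A ∈ R, ∀ X ∈ R, A * X - X * A ∈ R)
    (htr : ∀ X ∈ R, ∀ Y ∈ R, LinearMap.trace k V (X * Y) = 0) :
    ∀ T ∈ Submodule.span k {T : End k V | ∃ X ∈ R, ∃ Z ∈ R, T = X * Z - Z * X},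
      IsNilpotent T := by
  let J : LieSubalgebra k (End k V) :=
    { R with lie_mem' := fun {x y} hx hy => hR x hx y hy }
  have hz : LieModule.traceForm k J V = 0 := by
    ext x y
    rw [LieModule.traceForm_apply_apply]
    exact htr x x.2 y y.2
  have hn := LieModule.isNilpotent_derivedSeries_of_traceForm_eq_zero hz
  have h1 : ∀ t : J, t ∈ LieAlgebra.derivedSeries k J 1 → IsNilpotent (t : End k V) := by
    intro t ht
    obtain ⟨m, hm⟩ := (LieModule.isNilpotent_iff_forall' (R := k)).1 hn ⟨t, ht⟩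
    refine ⟨m, ?_⟩
    have e : LieModule.toEnd k (LieAlgebra.derivedSeries k J 1) V ⟨t, ht⟩ = (t : End k V) := by
      ext v
      rfl
    rw [e] at hm
    exact hm
  intro T hT
  have h2 : ∃ t : J, t ∈ LieAlgebra.derivedSeries k J 1 ∧ (t : End k V) = T := by
    induction hT using Submodule.span_induction with
    | mem T hT =>
      obtain ⟨X, hX, Z, hZ, rfl⟩ := hT
      refine ⟨⁅(⟨X, hX⟩ : J), (⟨Z, hZ⟩ : J)⁆, ?_, rfl⟩
      rw [LieAlgebra.derivedSeries_def, LieAlgebra.derivedSeriesOfIdeal_succ]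
      exact LieSubmodule.lie_mem_lie (by simp) (by simp)
    | zero => exact ⟨0, LieSubmodule.zero_mem _, rfl⟩
    | add a b _ _ ha hb =>
      obtain ⟨s, hs, rfl⟩ := ha
      obtain ⟨t, ht, rfl⟩ := hb
      exact ⟨s + t, add_mem hs ht, rfl⟩
    | smul c a _ ha =>
      obtain ⟨s, hs, rfl⟩ := ha
      exact ⟨c • s, SMulMemClass.smul_mem c hs, rfl⟩
  obtain ⟨t, ht, rfl⟩ := h2
  exact h1 t ht

end Cart

open Cart in
/-- **CART** -/
theorem t_CART : S_CART := by
  intro k _ _ V _ _ _ L hL hss
  let R : Submodule k (End k V) :=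
    { carrier := {X | X ∈ L ∧ ∀ Y ∈ L, LinearMap.trace k V (X * Y) = 0}
      add_mem' := fun {a b} ha hb => ⟨L.add_mem ha.1 hb.1, fun Y hY => by
        rw [add_mul, map_add, ha.2 Y hY, hb.2 Y hY, add_zero]⟩
      zero_mem' := ⟨L.zero_mem, fun Y _ => by rw [zero_mul, map_zero]⟩
      smul_mem' := fun c a ha => ⟨L.smul_mem c ha.1, fun Y hY => by
        rw [smul_mul_assoc, map_smul, ha.2 Y hY, smul_zero]⟩ }
  have hRL : R ≤ L := fun X h => h.1
  have hRid : ∀ A ∈ L, ∀ X ∈ R, A * X - X * A ∈ R := by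
    intro A hA X hX
    refine ⟨hL A hA X hX.1, fun Y hY => ?_⟩
    have h := hX.2 (Y * A - A * Y) (hL Y hY A hA)
    rw [mul_sub, map_sub] at h
    rw [sub_mul, map_sub, mul_assoc A, LinearMap.trace_mul_comm k A, mul_assoc, mul_assoc]
    exact h
  -- the derived algebra of `R` is zero
  have hI1 : ∀ X ∈ R, ∀ Z ∈ R, X * Z = Z * X := by
    intro X hX Z hZ
    have h := nil L hss (Submodule.span k {T : End k V | ∃ X ∈ R, ∃ Z ∈ R, T = X * Z - Z * X})
      (Submodule.span_le.2 ?_) ?_
      (nilp R (fun A hA X hX => hRid A (hRL hA) X hX) (fun X hX Y hY => hX.2 Y (hRL hY)))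
      (X * Z - Z * X) (Submodule.subset_span ⟨X, hX, Z, hZ, rfl⟩)
    · exact sub_eq_zero.1 h
    · rintro T ⟨X, hX, Z, hZ, rfl⟩
      exact hL X hX.1 Z hZ.1
    · intro A hA T hT
      induction hT using Submodule.span_induction with
      | mem T hT =>
        obtain ⟨X, hX, Z, hZ, rfl⟩ := hT
        have e : A * (X * Z - Z * X) - (X * Z - Z * X) * A =
            ((A * X - X * A) * Z - Z * (A * X - X * A)) +
              (X * (A * Z - Z * A) - (A * Z - Z * A) * X) := by
          noncomm_ring
        rw [e]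
        exact Submodule.add_mem _
          (Submodule.subset_span ⟨_, hRid A hA X hX, Z, hZ, rfl⟩)
          (Submodule.subset_span ⟨X, hX, _, hRid A hA Z hZ, rfl⟩)
      | zero => simp
      | add a b _ _ ha hb =>
        have e : A * (a + b) - (a + b) * A = (A * a - a * A) + (A * b - b * A) := by
          noncomm_ring
        rw [e]
        exact Submodule.add_mem _ ha hb
      | smul c a _ ha =>
        rw [mul_smul_comm, smul_mul_assoc, ← smul_sub]
        exact Submodule.smul_mem _ c ha
  -- the span of the brackets of `L` and `R`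
  have hI2R : Submodule.span k {T : End k V | ∃ A ∈ L, ∃ B ∈ R, T = A * B - B * A} ≤ R := by
    refine Submodule.span_le.2 ?_
    rintro T ⟨A, hA, B, hB, rfl⟩
    exact hRid A hA B hB
  intro X hX hXtr Y hY
  have hXR : X ∈ R := ⟨hX, hXtr⟩
  have h := nil L hss (Submodule.span k {T : End k V | ∃ A ∈ L, ∃ B ∈ R, T = A * B - B * A})
    (hI2R.trans hRL) (fun A hA T hT => Submodule.subset_span ⟨A, hA, T, hI2R hT, rfl⟩) ?_
    (Y * X - X * Y) (Submodule.subset_span ⟨Y, hY, X, hXR, rfl⟩)
  · exact (sub_eq_zero.1 h).symm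
  · intro T hT
    refine Pool.Agent.R401.Burn.isNilpotent_of_trace_pow
      (fun m hm _ => Nat.cast_ne_zero.2 hm.ne') T (fun r => ?_)
    have hTR := hI2R hT
    have key : ∀ S ∈ Submodule.span k {T : End k V | ∃ A ∈ L, ∃ B ∈ R, T = A * B - B * A},
        LinearMap.trace k V (S * T ^ r) = 0 := by
      intro S hS
      induction hS using Submodule.span_induction with
      | mem S hS =>
        obtain ⟨A, hA, B, hB, rfl⟩ := hS
        have hc : Commute B (T ^ r) := Commute.pow_right (hI1 B hB T hTR) r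
        rw [sub_mul, map_sub, mul_assoc B, LinearMap.trace_mul_comm k B, mul_assoc, mul_assoc,
          hc.eq, sub_self]
      | zero => rw [zero_mul, map_zero]
      | add a b _ _ ha hb => rw [add_mul, map_add, ha, hb, add_zero]
      | smul c a _ ha => rw [smul_mul_assoc, map_smul, ha, smul_zero]
    rw [pow_succ']
    exact key T hT

end Pool.Agent.Helper49P
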