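import Pool.Agent.Helper49P.Stm

set_option autoImplicit false

namespace Pool.Agent.Helper49P

open Filter Topology Module

namespace CENx

variable {C : Type} [Field C] [CharZero C] {V : Type} [AddCommGroup V] [Module C V]
  [FiniteDimensional C V]

theorem exists_poly (X : End C V) (hX : ⨆ μ, End.eigenspace X μ = ⊤) :
    ∃ p : Polynomial C, Squarefree p ∧ Polynomial.aeval X p = 0 := by
  classical
  have hfin : {μ | End.HasEigenvalue X μ}.Finite := End.finite_hasEigenvalue X
  refine ⟨∏ μ ∈ hfin.toFinset, (Polynomial.X - Polynomial.C μ), ?_, ?_⟩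
  · refine Polynomial.Separable.squarefree ?_
    rw [Polynomial.separable_prod_X_sub_C_iff' (f := fun μ => μ)]
    intro x _ y _ h
    exact h
  · refine LinearMap.ext fun v => ?_
    have hv : v ∈ ⨆ μ, End.eigenspace X μ := by rw [hX]; trivial
    refine Submodule.iSup_induction (motive := fun v => (Polynomial.aeval X
      (∏ μ ∈ hfin.toFinset, (Polynomial.X - Polynomial.C μ))) v = (0 : End C V) v) _ hv ?_ ?_ ?_
    · intro μ w hw
      by_cases hw0 : w = 0
      · rw [hw0, map_zero, map_zero]
      · have h1 : End.HasEigenvector X μ w := ⟨hw, hw0⟩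
        rw [End.aeval_apply_of_hasEigenvector h1, Polynomial.eval_prod,
          Finset.prod_eq_zero (i := μ), zero_smul]
        · rfl
        · rw [Set.Finite.mem_toFinset]
          exact End.hasEigenvalue_of_hasEigenvector h1
        · simp
    · simp
    · intro a b ha hb
      rw [map_add, ha, hb, map_add]

theorem aeval_mulRight (X : End C V) (p : Polynomial C) (Z : End C V) :
    Polynomial.aeval (LinearMap.mulRight C X) p Z = Z * Polynomial.aeval X p := by
  induction p using Polynomial.induction_on' with
  | add p q hp hq => rw [map_add, map_add, LinearMap.add_apply, hp, hq, mul_add]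
  | monomial n a =>
    rw [Polynomial.aeval_monomial, Polynomial.aeval_monomial, Module.End.mul_apply]
    have h1 : ((LinearMap.mulRight C X) ^ n) Z = Z * X ^ n := by
      induction n with
      | zero => rw [pow_zero, pow_zero, mul_one]; rfl
      | succ n ih => rw [pow_succ', Module.End.mul_apply, ih, pow_succ, ← mul_assoc]; rfl
    rw [h1, Module.algebraMap_end_apply, Algebra.algebraMap_eq_smul_one, smul_mul_assoc, one_mul,
      mul_smul_comm]

theorem ss_ad (X : End C V) (hX : ⨆ μ, End.eigenspace X μ = ⊤) :
    Module.End.IsSemisimple (R := C) (M := End C V)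
      (LinearMap.mulLeft C X - LinearMap.mulRight C X) := by
  obtain ⟨p, hp, h0⟩ := exists_poly X hX
  have h1 : Module.End.IsSemisimple (R := C) (M := End C V) (LinearMap.mulLeft C X) := by
    refine Module.End.isSemisimple_of_squarefree_aeval_eq_zero hp ?_
    have h2 := Polynomial.aeval_algHom_apply (Algebra.lmul C (End C V)) X p
    rw [h0, map_zero] at h2
    exact h2
  have h2 : Module.End.IsSemisimple (R := C) (M := End C V) (LinearMap.mulRight C X) := by
    refine Module.End.isSemisimple_of_squarefree_aeval_eq_zero hp ?_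
    refine LinearMap.ext fun Z => ?_
    rw [aeval_mulRight, h0, mul_zero]
    rfl
  exact Module.End.IsSemisimple.sub_of_commute (LinearMap.commute_mulLeft_right X X) h1 h2

theorem ker_sup_range {W : Type} [AddCommGroup W] [Module C W] [FiniteDimensional C W]
    (f : End C W) (hf : Module.End.IsSemisimple f) : LinearMap.ker f ⊔ LinearMap.range f = ⊤ := by
  have hdis : Disjoint (LinearMap.ker f) (LinearMap.range f) := by
    rw [Submodule.disjoint_def]
    rintro _ hx ⟨y, rfl⟩
    have h1 : y ∈ End.maxGenEigenspace f 0 := by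
      rw [End.mem_maxGenEigenspace]
      refine ⟨2, ?_⟩
      rw [zero_smul, sub_zero, pow_two, Module.End.mul_apply]
      exact hx
    rw [hf.isFinitelySemisimple.maxGenEigenspace_eq_eigenspace 0, End.mem_eigenspace_iff,
      zero_smul] at h1
    exact h1
  apply Submodule.eq_top_of_finrank_eq
  have h1 := Submodule.finrank_sup_add_finrank_inf_eq (LinearMap.ker f) (LinearMap.range f)
  rw [hdis.eq_bot, finrank_bot, add_zero] at h1
  rw [h1, add_comm]
  exact LinearMap.finrank_range_add_finrank_ker f

end CENx

open CENx

theorem t_CEN : S_CEN := by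
  intro C _ _ V _ _ _ L hL hnd X hXL hX A hA hXA hort
  refine hnd A hA fun Y hY => ?_
  have hmap : ∀ Z ∈ L, (LinearMap.mulLeft C X - LinearMap.mulRight C X) Z ∈ L := by
    intro Z hZ
    exact hL X hXL Z hZ
  let f : End C L := (LinearMap.mulLeft C X - LinearMap.mulRight C X).restrict hmap
  have hf : Module.End.IsSemisimple f := Module.End.IsSemisimple.restrict (p := L) hmap (ss_ad X hX)
  have htop := ker_sup_range f hf
  have hYt : (⟨Y, hY⟩ : L) ∈ LinearMap.ker f ⊔ LinearMap.range f := by rw [htop]; trivial
  obtain ⟨B, hB, R, ⟨Z, hZ⟩, hBR⟩ := Submodule.mem_sup.1 hYt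
  have hB' : X * (B : End C V) = B * X := by
    have h1 : f B = 0 := hB
    have h2 : ((f B : L) : End C V) = X * (B : End C V) - B * X := rfl
    rw [h1] at h2
    exact (sub_eq_zero.1 h2.symm)
  have hR : (R : End C V) = X * (Z : End C V) - Z * X := by
    rw [← hZ]
    rfl
  have hYe : Y = (B : End C V) + (X * (Z : End C V) - Z * X) := by
    rw [← hR]
    exact (congrArg Subtype.val hBR).symm
  rw [hYe, mul_add, map_add, hort B B.2 hB', zero_add, mul_sub, map_sub, ← mul_assoc, ← hXA,
    ← mul_assoc, mul_assoc X A, LinearMap.trace_mul_comm, sub_self]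

end Pool.Agent.Helper49P
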