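import Pool.Agent.Helper49P.Stm2
import Pool.Agent.N203.RE.Ext

/-!
# Piece DENS: the rank of a rational Lie algebra does not drop over `ℚ_ℓ`
-/

set_option autoImplicit false

namespace Pool.Agent.Helper49P.DensAux

open Module

/-- linear independence at a rational point -/
theorem rat_point {ℓ : ℕ} [Fact ℓ.Prime] {M : Type} [AddCommGroup M] [Module ℚ_[ℓ] M]
    [FiniteDimensional ℚ_[ℓ] M] {m s : ℕ} (u : Fin m → Fin s → M) (c : Fin m → ℚ_[ℓ])
    (h : LinearIndependent ℚ_[ℓ] (fun j => ∑ i, c i • u i j)) :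
    ∃ c' : Fin m → ℚ, LinearIndependent ℚ_[ℓ] (fun j => ∑ i, ((c' i : ℚ) : ℚ_[ℓ]) • u i j) := by
  let Φ := (Module.finBasis ℚ_[ℓ] M).equivFun
  let F : (Fin m → ℚ_[ℓ]) → (Fin s → (Fin (finrank ℚ_[ℓ] M) → ℚ_[ℓ])) :=
    fun c j => ∑ i, c i • Φ (u i j)
  have hF : Continuous F := by
    refine continuous_pi fun j => continuous_finsetSum _ fun i _ => ?_
    exact (continuous_apply i).smul continuous_const
  have hFe : ∀ c : Fin m → ℚ_[ℓ], F c = Φ ∘ (fun j => ∑ i, c i • u i j) := by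
    intro c
    funext j
    simp only [F, Function.comp_apply, map_sum, map_smul]
  have hiff : ∀ c : Fin m → ℚ_[ℓ], LinearIndependent ℚ_[ℓ] (F c) ↔
      LinearIndependent ℚ_[ℓ] (fun j => ∑ i, c i • u i j) := by
    intro c
    rw [hFe c]
    exact LinearMap.linearIndependent_iff (Φ : M →ₗ[ℚ_[ℓ]] (Fin (finrank ℚ_[ℓ] M) → ℚ_[ℓ]))
      (LinearMap.ker_eq_bot.2 Φ.injective)
  have hopen : IsOpen (F ⁻¹' {v | LinearIndependent ℚ_[ℓ] v}) :=
    isOpen_setOfPred_linearIndependent.preimage hF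
  have hdense : DenseRange (fun (c' : Fin m → ℚ) (i : Fin m) => ((c' i : ℚ) : ℚ_[ℓ])) := by
    refine DenseRange.piMap (fun _ => ?_)
    intro x
    rw [Metric.mem_closure_iff]
    intro ε hε
    obtain ⟨r, hr⟩ := Padic.rat_dense ℓ x hε
    exact ⟨_, ⟨r, rfl⟩, by rw [dist_eq_norm]; exact hr⟩
  obtain ⟨c', hc'⟩ := hdense.exists_mem_open hopen ⟨c, (hiff c).2 h⟩
  exact ⟨c', (hiff _).1 hc'⟩

end Pool.Agent.Helper49P.DensAux

namespace Pool.Agent.Helper49P

open Module TensorProduct Pool.Agent.Y114.RM Pool.Agent.Y114.MU Pool.Agent.Y114.TF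
  Pool.Agent.H204R3.GP Pool.Agent.R931.BD Pool.Agent.N203.RE

section

variable {ι : Type} [Fintype ι] [DecidableEq ι] {n : ι → ℕ} (ℓ : ℕ) [Fact ℓ.Prime]

/-- the dimension of the centralizer of the extension of a rational element -/
theorem DensAux.finrank_cen {𝔤 : Submodule ℚ (End ℚ (Betti n))} (X : End ℚ (Betti n)) :
    finrank ℚ_[ℓ] (cen (scal ℓ 𝔤) ((ee ℓ).conj (X.baseChange ℚ_[ℓ]))) =
      finrank ℚ (cen 𝔤 X) := by
  rw [← (inputs.bc ℚ ℚ_[ℓ] (Betti n) 𝔤).2.2.2.1 X]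
  have h2 : cen (scal ℓ 𝔤) ((ee ℓ).conj (X.baseChange ℚ_[ℓ])) =
      (cen (bcS ℚ_[ℓ] 𝔤) (X.baseChange ℚ_[ℓ])).map (ee (n := n) ℓ).conj.toLinearMap := by
    ext Z
    obtain ⟨Y, rfl⟩ := exists_conj ℓ Z
    rw [mem_cen, mem_scalars, ← N203.RE.conj_mul, ← N203.RE.conj_mul, Submodule.mem_map]
    constructor
    · rintro ⟨h3, h4⟩
      exact ⟨Y, ⟨h3, (ee ℓ).conj.injective h4⟩, rfl⟩
    · rintro ⟨Y', ⟨h3, h4⟩, h5⟩
      have h6 : Y' = Y := (ee ℓ).conj.injective h5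
      subst h6
      exact ⟨h3, congrArg _ h4⟩
  rw [h2]
  exact LinearEquiv.finrank_map_eq (ee ℓ).conj _

end

/-- the centralizer and the rank of the commutator map -/
theorem DensAux.cen_rank {k : Type} [Field k] {V : Type} [AddCommGroup V] [Module k V]
    [FiniteDimensional k V] (W : Submodule k (End k V)) (X : End k V) :
    finrank k (LinearMap.range ((adE X).domRestrict W)) + finrank k (cen W X) =
      finrank k W := by
  rw [← LinearMap.finrank_range_add_finrank_ker ((adE X).domRestrict W)]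
  congr 1
  have h : cen W X = (LinearMap.ker ((adE X).domRestrict W)).map W.subtype := by
    ext Y
    rw [mem_cen, Submodule.mem_map]
    constructor
    · rintro ⟨h1, h2⟩
      refine ⟨⟨Y, h1⟩, ?_, rfl⟩
      rw [LinearMap.mem_ker, LinearMap.domRestrict_apply, adE_apply]
      exact sub_eq_zero.2 h2
    · rintro ⟨Y', h1, rfl⟩
      rw [LinearMap.mem_ker, LinearMap.domRestrict_apply, adE_apply] at h1
      exact ⟨Y'.2, sub_eq_zero.1 h1⟩
  rw [h]
  exact Submodule.finrank_map_subtype_eq _ _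

/-- a rational point with a centralizer which is not larger -/
theorem DensAux.gen {ℓ : ℕ} [Fact ℓ.Prime] {V : Type} [AddCommGroup V] [Module ℚ_[ℓ] V]
    [FiniteDimensional ℚ_[ℓ] V] (W : Submodule ℚ_[ℓ] (End ℚ_[ℓ] V)) {m : ℕ}
    (g : Fin m → End ℚ_[ℓ] V) (c : Fin m → ℚ_[ℓ]) : ∃ c' : Fin m → ℚ,
      finrank ℚ_[ℓ] (cen W (∑ i, ((c' i : ℚ) : ℚ_[ℓ]) • g i)) ≤
        finrank ℚ_[ℓ] (cen W (∑ i, c i • g i)) := by
  let ad : End ℚ_[ℓ] V → (W →ₗ[ℚ_[ℓ]] End ℚ_[ℓ] V) := fun X => (adE X).domRestrict W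
  have had : ∀ X, ad X = (adE X).domRestrict W := fun _ => rfl
  obtain ⟨s, b⟩ : ∃ s : ℕ, Nonempty (Basis (Fin s) ℚ_[ℓ] (LinearMap.range (ad (∑ i, c i • g i)))) :=
    ⟨_, ⟨Module.finBasis ℚ_[ℓ] (LinearMap.range (ad (∑ i, c i • g i)))⟩⟩
  obtain ⟨b⟩ := b
  have hs : finrank ℚ_[ℓ] (LinearMap.range (ad (∑ i, c i • g i))) = s := by
    rw [finrank_eq_card_basis b, Fintype.card_fin]
  have hb : ∀ j, ∃ Y : W, ad (∑ i, c i • g i) Y = (b j : End ℚ_[ℓ] V) := fun j => (b j).2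
  choose Y hY using hb
  have hbi : LinearIndependent ℚ_[ℓ] (fun j => (b j : End ℚ_[ℓ] V)) :=
    b.linearIndependent.map' (Submodule.subtype _) (Submodule.ker_subtype _)
  have hgen : ∀ c : Fin m → ℚ_[ℓ], ∀ j : Fin s,
      ∑ i, c i • (g i * (Y j : End ℚ_[ℓ] V) - (Y j : End ℚ_[ℓ] V) * g i) =
        ad (∑ i, c i • g i) (Y j) := by
    intro c j
    rw [had, LinearMap.domRestrict_apply, adE_apply, Finset.sum_mul, Finset.mul_sum,
      ← Finset.sum_sub_distrib]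
    refine Finset.sum_congr rfl fun i _ => ?_
    rw [smul_sub, smul_mul_assoc, mul_smul_comm]
  have hli : LinearIndependent ℚ_[ℓ] (fun j : Fin s =>
      ∑ i, c i • (g i * (Y j : End ℚ_[ℓ] V) - (Y j : End ℚ_[ℓ] V) * g i)) := by
    have e : (fun j : Fin s => ∑ i, c i • (g i * (Y j : End ℚ_[ℓ] V) -
        (Y j : End ℚ_[ℓ] V) * g i)) = fun j => (b j : End ℚ_[ℓ] V) := by
      funext j
      rw [hgen c j, hY j]
    rw [e]
    exact hbi
  obtain ⟨c', hc'⟩ := DensAux.rat_point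
    (fun (i : Fin m) (j : Fin s) => g i * (Y j : End ℚ_[ℓ] V) - (Y j : End ℚ_[ℓ] V) * g i) c hli
  refine ⟨c', ?_⟩
  have h1 := DensAux.cen_rank W (∑ i, c i • g i)
  have h2 := DensAux.cen_rank W (∑ i, ((c' i : ℚ) : ℚ_[ℓ]) • g i)
  rw [← had] at h1 h2
  rw [hs] at h1
  have h3 : s ≤ finrank ℚ_[ℓ] (LinearMap.range (ad (∑ i, ((c' i : ℚ) : ℚ_[ℓ]) • g i))) := by
    have h4 : LinearIndependent ℚ_[ℓ] (fun j : Fin s =>
        ad (∑ i, ((c' i : ℚ) : ℚ_[ℓ]) • g i) (Y j)) := by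
      have e : (fun j : Fin s => ad (∑ i, ((c' i : ℚ) : ℚ_[ℓ]) • g i) (Y j)) =
          fun j => ∑ i, ((c' i : ℚ) : ℚ_[ℓ]) • (g i * (Y j : End ℚ_[ℓ] V) -
            (Y j : End ℚ_[ℓ] V) * g i) := by
        funext j
        exact (hgen _ j).symm
      rw [e]
      exact hc'
    have h5 : LinearIndependent ℚ_[ℓ] (fun j : Fin s =>
        (⟨_, LinearMap.mem_range_self (ad (∑ i, ((c' i : ℚ) : ℚ_[ℓ]) • g i)) (Y j)⟩ :
          LinearMap.range (ad (∑ i, ((c' i : ℚ) : ℚ_[ℓ]) • g i)))) :=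
      LinearIndependent.of_comp (Submodule.subtype _) h4
    have h6 := h5.fintype_card_le_finrank
    rwa [Fintype.card_fin] at h6
  omega

/-- DENS -/
theorem t_DENS : S_DENS := by
  intro ℓ _ ι _ _ n 𝔤 r hr X hX
  have hX0 : X ∈ Submodule.span ℚ_[ℓ] {Y : End ℚ_[ℓ] (∀ i, Fin (n i) → ℚ_[ℓ]) |
    ∃ X ∈ 𝔤, Extends X Y} := hX
  change r ≤ finrank ℚ_[ℓ] (cen (scal ℓ 𝔤) X)
  rw [Submodule.mem_span_set'] at hX0
  obtain ⟨m, c, g, hg⟩ := hX0
  choose G hG hGe using fun i => (g i).2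
  obtain ⟨c', hc'⟩ := DensAux.gen (scal ℓ 𝔤) (fun i => (g i).1) c
  -- the rational element
  set X' : End ℚ (Betti n) := ∑ i, c' i • G i with hX'
  have hX'g : X' ∈ 𝔤 := Submodule.sum_mem _ fun i _ => Submodule.smul_mem _ _ (hG i)
  have hext : (∑ i, ((c' i : ℚ) : ℚ_[ℓ]) • (g i).1) = (ee ℓ).conj (X'.baseChange ℚ_[ℓ]) := by
    rw [← extends_iff]
    intro x
    rw [LinearMap.sum_apply, hX', LinearMap.sum_apply]
    have h1 : ∀ i, (((c' i : ℚ) : ℚ_[ℓ]) • (g i).1) (toLadic ℓ x)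
        = toLadic ℓ ((c' i • G i) x) := by
      intro i
      rw [LinearMap.smul_apply, hGe i x, LinearMap.smul_apply]
      funext a t
      have h0 : (c' i • G i x) a t = c' i * (G i x) a t := rfl
      have h3 : (toLadic ℓ (c' i • G i x)) a t = (((c' i • G i x) a t : ℚ) : ℚ_[ℓ]) := rfl
      rw [h3, h0]
      push_cast
      rfl
    rw [Finset.sum_congr rfl fun i _ => h1 i]
    have h2 : ∀ (S : Finset (Fin m)), (∑ i ∈ S, toLadic ℓ ((c' i • G i) x)) =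
        toLadic ℓ (∑ i ∈ S, (c' i • G i) x) := by
      intro S
      classical
      induction S using Finset.induction_on with
      | empty =>
        funext a t
        have h3 : (toLadic ℓ (0 : Betti n)) a t = (((0 : Betti n) a t : ℚ) : ℚ_[ℓ]) := rfl
        have h4 : (0 : Betti n) a t = 0 := rfl
        rw [Finset.sum_empty, Finset.sum_empty, h3, h4]
        simp
      | insert i S hi ih =>
        rw [Finset.sum_insert hi, Finset.sum_insert hi, ih]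
        funext a t
        have h3 : (toLadic ℓ ((c' i • G i) x + ∑ i ∈ S, (c' i • G i) x)) a t =
            ((((c' i • G i) x + ∑ i ∈ S, (c' i • G i) x) a t : ℚ) : ℚ_[ℓ]) := rfl
        have h4 : ((c' i • G i) x + ∑ i ∈ S, (c' i • G i) x) a t =
            ((c' i • G i) x) a t + (∑ i ∈ S, (c' i • G i) x) a t := rfl
        rw [h3, h4]
        push_cast
        rfl
    exact h2 Finset.univ
  rw [← hg]
  refine le_trans ?_ hc'
  rw [hext, DensAux.finrank_cen ℓ X']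
  exact hr X' hX'g

end Pool.Agent.Helper49P
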