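import Pool.Agent.Helper49P.Stm

/-!
# The derivative of a multilinear form
-/

set_option autoImplicit false

namespace Pool.Agent.Helper49P

open Filter Topology Module

theorem t_DER : S_DER := by
  intro ℓ _ U _ _ _ A B c hc0 hc hξ m
  induction m with
  | zero =>
    intro ψ v
    have h1 : (fun j => (c j)⁻¹ * (ψ (fun l => A j (v l)) - ψ v)) = fun _ => 0 := by
      funext j
      have h2 : (fun l => A j (v l)) = v := Subsingleton.elim _ _
      rw [h2, sub_self, mul_zero]
    rw [h1, Finset.univ_eq_empty, Finset.sum_empty]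
    exact tendsto_const_nhds
  | succ m ih =>
    intro ψ v
    let v' : Fin m → U := fun l => v l.succ
    have hv : v = Fin.cons (v 0) v' := (Fin.cons_self_tail v).symm
    have hA : ∀ j, (fun l => A j (v l)) = (Fin.cons (A j (v 0)) (fun l => A j (v' l)) :
        Fin (m + 1) → U) := by
      intro j
      refine funext fun l => ?_
      refine Fin.cases ?_ (fun l => ?_) l
      · rw [Fin.cons_zero]
      · rw [Fin.cons_succ]
    have hcur : ∀ u w, ψ.curryLeft u w = ψ (Fin.cons u w) := fun u w => rfl
    let b := finBasis ℚ_[ℓ] U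
    have hexp : ∀ u, ψ.curryLeft u = ∑ i, b.repr u i • ψ.curryLeft (b i) := by
      intro u
      conv_lhs => rw [← b.sum_repr u]
      rw [map_sum]
      exact Finset.sum_congr rfl fun i _ => map_smul _ _ _
    -- the forms with a fixed first variable
    have hlim : ∀ u, Tendsto (fun j => ψ.curryLeft u (fun l => A j (v' l))) atTop
        (𝓝 (ψ.curryLeft u v')) := by
      intro u
      have h1 := hc.mul (ih (ψ.curryLeft u) v')
      rw [zero_mul] at h1
      have h2 := h1.add (tendsto_const_nhds (x := ψ.curryLeft u v'))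
      rw [zero_add] at h2
      refine h2.congr fun j => ?_
      rw [← mul_assoc, mul_inv_cancel₀ (hc0 j), one_mul, sub_add_cancel]
    have hco : ∀ i, Tendsto (fun j => (c j)⁻¹ * b.repr ((A j - 1) (v 0)) i) atTop
        (𝓝 (b.repr (B (v 0)) i)) := fun i =>
      hξ ((b.coord i) ∘ₗ (LinearMap.applyₗ (v 0)))
    have h1 : Tendsto (fun j => ∑ i, ((c j)⁻¹ * b.repr ((A j - 1) (v 0)) i) *
        ψ.curryLeft (b i) (fun l => A j (v' l))) atTop
        (𝓝 (∑ i, b.repr (B (v 0)) i * ψ.curryLeft (b i) v')) :=
      tendsto_finsetSum _ fun i _ => (hco i).mul (hlim (b i))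
    have h2 := h1.add (ih (ψ.curryLeft (v 0)) v')
    have h3 : (∑ i, b.repr (B (v 0)) i * ψ.curryLeft (b i) v') +
        (∑ l, ψ.curryLeft (v 0) (Function.update v' l (B (v' l)))) =
        ∑ l, ψ (Function.update v l (B (v l))) := by
      rw [Fin.sum_univ_succ]
      congr 1
      · have h4 : ψ (Function.update v 0 (B (v 0))) = ψ.curryLeft (B (v 0)) v' := by
          rw [hcur]
          congr 1
          conv_lhs => rw [hv]
          rw [Fin.update_cons_zero]
          rfl
        rw [h4, hexp, MultilinearMap.sum_apply]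
        rfl
      · refine Finset.sum_congr rfl fun l _ => ?_
        rw [hcur]
        congr 1
        conv_rhs => rw [hv]
        rw [← Fin.cons_update]
        rfl
    rw [h3] at h2
    refine h2.congr fun j => ?_
    have h5 : ψ (fun l => A j (v l)) = ψ.curryLeft ((A j - 1) (v 0)) (fun l => A j (v' l)) +
        ψ.curryLeft (v 0) (fun l => A j (v' l)) := by
      rw [hA, ← hcur, ← MultilinearMap.add_apply, ← map_add]
      congr 2
      rw [LinearMap.sub_apply, Module.End.one_apply, sub_add_cancel]
    have h6 : ψ v = ψ.curryLeft (v 0) v' := by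
      rw [hcur, ← hv]
    rw [h5, h6, hexp ((A j - 1) (v 0)), MultilinearMap.sum_apply, add_sub_assoc, mul_add,
      Finset.mul_sum]
    congr 1
    refine Finset.sum_congr rfl fun i _ => ?_
    rw [MultilinearMap.smul_apply, smul_eq_mul, mul_assoc]

end Pool.Agent.Helper49P
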