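import Pool.Agent.Helper49P.Stm

/-!
# Piece EIG: eigenvalues of an element from eigenvalues of its logarithm
-/

set_option autoImplicit false
set_option linter.all false

namespace Pool.Agent.Helper49P

open Filter Topology Module

namespace EIG

variable {ℓ : ℕ} [Fact ℓ.Prime]

/-- `(a ^ (ℓ ^ k) - 1) / ℓ ^ k → α` -/
def Lg (a α : PadicAlgCl ℓ) : Prop :=
  Tendsto (fun k : ℕ => ((ℓ : PadicAlgCl ℓ) ^ k)⁻¹ * (a ^ (ℓ ^ k) - 1)) atTop (𝓝 α)

theorem hl_ne : (ℓ : PadicAlgCl ℓ) ≠ 0 := by exact_mod_cast (Fact.out : ℓ.Prime).ne_zero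

theorem norm_l : ‖(ℓ : PadicAlgCl ℓ)‖ = (ℓ : ℝ)⁻¹ := by
  have h : (ℓ : PadicAlgCl ℓ) = ((ℓ : ℚ_[ℓ]) : PadicAlgCl ℓ) := by
    push_cast
    rfl
  rw [h, PadicAlgCl.norm_extends]
  exact Padic.norm_p

theorem tendsto_l : Tendsto (fun k : ℕ => (ℓ : PadicAlgCl ℓ) ^ k) atTop (𝓝 0) := by
  apply tendsto_pow_atTop_nhds_zero_of_norm_lt_one
  rw [norm_l]
  exact inv_lt_one_of_one_lt₀ (by exact_mod_cast (Fact.out : ℓ.Prime).one_lt)

theorem Lg.one {a α : PadicAlgCl ℓ} (h : Lg a α) :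
    Tendsto (fun k : ℕ => a ^ (ℓ ^ k)) atTop (𝓝 1) := by
  have h1 := (tendsto_l (ℓ := ℓ)).mul h
  rw [zero_mul] at h1
  have h2 : (fun k : ℕ => a ^ (ℓ ^ k)) = fun k : ℕ => (ℓ : PadicAlgCl ℓ) ^ k *
      (((ℓ : PadicAlgCl ℓ) ^ k)⁻¹ * (a ^ (ℓ ^ k) - 1)) + 1 := by
    funext k
    rw [mul_inv_cancel_left₀ (pow_ne_zero k hl_ne), sub_add_cancel]
  rw [h2]
  have h3 := h1.add_const 1
  rw [zero_add] at h3
  exact h3

theorem Lg.mul {a b α β : PadicAlgCl ℓ} (ha : Lg a α) (hb : Lg b β) : Lg (a * b) (α + β) := by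
  have h1 := (Tendsto.mul ha hb.one).add hb
  rw [mul_one] at h1
  refine h1.congr fun k => ?_
  rw [mul_pow]
  ring

theorem Lg.inv {a α : PadicAlgCl ℓ} (h0 : a ≠ 0) (ha : Lg a α) : Lg a⁻¹ (-α) := by
  have h1 := (ha.one).inv₀ one_ne_zero
  rw [inv_one] at h1
  have h2 := (Tendsto.mul ha h1).neg
  rw [mul_one] at h2
  refine h2.congr fun k => ?_
  have h3 : a ^ (ℓ ^ k) ≠ 0 := pow_ne_zero _ h0
  rw [inv_pow]
  field_simp
  ring

theorem Lg.one' : Lg (1 : PadicAlgCl ℓ) 0 := by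
  unfold Lg
  simp

theorem Lg.pow {a α : PadicAlgCl ℓ} (ha : Lg a α) (n : ℕ) : Lg (a ^ n) (n • α) := by
  induction n with
  | zero => rw [pow_zero, zero_smul]; exact Lg.one'
  | succ n ih => rw [pow_succ, succ_nsmul]; exact ih.mul ha

theorem Lg.zpow {a α : PadicAlgCl ℓ} (h0 : a ≠ 0) (ha : Lg a α) (n : ℤ) : Lg (a ^ n) (n • α) := by
  rcases n with n | n
  · have := ha.pow n
    simpa using this
  · have := (ha.pow (n + 1)).inv (pow_ne_zero _ h0)
    rw [zpow_negSucc, negSucc_zsmul]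
    exact this

theorem Lg.prod {ι : Type} (s : Finset ι) {a α : ι → PadicAlgCl ℓ} (ha : ∀ i ∈ s, Lg (a i) (α i)) :
    Lg (∏ i ∈ s, a i) (∑ i ∈ s, α i) := by
  classical
  induction s using Finset.induction_on with
  | empty => exact Lg.one'
  | insert i s hi ih =>
    rw [Finset.prod_insert hi, Finset.sum_insert hi]
    exact (ha i (Finset.mem_insert_self i s)).mul
      (ih fun j hj => ha j (Finset.mem_insert_of_mem hj))

end EIG

open EIG in
theorem t_EIG : S_EIG := by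
  intro ℓ _ κ _ _ g X hlim r x hx hind
  classical
  -- the inclusion is continuous
  have hcont : Continuous (algebraMap ℚ_[ℓ] (PadicAlgCl ℓ)) :=
    continuous_algebraMap ℚ_[ℓ] (PadicAlgCl ℓ)
  obtain ⟨M, hM⟩ : ∃ M : Matrix κ κ (PadicAlgCl ℓ), M = g.map (algebraMap ℚ_[ℓ] (PadicAlgCl ℓ)) :=
    ⟨_, rfl⟩
  obtain ⟨N, hN⟩ : ∃ N : Matrix κ κ (PadicAlgCl ℓ), N = X.map (algebraMap ℚ_[ℓ] (PadicAlgCl ℓ)) :=
    ⟨_, rfl⟩
  -- `g` and `X` commute
  have hgX : g * X = X * g := by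
    have h1 : Tendsto (fun k : ℕ => (((ℓ : ℚ_[ℓ]) ^ k)⁻¹) • (g ^ (ℓ ^ k) - 1)) atTop (𝓝 X) :=
      tendsto_pi_nhds.2 fun a => tendsto_pi_nhds.2 fun b => hlim a b
    have h2 : Tendsto (fun k : ℕ => g * ((((ℓ : ℚ_[ℓ]) ^ k)⁻¹) • (g ^ (ℓ ^ k) - 1))) atTop
        (𝓝 (g * X)) := (Continuous.matrix_mul continuous_const continuous_id).continuousAt.tendsto.comp h1
    have h3 : Tendsto (fun k : ℕ => ((((ℓ : ℚ_[ℓ]) ^ k)⁻¹) • (g ^ (ℓ ^ k) - 1)) * g) atTop
        (𝓝 (X * g)) := (Continuous.matrix_mul continuous_id continuous_const).continuousAt.tendsto.comp h1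
    refine tendsto_nhds_unique h2 (h3.congr fun k => ?_)
    rw [smul_mul_assoc, mul_smul_comm, sub_mul, mul_sub, one_mul, mul_one, pow_mul_comm']
  have hMN : M * N = N * M := by
    rw [hM, hN, ← Matrix.map_mul, ← Matrix.map_mul, hgX]
  have hlimC : ∀ a b, Tendsto (fun k : ℕ => (((ℓ : PadicAlgCl ℓ) ^ k)⁻¹) * (M ^ (ℓ ^ k) - 1) a b)
      atTop (𝓝 (N a b)) := by
    intro a b
    have h1 := (hcont.tendsto (X a b)).comp (hlim a b)
    have h2 : N a b = algebraMap ℚ_[ℓ] (PadicAlgCl ℓ) (X a b) := by rw [hN]; rfl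
    rw [h2]
    refine h1.congr fun k => ?_
    have h3 : M ^ (ℓ ^ k) - 1 = (g ^ (ℓ ^ k) - 1).map (algebraMap ℚ_[ℓ] (PadicAlgCl ℓ)) := by
      rw [hM, ← RingHom.mapMatrix_apply, ← RingHom.mapMatrix_apply, map_sub, map_pow, map_one]
    rw [h3, Matrix.map_apply, Function.comp, map_mul, map_inv₀, map_pow, map_natCast]
  -- the eigenvectors
  have key : ∀ j, ∃ z : PadicAlgCl ℓ, Polynomial.aeval z g.charpoly = 0 ∧ Lg z (x j) := by
    intro j
    -- the eigenspace of `N`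
    have hNx : Module.End.HasEigenvalue (Matrix.toLin' N) (x j) := by
      rw [Module.End.hasEigenvalue_iff_isRoot_charpoly, Matrix.charpoly_toLin',
        hN, Matrix.charpoly_map, Polynomial.IsRoot, Polynomial.eval_map_algebraMap]
      exact hx j
    obtain ⟨W, hW⟩ : ∃ W, W = Module.End.eigenspace (Matrix.toLin' N) (x j) := ⟨_, rfl⟩
    have hst : ∀ w ∈ W, Matrix.toLin' M w ∈ W := by
      intro w hw
      rw [hW, Module.End.mem_eigenspace_iff] at hw ⊢
      have h1 : Matrix.toLin' N (Matrix.toLin' M w) = Matrix.toLin' M (Matrix.toLin' N w) := by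
        rw [← LinearMap.comp_apply, ← LinearMap.comp_apply, ← Matrix.toLin'_mul, ← Matrix.toLin'_mul,
          hMN]
      rw [h1, hw, map_smul]
    have hWne : W ≠ ⊥ := by
      rw [hW]
      exact hNx
    haveI : Nontrivial W := Submodule.nontrivial_iff_ne_bot.2 hWne
    obtain ⟨z, hz⟩ := Module.End.exists_eigenvalue ((Matrix.toLin' M).restrict hst)
    obtain ⟨v, hv⟩ := hz.exists_hasEigenvector
    have hv0 : (v : κ → PadicAlgCl ℓ) ≠ 0 := fun h => hv.2 (Subtype.ext h)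
    have hMv : Matrix.toLin' M (v : κ → PadicAlgCl ℓ) = z • (v : κ → PadicAlgCl ℓ) := by
      have := congrArg Subtype.val hv.apply_eq_smul
      exact this
    have hNv : Matrix.toLin' N (v : κ → PadicAlgCl ℓ) = x j • (v : κ → PadicAlgCl ℓ) := by
      have h1 : ∀ w ∈ W, Matrix.toLin' N w = x j • w := by
        intro w hw
        rw [hW, Module.End.mem_eigenspace_iff] at hw
        exact hw
      exact h1 _ v.2
    obtain ⟨u, hu⟩ : ∃ u : κ → PadicAlgCl ℓ, u = v := ⟨_, rfl⟩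
    rw [← hu] at hv0 hMv hNv
    rw [Matrix.toLin'_apply] at hMv hNv
    refine ⟨z, ?_, ?_⟩
    · have h1 : Module.End.HasEigenvalue (Matrix.toLin' M) z :=
        Module.End.hasEigenvalue_of_hasEigenvector (x := u)
          ⟨Module.End.mem_eigenspace_iff.2 (by rw [Matrix.toLin'_apply]; exact hMv), hv0⟩
      rw [Module.End.hasEigenvalue_iff_isRoot_charpoly, Matrix.charpoly_toLin',
        hM, Matrix.charpoly_map, Polynomial.IsRoot, Polynomial.eval_map_algebraMap] at h1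
      exact h1
    · have hpow : ∀ n : ℕ, (M ^ n).mulVec u = z ^ n • u := by
        intro n
        induction n with
        | zero => simp
        | succ n ih =>
          rw [pow_succ, ← Matrix.mulVec_mulVec, hMv, Matrix.mulVec_smul, ih, smul_smul, pow_succ,
            mul_comm]
      obtain ⟨a, ha⟩ : ∃ a, u a ≠ 0 := by
        by_contra hcon
        push Not at hcon
        exact hv0 (funext hcon)
      have h1 : Tendsto (fun k : ℕ => ∑ b, ((((ℓ : PadicAlgCl ℓ) ^ k)⁻¹) * (M ^ (ℓ ^ k) - 1) a b) *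
          u b) atTop (𝓝 (∑ b, N a b * u b)) :=
        tendsto_finsetSum _ fun b _ => (hlimC a b).mul_const _
      have h2 : ∑ b, N a b * u b = x j * u a := by
        have := congrFun hNv a
        simpa [Matrix.mulVec, dotProduct] using this
      rw [h2] at h1
      have h3 := h1.mul_const (u a)⁻¹
      rw [mul_assoc, mul_inv_cancel₀ ha, mul_one] at h3
      refine h3.congr fun k => ?_
      have h4 : ∑ b, ((((ℓ : PadicAlgCl ℓ) ^ k)⁻¹) * (M ^ (ℓ ^ k) - 1) a b) * u b =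
          ((ℓ : PadicAlgCl ℓ) ^ k)⁻¹ * ((z ^ (ℓ ^ k) - 1) * u a) := by
        have h5 := congrFun (hpow (ℓ ^ k)) a
        have h6 : ((M ^ (ℓ ^ k) - 1).mulVec u) a = (z ^ (ℓ ^ k) - 1) * u a := by
          rw [Matrix.sub_mulVec, Matrix.one_mulVec, Pi.sub_apply, h5, Pi.smul_apply, smul_eq_mul]
          ring
        rw [← h6, Matrix.mulVec, dotProduct, Finset.mul_sum]
        exact Finset.sum_congr rfl fun b _ => by ring
      rw [h4, mul_assoc, mul_assoc, mul_inv_cancel₀ ha, mul_one]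
  choose z hz hzx using key
  refine ⟨z, hz, fun e he => ?_⟩
  by_cases h0 : ∃ j, z j = 0
  · -- then the limit does not exist
    obtain ⟨j, hj⟩ := h0
    exfalso
    have h1 := (hzx j).one
    rw [hj] at h1
    have h2 : (fun k : ℕ => (0 : PadicAlgCl ℓ) ^ (ℓ ^ k)) = fun _ => 0 := by
      funext k
      exact zero_pow (pow_ne_zero k (Fact.out : ℓ.Prime).ne_zero)
    rw [h2] at h1
    exact zero_ne_one (tendsto_nhds_unique tendsto_const_nhds h1)
  · push Not at h0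
    apply hind
    have h1 := Lg.prod Finset.univ (a := fun j => z j ^ e j) (α := fun j => e j • x j)
      (fun j _ => (hzx j).zpow (h0 j) (e j))
    rw [he] at h1
    exact tendsto_nhds_unique h1 Lg.one'

end Pool.Agent.Helper49P
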