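import Pool.Agent.Helper49P.LOG

/-!
# Piece EXP of project RK: tangent vectors are logarithms up to a power of `ℓ`
-/

set_option autoImplicit false

namespace Pool.Agent.Helper49P

open Filter Topology Module

namespace EXP

open TAN1 LOG

variable {ℓ : ℕ} [Fact ℓ.Prime]
variable {E : Type} [NormedRing E] [NormedAlgebra ℚ_[ℓ] E]

/-- iterated roots -/
theorem roots {Γ : Type} [Group Γ] {φ : Γ →* E} {k₀ : ℕ}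
    (hroot : ∀ k ≥ k₀, ∀ η : Γ, ‖φ η - 1‖ ≤ ((ℓ : ℝ)⁻¹) ^ (k + 1) →
      ∃ γ : Γ, ‖φ γ - 1‖ ≤ ((ℓ : ℝ)⁻¹) ^ k ∧ φ γ ^ ℓ = φ η) (i : ℕ) :
    ∀ η : Γ, ‖φ η - 1‖ ≤ ((ℓ : ℝ)⁻¹) ^ (k₀ + i) →
      ∃ γ : Γ, ‖φ γ - 1‖ ≤ ((ℓ : ℝ)⁻¹) ^ k₀ ∧ φ γ ^ (ℓ ^ i) = φ η := by
  induction i with
  | zero =>
    intro η hη
    exact ⟨η, by simpa using hη, by simp⟩
  | succ i ih =>
    intro η hη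
    obtain ⟨γ', h1, h2⟩ := hroot (k₀ + i) (by omega) η hη
    obtain ⟨γ, h3, h4⟩ := ih γ' h1
    refine ⟨γ, h3, ?_⟩
    rw [pow_succ, pow_mul, h4, h2]

/-- the logarithm of a power -/
theorem log_pow {g Z : E} (hZ : IsLog ℓ g Z) (i : ℕ) :
    IsLog ℓ (g ^ (ℓ ^ i)) (((ℓ : ℚ_[ℓ]) ^ i) • Z) := by
  have hl0 : (ℓ : ℚ_[ℓ]) ≠ 0 := by exact_mod_cast (Fact.out : ℓ.Prime).ne_zero
  have h1 : Tendsto (fun k : ℕ => ((ℓ : ℚ_[ℓ]) ^ i) • ((((ℓ : ℚ_[ℓ]) ^ (k + i))⁻¹) •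
      (g ^ (ℓ ^ (k + i)) - 1))) atTop (𝓝 (((ℓ : ℚ_[ℓ]) ^ i) • Z)) := by
    have h2 := (hZ.comp (tendsto_add_atTop_nat i)).const_smul ((ℓ : ℚ_[ℓ]) ^ i)
    exact h2
  refine Tendsto.congr ?_ h1
  intro k
  have e1 : (ℓ : ℚ_[ℓ]) ^ i * (((ℓ : ℚ_[ℓ]) ^ (k + i))⁻¹) = ((ℓ : ℚ_[ℓ]) ^ k)⁻¹ := by
    rw [pow_add]
    have h3 : (ℓ : ℚ_[ℓ]) ^ i ≠ 0 := pow_ne_zero _ hl0
    have h4 : (ℓ : ℚ_[ℓ]) ^ k ≠ 0 := pow_ne_zero _ hl0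
    field_simp
  rw [smul_smul, e1, ← pow_mul, ← pow_add, add_comm i k]

section ultra

variable [IsUltrametricDist E]

theorem pow_sub_one (h1 : ‖(1 : E)‖ ≤ 1) {g : E} (hg : ‖g - 1‖ ≤ ((ℓ : ℝ)⁻¹) ^ 2) (n : ℕ) :
    ‖g ^ n - 1‖ ≤ ((ℓ : ℝ)⁻¹) ^ 2 := by
  have hq := q_pos (ℓ := ℓ)
  have hq1 := q_lt (ℓ := ℓ)
  have hq2 : ((ℓ : ℝ)⁻¹) ^ 2 ≤ 1 := pow_le_one₀ hq.le hq1.le
  have h2 : ‖g - 1‖ ≤ 1 := hg.trans hq2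
  have h3 := pow_est (ℓ := ℓ) h1 h2 n
  have e1 : (1 : E) + (g - 1) = g := by abel
  rw [e1] at h3
  have e2 : g ^ n - 1 = (g ^ n - 1 - (n : ℚ_[ℓ]) • (g - 1)) + (n : ℚ_[ℓ]) • (g - 1) := by abel
  rw [e2]
  refine (norm_add_max _ _).trans (max_le ?_ ((norm_nat_le n _).trans hg))
  refine (h3.trans ?_).trans hg
  rw [pow_two]
  exact mul_le_of_le_one_left (norm_nonneg _) h2

theorem lip_aux (h1 : ‖(1 : E)‖ ≤ 1) {g h : E} (hg : ‖g - 1‖ ≤ ((ℓ : ℝ)⁻¹) ^ 2)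
    (hh : ‖h - 1‖ ≤ ((ℓ : ℝ)⁻¹) ^ 2) (n : ℕ) :
    ‖g ^ n - h ^ n - (n : ℚ_[ℓ]) • (g - h)‖ ≤ ((ℓ : ℝ)⁻¹) ^ 2 * ‖g - h‖ := by
  have hq := q_pos (ℓ := ℓ)
  have hq1 := q_lt (ℓ := ℓ)
  have hq2 : ((ℓ : ℝ)⁻¹) ^ 2 ≤ 1 := pow_le_one₀ hq.le hq1.le
  induction n with
  | zero => simp; positivity
  | succ n ih =>
    have h2 : ‖g ^ n - h ^ n‖ ≤ ‖g - h‖ := by
      have e2 : g ^ n - h ^ n = (g ^ n - h ^ n - (n : ℚ_[ℓ]) • (g - h)) +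
          (n : ℚ_[ℓ]) • (g - h) := by abel
      rw [e2]
      refine (norm_add_max _ _).trans (max_le (ih.trans ?_) (norm_nat_le n _))
      exact mul_le_of_le_one_left (norm_nonneg _) hq2
    have e1 : g ^ (n + 1) - h ^ (n + 1) - ((n + 1 : ℕ) : ℚ_[ℓ]) • (g - h) =
        ((g ^ n - 1) * (g - h) + (g ^ n - h ^ n) * (h - 1)) +
          (g ^ n - h ^ n - (n : ℚ_[ℓ]) • (g - h)) := by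
      rw [pow_succ, pow_succ]
      push_cast
      rw [add_smul, one_smul]
      simp only [mul_sub, mul_one, sub_mul, one_mul]
      abel
    rw [e1]
    refine (norm_add_max _ _).trans (max_le ((norm_add_max _ _).trans (max_le ?_ ?_)) ih)
    · refine (norm_mul_le _ _).trans ?_
      exact mul_le_mul_of_nonneg_right (pow_sub_one h1 hg n) (norm_nonneg _)
    · refine (norm_mul_le _ _).trans ?_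
      rw [mul_comm]
      exact mul_le_mul hh h2 (norm_nonneg _) (by positivity)

theorem lip_pow (h1 : ‖(1 : E)‖ ≤ 1) {g h : E} (hg : ‖g - 1‖ ≤ ((ℓ : ℝ)⁻¹) ^ 2)
    (hh : ‖h - 1‖ ≤ ((ℓ : ℝ)⁻¹) ^ 2) : ‖g ^ ℓ - h ^ ℓ‖ ≤ (ℓ : ℝ)⁻¹ * ‖g - h‖ := by
  have hq := q_pos (ℓ := ℓ)
  have hq1 := q_lt (ℓ := ℓ)
  have hq2 : ((ℓ : ℝ)⁻¹) ^ 2 ≤ (ℓ : ℝ)⁻¹ := by nlinarith
  have e2 : g ^ ℓ - h ^ ℓ = (g ^ ℓ - h ^ ℓ - (ℓ : ℚ_[ℓ]) • (g - h)) +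
      (ℓ : ℚ_[ℓ]) • (g - h) := by abel
  rw [e2]
  refine (norm_add_max _ _).trans (max_le ((lip_aux h1 hg hh ℓ).trans ?_) ?_)
  · exact mul_le_mul_of_nonneg_right hq2 (norm_nonneg _)
  · rw [norm_smul, Padic.norm_p]

theorem lip_iter (h1 : ‖(1 : E)‖ ≤ 1) {g h : E} (hg : ‖g - 1‖ ≤ ((ℓ : ℝ)⁻¹) ^ 2)
    (hh : ‖h - 1‖ ≤ ((ℓ : ℝ)⁻¹) ^ 2) (k : ℕ) :
    ‖g ^ (ℓ ^ k) - h ^ (ℓ ^ k)‖ ≤ ((ℓ : ℝ)⁻¹) ^ k * ‖g - h‖ := by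
  have hq := q_pos (ℓ := ℓ)
  induction k with
  | zero => simp
  | succ k ih =>
    have h3 := lip_pow (ℓ := ℓ) h1 (pow_sub_one h1 hg (ℓ ^ k)) (pow_sub_one h1 hh (ℓ ^ k))
    rw [← pow_mul, ← pow_mul, ← pow_succ] at h3
    refine h3.trans ?_
    rw [pow_succ ((ℓ : ℝ)⁻¹), mul_comm (((ℓ : ℝ)⁻¹) ^ k), mul_assoc]
    exact mul_le_mul_of_nonneg_left ih hq.le

theorem log_lip (h1 : ‖(1 : E)‖ ≤ 1) {g h X Y : E} (hg : ‖g - 1‖ ≤ ((ℓ : ℝ)⁻¹) ^ 2)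
    (hh : ‖h - 1‖ ≤ ((ℓ : ℝ)⁻¹) ^ 2) (hX : IsLog ℓ g X) (hY : IsLog ℓ h Y) :
    ‖X - Y‖ ≤ ‖g - h‖ := by
  have hq := q_pos (ℓ := ℓ)
  have h3 := (Tendsto.sub hX hY).norm
  refine le_of_tendsto' h3 (fun k => ?_)
  have e1 : (((ℓ : ℚ_[ℓ]) ^ k)⁻¹) • (g ^ (ℓ ^ k) - 1) - (((ℓ : ℚ_[ℓ]) ^ k)⁻¹) • (h ^ (ℓ ^ k) - 1) =
      (((ℓ : ℚ_[ℓ]) ^ k)⁻¹) • (g ^ (ℓ ^ k) - h ^ (ℓ ^ k)) := by
    rw [← smul_sub]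
    congr 1
    abel
  rw [e1, norm_smul, norm_inv, norm_pow, Padic.norm_p]
  have hqk : 0 < ((ℓ : ℝ)⁻¹) ^ k := pow_pos hq k
  calc (((ℓ : ℝ)⁻¹) ^ k)⁻¹ * ‖g ^ (ℓ ^ k) - h ^ (ℓ ^ k)‖
      ≤ (((ℓ : ℝ)⁻¹) ^ k)⁻¹ * (((ℓ : ℝ)⁻¹) ^ k * ‖g - h‖) :=
        mul_le_mul_of_nonneg_left (lip_iter h1 hg hh k) (by positivity)
    _ = ‖g - h‖ := by rw [← mul_assoc, inv_mul_cancel₀ hqk.ne', one_mul]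

/-- approximation of a tangent vector by logarithms -/
theorem approx [CompleteSpace E] (h1 : ‖(1 : E)‖ ≤ 1) {Γ : Type} [Group Γ] {φ : Γ →* E} {k₀ : ℕ}
    (hk : 2 ≤ k₀)
    (hroot : ∀ k ≥ k₀, ∀ η : Γ, ‖φ η - 1‖ ≤ ((ℓ : ℝ)⁻¹) ^ (k + 1) →
      ∃ γ : Γ, ‖φ γ - 1‖ ≤ ((ℓ : ℝ)⁻¹) ^ k ∧ φ γ ^ ℓ = φ η) {X : E} (hX : Tan ℓ φ X) {m : ℕ}
    (hm : ((ℓ : ℝ)⁻¹) ^ m * ‖X‖ ≤ ((ℓ : ℝ)⁻¹) ^ k₀) {δ : ℝ} (hδ : 0 < δ) :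
    ∃ (g : Γ) (Z : E), ‖φ g - 1‖ ≤ ((ℓ : ℝ)⁻¹) ^ k₀ ∧ IsLog ℓ (φ g) Z ∧
      ‖Z - ((ℓ : ℚ_[ℓ]) ^ m) • X‖ ≤ δ := by
  have hq := q_pos (ℓ := ℓ)
  have hq1 := q_lt (ℓ := ℓ)
  have hl0 : (ℓ : ℝ) ≠ 0 := by exact_mod_cast (Fact.out : ℓ.Prime).ne_zero
  have hqk : 0 < ((ℓ : ℝ)⁻¹) ^ k₀ := pow_pos hq k₀
  have hqm : 0 < ((ℓ : ℝ)⁻¹) ^ m := pow_pos hq m
  have hqm1 : ((ℓ : ℝ)⁻¹) ^ m ≤ 1 := pow_le_one₀ hq.le hq1.le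
  have hk2 : ((ℓ : ℝ)⁻¹) ^ k₀ ≤ ((ℓ : ℝ)⁻¹) ^ 2 := pow_le_pow_of_le_one hq.le hq1.le hk
  obtain ⟨ε, hε⟩ : ∃ ε, ε = min δ (((ℓ : ℝ)⁻¹) ^ k₀) := ⟨_, rfl⟩
  have hε0 : 0 < ε := by rw [hε]; exact lt_min hδ hqk
  have hε1 : ε ≤ δ := by rw [hε]; exact min_le_left _ _
  have hε2 : ε ≤ ((ℓ : ℝ)⁻¹) ^ k₀ := by rw [hε]; exact min_le_right _ _
  obtain ⟨m₀, hm₀⟩ := hX ε hε0
  obtain ⟨i₀, hi₀⟩ := ev_small (ℓ := ℓ) 1 δ hδ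
  obtain ⟨i, hi⟩ : ∃ i, i = max m₀ i₀ := ⟨_, rfl⟩
  have hi1 : m₀ ≤ i := by rw [hi]; exact le_max_left _ _
  have hi2 := hi₀ i (by rw [hi]; exact le_max_right _ _)
  rw [one_mul] at hi2
  have hqi : 0 < ((ℓ : ℝ)⁻¹) ^ i := pow_pos hq i
  obtain ⟨γ, hγ⟩ := hm₀ (m + i) (by omega)
  have hγ1 : ‖φ γ - 1‖ ≤ ((ℓ : ℝ)⁻¹) ^ (k₀ + i) := by
    have e1 : φ γ - 1 = (φ γ - 1 - ((ℓ : ℚ_[ℓ]) ^ (m + i)) • X) +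
        ((ℓ : ℚ_[ℓ]) ^ (m + i)) • X := by abel
    rw [e1]
    refine (norm_add_max _ _).trans (max_le (hγ.trans ?_) ?_)
    · rw [pow_add, pow_add, ← mul_assoc]
      refine mul_le_mul_of_nonneg_right ?_ hqi.le
      exact (mul_le_of_le_one_right hε0.le hqm1).trans hε2
    · rw [norm_pow_smul, pow_add, pow_add]
      calc ((ℓ : ℝ)⁻¹) ^ m * ((ℓ : ℝ)⁻¹) ^ i * ‖X‖ = (((ℓ : ℝ)⁻¹) ^ m * ‖X‖) * ((ℓ : ℝ)⁻¹) ^ i := by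
            ring
        _ ≤ ((ℓ : ℝ)⁻¹) ^ k₀ * ((ℓ : ℝ)⁻¹) ^ i := mul_le_mul_of_nonneg_right hm hqi.le
  obtain ⟨g, hg1, hg2⟩ := roots hroot i γ hγ1
  obtain ⟨Z, hZ⟩ := exists_log h1 (hg1.trans hk2)
  refine ⟨g, Z, hg1, hZ, ?_⟩
  have h2 := log_pow hZ i
  rw [hg2] at h2
  have hγ2 : ‖φ γ - 1‖ ≤ ((ℓ : ℝ)⁻¹) ^ 2 :=
    hγ1.trans (pow_le_pow_of_le_one hq.le hq1.le (by omega))
  have h3 := log_near h1 hγ2 h2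
  have h4 : (ℓ : ℝ) * ‖φ γ - 1‖ ^ 2 ≤ ((ℓ : ℝ)⁻¹) ^ i * δ := by
    have h5 : ‖φ γ - 1‖ ^ 2 ≤ (((ℓ : ℝ)⁻¹) ^ (k₀ + i)) ^ 2 :=
      pow_le_pow_left₀ (norm_nonneg _) hγ1 2
    have h6 : (((ℓ : ℝ)⁻¹) ^ (k₀ + i)) ^ 2 ≤ (ℓ : ℝ)⁻¹ * (((ℓ : ℝ)⁻¹) ^ i * ((ℓ : ℝ)⁻¹) ^ i) := by
      rw [← pow_mul, ← pow_add, ← pow_succ']
      exact pow_le_pow_of_le_one hq.le hq1.le (by omega)
    calc (ℓ : ℝ) * ‖φ γ - 1‖ ^ 2 ≤ (ℓ : ℝ) * ((ℓ : ℝ)⁻¹ * (((ℓ : ℝ)⁻¹) ^ i * ((ℓ : ℝ)⁻¹) ^ i)) :=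
          mul_le_mul_of_nonneg_left (h5.trans h6) (Nat.cast_nonneg _)
      _ = ((ℓ : ℝ)⁻¹) ^ i * ((ℓ : ℝ)⁻¹) ^ i := by
          rw [← mul_assoc, mul_inv_cancel₀ hl0, one_mul]
      _ ≤ ((ℓ : ℝ)⁻¹) ^ i * δ := mul_le_mul_of_nonneg_left hi2 hqi.le
  have h5 : ((ℓ : ℝ)⁻¹) ^ i * ‖Z - ((ℓ : ℚ_[ℓ]) ^ m) • X‖ ≤ ((ℓ : ℝ)⁻¹) ^ i * δ := by
    rw [← norm_pow_smul]
    have e1 : ((ℓ : ℚ_[ℓ]) ^ i) • (Z - ((ℓ : ℚ_[ℓ]) ^ m) • X) =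
        (((ℓ : ℚ_[ℓ]) ^ i) • Z - (φ γ - 1)) + (φ γ - 1 - ((ℓ : ℚ_[ℓ]) ^ (m + i)) • X) := by
      rw [smul_sub, smul_smul, ← pow_add, add_comm i m]
      abel
    rw [e1]
    refine (norm_add_max _ _).trans (max_le (h3.trans h4) (hγ.trans ?_))
    rw [pow_add]
    calc ε * (((ℓ : ℝ)⁻¹) ^ m * ((ℓ : ℝ)⁻¹) ^ i) = ((ℓ : ℝ)⁻¹) ^ i * (ε * ((ℓ : ℝ)⁻¹) ^ m) := by
          ring
      _ ≤ ((ℓ : ℝ)⁻¹) ^ i * δ :=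
          mul_le_mul_of_nonneg_left ((mul_le_of_le_one_right hε0.le hqm1).trans hε1) hqi.le
  exact le_of_mul_le_mul_left h5 hqi

end ultra

end EXP

open EXP LOG TAN1 in
theorem t_EXP : S_EXP := by
  intro ℓ _ E _ _ _ _ h1 Γ _ _ _ φ hφ k₀ hk hroot X hX
  classical
  have hq := q_pos (ℓ := ℓ)
  have hq1 := q_lt (ℓ := ℓ)
  have hqk : 0 < ((ℓ : ℝ)⁻¹) ^ k₀ := pow_pos hq k₀
  have hk2 : ((ℓ : ℝ)⁻¹) ^ k₀ ≤ ((ℓ : ℝ)⁻¹) ^ 2 := pow_le_pow_of_le_one hq.le hq1.le hk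
  obtain ⟨m, hm⟩ := ev_small (ℓ := ℓ) ‖X‖ (((ℓ : ℝ)⁻¹) ^ k₀) hqk
  have hm' : ((ℓ : ℝ)⁻¹) ^ m * ‖X‖ ≤ ((ℓ : ℝ)⁻¹) ^ k₀ := by
    rw [mul_comm]
    exact hm m le_rfl
  obtain ⟨L, hL⟩ : ∃ L : E → E, ∀ g : E, ‖g - 1‖ ≤ ((ℓ : ℝ)⁻¹) ^ 2 → IsLog ℓ g (L g) := by
    refine ⟨fun g => if h : ‖g - 1‖ ≤ ((ℓ : ℝ)⁻¹) ^ 2 then (exists_log h1 h).choose else 0, ?_⟩
    intro g hg
    simp only [hg, dif_pos]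
    exact (exists_log h1 hg).choose_spec
  obtain ⟨S, hS⟩ : ∃ S : Set Γ, S = {g : Γ | ‖φ g - 1‖ ≤ ((ℓ : ℝ)⁻¹) ^ k₀} := ⟨_, rfl⟩
  have hSc : IsCompact S := by
    apply IsClosed.isCompact
    rw [hS]
    exact isClosed_le ((hφ.sub continuous_const).norm) continuous_const
  have hcont : ContinuousOn (fun g : Γ => L (φ g)) S := by
    have h2 : LipschitzOnWith 1 L {g : E | ‖g - 1‖ ≤ ((ℓ : ℝ)⁻¹) ^ 2} := by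
      apply LipschitzOnWith.mk_one
      intro g hg h hh
      rw [dist_eq_norm, dist_eq_norm]
      exact log_lip h1 hg hh (hL g hg) (hL h hh)
    refine h2.continuousOn.comp hφ.continuousOn ?_
    intro g hg
    rw [hS] at hg
    exact le_trans hg hk2
  have hK : IsClosed ((fun g : Γ => L (φ g)) '' S) := (hSc.image_of_continuousOn hcont).isClosed
  have hmem : ((ℓ : ℚ_[ℓ]) ^ m) • X ∈ closure ((fun g : Γ => L (φ g)) '' S) := by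
    rw [Metric.mem_closure_iff]
    intro ε hε
    obtain ⟨g, Z, hg1, hZ, hg2⟩ := approx h1 hk hroot hX hm' (δ := ε / 2) (by linarith)
    have hg3 : ‖φ g - 1‖ ≤ ((ℓ : ℝ)⁻¹) ^ 2 := hg1.trans hk2
    have h3 : L (φ g) = Z := tendsto_nhds_unique (hL _ hg3) hZ
    refine ⟨Z, ⟨g, ?_, h3⟩, ?_⟩
    · rw [hS]; exact hg1
    · rw [dist_comm, dist_eq_norm]
      linarith
  rw [hK.closure_eq] at hmem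
  obtain ⟨g, hg1, hg2⟩ := hmem
  rw [hS] at hg1
  have hg3 : ‖φ g - 1‖ ≤ ((ℓ : ℝ)⁻¹) ^ 2 := le_trans hg1 hk2
  refine ⟨m, g, hg3, ?_⟩
  have h4 := hL _ hg3
  simp only at hg2
  rwa [hg2] at h4

end Pool.Agent.Helper49P
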