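import Pool.Agent.Helper49P.Stm2

/-!
# An element of the Lie algebra with as many independent eigenvalues as the rank

The statement `Pool.Agent.Helper49P.S_GX`.
-/

set_option autoImplicit false

namespace Pool.Agent.Helper49P

namespace GXW

open Module TensorProduct Polynomial Pool.Agent.Y114.RM Pool.Agent.R913.Adj Pool.Agent.Y809.RM

section la

variable {C : Type} [Field C] [CharZero C] [IsAlgClosed C] {E : Type} [AddCommGroup E] [Module C E]
  [FiniteDimensional C E]

omit [CharZero C] in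
/-- common eigenvectors -/
theorem common {X Y : End C E} (h : X * Y = Y * X) {u : C} {v : E} (hv : v ≠ 0)
    (hX : X v = u • v) : ∃ w : E, ∃ y : C, w ≠ 0 ∧ X w = u • w ∧ Y w = y • w := by
  have hst : ∀ w ∈ X.eigenspace u, Y w ∈ X.eigenspace u := by
    intro w hw
    rw [Module.End.mem_eigenspace_iff] at hw ⊢
    rw [← Module.End.mul_apply, h, Module.End.mul_apply, hw, map_smul]
  have hvm : v ∈ X.eigenspace u := Module.End.mem_eigenspace_iff.2 hX
  have hnt : Nontrivial (X.eigenspace u) :=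
    ⟨⟨v, hvm⟩, 0, fun h0 => hv (congrArg Subtype.val h0)⟩
  obtain ⟨y, hy⟩ := Module.End.exists_eigenvalue (Y.restrict hst)
  obtain ⟨w, hw⟩ := hy.exists_hasEigenvector
  refine ⟨w.1, y, fun h0 => hw.2 (Subtype.ext h0), Module.End.mem_eigenspace_iff.1 w.2, ?_⟩
  have h1 := hw.apply_eq_smul
  exact congrArg Subtype.val h1

omit [CharZero C] in
/-- only the eigenvalue zero -/
theorem nil_of_eig (N : End C E) (h : ∀ (c : C) (v : E), v ≠ 0 → N v = c • v → c = 0) :
    IsNilpotent N := by
  have hev : ∀ β, N.maxGenEigenspace β ≠ ⊥ → β = 0 := by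
    intro β hβ
    have h1 : N.HasUnifEigenvalue β ⊤ := hβ
    have h2 : N.HasEigenvalue β :=
      (Module.End.hasUnifEigenvalue_iff_hasUnifEigenvalue_one (by simp)).1 h1
    obtain ⟨w, hw⟩ := h2.exists_hasEigenvector
    exact h β w hw.2 hw.apply_eq_smul
  have htop : N.maxGenEigenspace 0 = ⊤ := by
    rw [eq_top_iff, ← Module.End.iSup_maxGenEigenspace_eq_top N]
    refine iSup_le fun β => ?_
    by_cases hβ : N.maxGenEigenspace β = ⊥
    · rw [hβ]
      exact bot_le
    · rw [hev β hβ]
  refine ⟨finrank C E, LinearMap.ext fun v => ?_⟩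
  have h4 : v ∈ N.genEigenspace 0 (finrank C E) := by
    rw [← Module.End.maxGenEigenspace_eq_genEigenspace_finrank, htop]
    exact Submodule.mem_top
  rw [Module.End.mem_genEigenspace_nat, LinearMap.mem_ker, zero_smul, sub_zero] at h4
  exact h4

omit [CharZero C] [IsAlgClosed C] [FiniteDimensional C E] in
theorem tr_nil {N T : End C E} (hN : IsNilpotent N) (h : N * T = T * N) :
    LinearMap.trace C E (N * T) = 0 := by
  have hc : Commute N T := h
  exact (LinearMap.isNilpotent_trace_of_isNilpotent (hc.isNilpotent_mul_right hN)).eq_zero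

omit [CharZero C] [IsAlgClosed C] [FiniteDimensional C E] in
/-- equality on a space spanned by eigenvectors -/
theorem ext_diag {F : Type} [AddCommGroup F] [Module C F] {X : End C E}
    (hd : ⨆ μ, X.eigenspace μ = ⊤) {S T : E →ₗ[C] F}
    (h : ∀ (u : C) (v : E), X v = u • v → S v = T v) : S = T := by
  refine LinearMap.ext fun v => ?_
  have hv : v ∈ ⨆ μ, X.eigenspace μ := by
    rw [hd]
    exact Submodule.mem_top
  induction hv using Submodule.iSup_induction' with
  | mem β x hx => exact h β x (Module.End.mem_eigenspace_iff.1 hx)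
  | zero => simp only [map_zero]
  | add x y _ _ hx hy => rw [map_add, map_add, hx, hy]

omit [CharZero C] [IsAlgClosed C] [FiniteDimensional C E] in
theorem rep_apply {f : C →+ C} {X s : End C E} (hs : IsRep f X s) {u : C} {v : E}
    (hv : X v = u • v) : s v = f u • v :=
  hs u v (Module.End.eigenspace_le_maxGenEigenspace (Module.End.mem_eigenspace_iff.2 hv))

theorem rep_comm {f : C →+ C} {X s T : End C E} (h : T * X = X * T) (hs : IsRep f X s) :
    T * s = s * T :=
  LinearMap.ext fun x => rep_nat (A := T) (fun y => LinearMap.congr_fun h y) hs hs x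

/-- the eigenvalue of `A` on common eigenvectors is `f` of the eigenvalue of `X` -/
def Ev (X A : End C E) (f : C →+ C) : Prop :=
  ∀ (u y : C) (v : E), v ≠ 0 → X v = u • v → A v = y • v → y = f u

theorem nil_part {X A : End C E} (hXA : X * A = A * X) {f : C →+ C} (hf : Ev X A f)
    {s : End C E} (hs : IsRep f X s) : IsNilpotent (A - s) := by
  refine nil_of_eig _ fun c v hv hc => ?_
  have hsX : X * s = s * X := rep_comm rfl hs
  have hN : (A - s) * X = X * (A - s) := by rw [sub_mul, mul_sub, hXA, hsX]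
  obtain ⟨w, u, hw, h1, h2⟩ := common hN hv hc
  have h3 : s w = f u • w := rep_apply hs h2
  have h4 : A w = (c + f u) • w := by
    rw [LinearMap.sub_apply, h3] at h1
    rw [add_smul, ← h1, sub_add_cancel]
  have h5 := hf u _ w hw h2 h4
  exact add_eq_right.1 h5

theorem nil_add {X A B : End C E} (hd : ⨆ μ, X.eigenspace μ = ⊤) (hXA : X * A = A * X)
    (hXB : X * B = B * X) {f g h : C →+ C} (hf : Ev X A f) (hg : Ev X B g) (hh : Ev X (A + B) h)
    {s t r : End C E} (hs : IsRep f X s) (ht : IsRep g X t) (hr : IsRep h X r) :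
    (A - s) + (B - t) = (A + B) - r := by
  have hXAB : X * (A + B) = (A + B) * X := by rw [mul_add, add_mul, hXA, hXB]
  have hsX : X * s = s * X := rep_comm rfl hs
  have htX : X * t = t * X := rep_comm rfl ht
  have hrX : X * r = r * X := rep_comm rfl hr
  have hc1 : (A - s) * X = X * (A - s) := by rw [sub_mul, mul_sub, hXA, hsX]
  have hc2 : (B - t) * X = X * (B - t) := by rw [sub_mul, mul_sub, hXB, htX]
  have hc3 : (A + B - r) * X = X * (A + B - r) := by rw [sub_mul, mul_sub, hXAB, hrX]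
  have hd1 : ∀ T : End C E, T * X = X * T → T * (r - s - t) = (r - s - t) * T := by
    intro T hT
    rw [mul_sub, mul_sub, sub_mul, sub_mul, rep_comm hT hs, rep_comm hT ht, rep_comm hT hr]
  have hnil : IsNilpotent (r - s - t) := by
    refine Pool.Agent.R913.Adj.nilpotent_of_traces _ fun φ q hq => ?_
    have hq' : IsRep φ (r - s - t) q := hq
    have e1 : (r - s - t) * q = (A - s) * q + (B - t) * q - (A + B - r) * q := by
      rw [← add_mul, ← sub_mul]
      congr 1
      abel
    rw [e1, map_sub, map_add, tr_nil (nil_part hXA hf hs) (rep_comm (hd1 _ hc1) hq'),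
      tr_nil (nil_part hXB hg ht) (rep_comm (hd1 _ hc2) hq'),
      tr_nil (nil_part hXAB hh hr) (rep_comm (hd1 _ hc3) hq'), add_zero, sub_zero]
  have hz : r - s - t = 0 := by
    obtain ⟨n, hn⟩ := hnil
    refine ext_diag hd fun u v hv => ?_
    have h1 : (r - s - t) v = (h u - f u - g u) • v := by
      rw [LinearMap.sub_apply, LinearMap.sub_apply, rep_apply hr hv, rep_apply hs hv,
        rep_apply ht hv, sub_smul, sub_smul]
    have h2 : ∀ m : ℕ, ((r - s - t) ^ m) v = (h u - f u - g u) ^ m • v := by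
      intro m
      induction m with
      | zero => rw [pow_zero, pow_zero, Module.End.one_apply, one_smul]
      | succ m ih => rw [pow_succ', Module.End.mul_apply, ih, map_smul, h1, smul_smul, pow_succ]
    have h3 := h2 n
    rw [hn, LinearMap.zero_apply] at h3
    rw [h1, LinearMap.zero_apply]
    rcases smul_eq_zero.1 h3.symm with h4 | h4
    · by_cases h5 : h u - f u - g u = 0
      · rw [h5, zero_smul]
      · exact absurd h4 (pow_ne_zero n h5)
    · rw [h4, smul_zero]
  have e2 : (A - s) + (B - t) = (A + B - r) + (r - s - t) := by abel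
  rw [e2, hz, add_zero]

theorem tr_nn {X A B : End C E} (hd : ⨆ μ, X.eigenspace μ = ⊤) (hXA : X * A = A * X)
    (hXB : X * B = B * X) {f g h : C →+ C} (hf : Ev X A f) (hg : Ev X B g) (hh : Ev X (A + B) h)
    {s : End C E} (hs : IsRep f X s) : LinearMap.trace C E ((A - s) * B) = 0 := by
  obtain ⟨t, ht⟩ := exists_rep g X
  obtain ⟨r, hr⟩ := exists_rep h X
  have hXAB : X * (A + B) = (A + B) * X := by rw [mul_add, add_mul, hXA, hXB]
  have hsX : X * s = s * X := rep_comm rfl hs
  have hc1 : (A - s) * X = X * (A - s) := by rw [sub_mul, mul_sub, hXA, hsX]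
  have h1 := nil_add hd hXA hXB hf hg hh hs ht hr
  have n1 := nil_part hXA hf hs
  have n2 := nil_part hXB hg ht
  have n3 := nil_part hXAB hh hr
  rw [← h1] at n3
  have t1 := tr_nil n1 rfl
  have t2 := tr_nil n2 rfl
  have t3 := tr_nil n3 rfl
  have e1 : ((A - s) + (B - t)) * ((A - s) + (B - t)) =
      (A - s) * (A - s) + (B - t) * (B - t) + ((A - s) * (B - t) + (B - t) * (A - s)) := by
    rw [add_mul, mul_add, mul_add]
    abel
  rw [e1, map_add, map_add, t1, t2, map_add, LinearMap.trace_mul_comm C (B - t) (A - s), add_zero,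
    zero_add, ← two_mul] at t3
  have t4 := (mul_eq_zero.1 t3).resolve_left two_ne_zero
  have t5 := tr_nil n1 (rep_comm hc1 ht)
  have e2 : (A - s) * B = (A - s) * (B - t) + (A - s) * t := by
    rw [← mul_add, sub_add_cancel]
  rw [e2, map_add, t4, t5, add_zero]

theorem tr_eq {X A B : End C E} (hd : ⨆ μ, X.eigenspace μ = ⊤) (hXA : X * A = A * X)
    (hXB : X * B = B * X) {f g h : C →+ C} (hf : Ev X A f) (hg : Ev X B g) (hh : Ev X (A + B) h)
    {s : End C E} (hs : IsRep f X s) :
    LinearMap.trace C E (A * B) = LinearMap.trace C E (s * B) := by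
  have h1 := tr_nn hd hXA hXB hf hg hh hs
  rw [sub_mul, map_sub] at h1
  exact sub_eq_zero.1 h1

omit [IsAlgClosed C] in
theorem eq_rep (hcen : S_CEN) {L : Submodule C (End C E)} (hLie : IsLie L) (hND : NonDeg L)
    {X A s : End C E} (hX : X ∈ L) (hd : ⨆ μ, X.eigenspace μ = ⊤) (hA : A ∈ L) (hs : s ∈ L)
    (hXA : X * A = A * X) (hXs : X * s = s * X)
    (h : ∀ B ∈ L, X * B = B * X → LinearMap.trace C E (A * B) = LinearMap.trace C E (s * B)) :
    A = s := by
  rw [← sub_eq_zero]
  refine hcen C E L hLie hND X hX hd _ (L.sub_mem hA hs) (by rw [mul_sub, sub_mul, hXA, hXs]) ?_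
  intro B hB hXB
  rw [sub_mul, map_sub, h B hB hXB, sub_self]

omit [CharZero C] [IsAlgClosed C] [FiniteDimensional C E] in
theorem finrank_le_of {S : Submodule C (End C E)} {n : ℕ} (v : Fin n → E)
    (ξ : Fin n → E →ₗ[C] C) (h : ∀ B ∈ S, (∀ j, ξ j (B (v j)) = 0) → B = 0) :
    finrank C S ≤ n := by
  let Φ : S →ₗ[C] (Fin n → C) := LinearMap.pi fun j =>
    ξ j ∘ₗ LinearMap.applyₗ (v j) ∘ₗ S.subtype
  have hΦ : Function.Injective Φ := by
    rw [← LinearMap.ker_eq_bot, LinearMap.ker_eq_bot']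
    intro B hB
    exact Subtype.ext (h B.1 B.2 fun j => congrFun hB j)
  have h6 := LinearMap.finrank_le_finrank_of_injective hΦ
  rwa [Module.finrank_fin_fun] at h6

end la

section main

variable {k : Type} [Field k] {C : Type} [Field C] [IsAlgClosed C]
  [Algebra k C] {V : Type} [AddCommGroup V] [Module k V] [FiniteDimensional k V]

variable (C) in
/-- an element of `L` with `n` independent eigenvalues -/
def Pn (L : Submodule k (End k V)) (n : ℕ) : Prop :=
  ∃ X ∈ L, ∃ x : Fin n → C, (∀ j, aeval (x j) X.charpoly = 0) ∧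
    ∀ e : Fin n → ℤ, ∑ j, e j • x j = 0 → e = 0

omit [IsAlgClosed C] in
theorem root_iff (Y : End k V) (c : C) : aeval c Y.charpoly = 0 ↔
    ∃ v : C ⊗[k] V, v ≠ 0 ∧ Y.baseChange C v = c • v := by
  have h1 : aeval c Y.charpoly = 0 ↔
      Module.End.HasEigenvalue (Y.baseChange C : End C (C ⊗[k] V)) c := by
    rw [Module.End.hasEigenvalue_iff_isRoot_charpoly, LinearMap.charpoly_baseChange,
      Polynomial.IsRoot, Polynomial.eval_map, Polynomial.aeval_def]
  rw [h1]
  constructor
  · intro h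
    obtain ⟨v, hv⟩ := h.exists_hasEigenvector
    exact ⟨v, hv.2, hv.apply_eq_smul⟩
  · rintro ⟨v, hv, h⟩
    exact Module.End.hasEigenvalue_of_hasEigenvector ⟨Module.End.mem_eigenspace_iff.2 h, hv⟩

omit [IsAlgClosed C] in
theorem rel [Uncountable k] (pig : S_PIG) {L : Submodule k (End k V)} {n : ℕ}
    (hmax : ¬ Pn C L (n + 1)) {X Y : End k V} (hX : X ∈ L) (hY : Y ∈ L) {x y : Fin n → C}
    {w : Fin n → C ⊗[k] V} (hw : ∀ j, w j ≠ 0) (hXw : ∀ j, X.baseChange C (w j) = x j • w j)
    (hYw : ∀ j, Y.baseChange C (w j) = y j • w j)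
    (hx : ∀ e : Fin n → ℤ, ∑ j, e j • x j = 0 → e = 0) {u z : C} {v : C ⊗[k] V} (hv : v ≠ 0)
    (hXv : X.baseChange C v = u • v) (hYv : Y.baseChange C v = z • v) :
    ∃ (e : Fin n → ℤ) (e' : ℤ), e' ≠ 0 ∧ ∑ j, e j • x j + e' • u = 0 ∧
      ∑ j, e j • y j + e' • z = 0 := by
  have ev : ∀ (t : k) (a b : C) (q : C ⊗[k] V), X.baseChange C q = a • q →
      Y.baseChange C q = b • q →
      (X + t • Y).baseChange C q = (a + algebraMap k C t * b) • q := by
    intro t a b q h1 h2
    rw [BC.bc_add, BC.bc_smul, LinearMap.add_apply, LinearMap.smul_apply, h1, h2, smul_smul,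
      add_smul]
  refine pig k C n x y u z hx fun t => ?_
  by_contra hcon
  push Not at hcon
  apply hmax
  refine ⟨X + t • Y, L.add_mem hX (L.smul_mem t hY),
    Fin.snoc (α := fun _ => C) (fun j => x j + algebraMap k C t * y j)
      (u + algebraMap k C t * z), ?_, ?_⟩
  · intro j
    refine (root_iff _ _).2 ?_
    refine Fin.lastCases ?_ (fun i => ?_) j
    · refine ⟨v, hv, ?_⟩
      rw [Fin.snoc_last]
      exact ev t u z v hXv hYv
    · refine ⟨w i, hw i, ?_⟩
      rw [Fin.snoc_castSucc]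
      exact ev t _ _ _ (hXw i) (hYw i)
  · intro e he
    rw [Fin.sum_univ_castSucc] at he
    simp only [Fin.snoc_castSucc, Fin.snoc_last] at he
    by_contra hne
    refine hcon (fun j => e j.castSucc) (e (Fin.last n)) ?_ he
    by_contra h2
    push Not at h2
    apply hne
    funext j
    refine Fin.lastCases ?_ (fun i => ?_) j
    · exact h2.2
    · exact congrFun h2.1 i

omit [IsAlgClosed C] in
theorem exists_f [CharZero C] {n : ℕ} {x : Fin n → C}
    (hx : ∀ e : Fin n → ℤ, ∑ j, e j • x j = 0 → e = 0) (y : Fin n → C) :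
    ∃ f : C →+ C, ∀ j, f (x j) = y j := by
  have h1 : LinearIndependent ℤ x :=
    Fintype.linearIndependent_iff.2 fun g hg i => congrFun (hx g hg) i
  have h2 : LinearIndependent ℚ x := (LinearIndependent.iff_fractionRing ℤ ℚ).1 h1
  obtain ⟨f, hf⟩ := LinearMap.exists_extend ((Finsupp.linearCombination ℚ y) ∘ₗ h2.repr)
  refine ⟨f.toAddMonoidHom, fun j => ?_⟩
  have h3 := LinearMap.congr_fun hf ⟨x j, Submodule.subset_span ⟨j, rfl⟩⟩
  have h4 : h2.repr ⟨x j, Submodule.subset_span ⟨j, rfl⟩⟩ = Finsupp.single j 1 :=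
    h2.repr_eq_single j _ rfl
  rw [LinearMap.comp_apply, LinearMap.comp_apply, h4, Finsupp.linearCombination_single,
    one_smul] at h3
  exact h3

omit [IsAlgClosed C] [FiniteDimensional k V] in
/-- commuting after base change -/
theorem comm_bc {X Y : End k V} (h : X * Y = Y * X) :
    X.baseChange C * Y.baseChange C = Y.baseChange C * X.baseChange C := by
  rw [← LinearMap.baseChange_mul, h, LinearMap.baseChange_mul]

theorem exists_ev [CharZero C] [Uncountable k] (pig : S_PIG) {L : Submodule k (End k V)} {n : ℕ}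
    (hmax : ¬ Pn C L (n + 1)) {X Y : End k V} (hX : X ∈ L) (hY : Y ∈ cen L X) {x : Fin n → C}
    {w0 : Fin n → C ⊗[k] V} (hw0 : ∀ j, w0 j ≠ 0)
    (hXw0 : ∀ j, X.baseChange C (w0 j) = x j • w0 j)
    (hx : ∀ e : Fin n → ℤ, ∑ j, e j • x j = 0 → e = 0) :
    ∃ f : C →+ C, Ev (X.baseChange C) (Y.baseChange C) f := by
  have hc := comm_bc (C := C) hY.2
  choose w y hw hXw hYw using fun j => common hc (hw0 j) (hXw0 j)
  obtain ⟨f, hf⟩ := exists_f hx y
  refine ⟨f, fun u z v hv h1 h2 => ?_⟩
  obtain ⟨e, e', he', r1, r2⟩ := rel pig hmax hX hY.1 hw hXw hYw hx hv h1 h2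
  have h3 := congrArg f r1
  rw [map_add, map_sum, map_zero, map_zsmul] at h3
  have h4 : ∑ j, f (e j • x j) = ∑ j, e j • y j :=
    Finset.sum_congr rfl fun j _ => by rw [map_zsmul, hf]
  rw [h4, ← r2, add_right_inj] at h3
  exact (zsmul_right_injective he' h3).symm

end main

section core

variable {k : Type} [Field k] [CharZero k] {C : Type} [Field C] [CharZero C] [IsAlgClosed C]
  [Algebra k C] {V : Type} [AddCommGroup V] [Module k V] [FiniteDimensional k V]

theorem s_mem {L : Submodule k (End k V)}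
    (hcl : ∀ X, (∀ (m : ℕ) (φ : Tensor k V m), (∀ Y ∈ L, KillsTensor Y φ) → KillsTensor X φ) →
      X ∈ L) {X s : End k V} (hX : X ∈ L)
    (hs : ∀ (β : C), ∀ v ∈ End.maxGenEigenspace (X.baseChange C) β, s.baseChange C v = β • v) :
    s ∈ L := by
  have h1 : IsRep (AddMonoidHom.id C) (X.baseChange C) (s.baseChange C) := hs
  have h2 := rep_mem hcl (AddMonoidHom.id C) (BC.bc_mem hX) h1
  obtain ⟨π, hπ⟩ := Module.Projective.exists_dual_ne_zero k (one_ne_zero (α := C))
  have h3 := (BC.mem_bcS L _).1 h2 π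
  rw [BC.pM_bc] at h3
  exact (L.smul_mem_iff hπ).1 h3

theorem core [Uncountable k] (pig : S_PIG) (sem : S_SEM) (hcen : S_CEN)
    {L : Submodule k (End k V)}
    (hcl : ∀ X, (∀ (m : ℕ) (φ : Tensor k V m), (∀ Y ∈ L, KillsTensor Y φ) → KillsTensor X φ) →
      X ∈ L) (hLie : IsLie L) (hND : NonDeg L) {n : ℕ} (hP : Pn C L n)
    (hmax : ¬ Pn C L (n + 1)) : ∃ X ∈ L, finrank k (cen L X) ≤ n := by
  classical
  obtain ⟨X0, hX0, x, hx0, hx⟩ := hP
  obtain ⟨X, hd, hs⟩ := sem k C V X0
  have hXL : X ∈ L := s_mem hcl hX0 hs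
  have hw : ∀ j, ∃ v : C ⊗[k] V, v ≠ 0 ∧ X.baseChange C v = x j • v := by
    intro j
    obtain ⟨v, hv, h1⟩ := (root_iff X0 (x j)).1 (hx0 j)
    exact ⟨v, hv, hs _ v (Module.End.eigenspace_le_maxGenEigenspace
      (Module.End.mem_eigenspace_iff.2 h1))⟩
  choose v hv0 hv using hw
  refine ⟨X, hXL, ?_⟩
  have hev : ∀ Y ∈ cen L X, ∃ f : C →+ C, Ev (X.baseChange C) (Y.baseChange C) f := fun Y hY =>
    exists_ev pig hmax hXL hY hv0 hv hx
  have hbLie : IsLie (bcS C L) := (BC.bc k C V L).2.1 hLie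
  have hbND : NonDeg (bcS C L) := (BC.bc k C V L).2.2.1 hND
  have key : ∀ Y ∈ cen L X, ∃ f : C →+ C, ∀ (u : C) (w : C ⊗[k] V), X.baseChange C w = u • w →
      Y.baseChange C w = f u • w := by
    intro Y hY
    obtain ⟨f, hf⟩ := hev Y hY
    obtain ⟨s, hsr⟩ := exists_rep f (X.baseChange C)
    have hsL : s ∈ bcS C L := rep_mem hcl f (BC.bc_mem hXL) hsr
    have hXY := comm_bc (C := C) hY.2
    have hXs : X.baseChange C * s = s * X.baseChange C := rep_comm rfl hsr
    have hz : Y.baseChange C = s := by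
      refine eq_rep hcen hbLie hbND (BC.bc_mem hXL) hd (BC.bc_mem hY.1) hsL hXY hXs ?_
      intro B hB hXB
      have hB' : B ∈ bcS C (cen L X) := by
        rw [← BC.cen_bc]
        exact ⟨hB, hXB⟩
      refine Submodule.span_induction (p := fun B _ =>
        LinearMap.trace C (C ⊗[k] V) (Y.baseChange C * B) =
          LinearMap.trace C (C ⊗[k] V) (s * B)) ?_ ?_ ?_ ?_ hB'
      · rintro _ ⟨Z, hZ, rfl⟩
        obtain ⟨g, hg⟩ := hev Z hZ
        obtain ⟨h, hh⟩ := hev (Y + Z) ((cen L X).add_mem hY hZ)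
        rw [BC.bc_add] at hh
        exact tr_eq hd hXY (comm_bc (C := C) hZ.2) hf hg hh hsr
      · rw [mul_zero, mul_zero]
      · intro a b _ _ ha hb
        rw [mul_add, mul_add, map_add, map_add, ha, hb]
      · intro c a _ ha
        rw [mul_smul_comm, mul_smul_comm, map_smul, map_smul, ha]
    refine ⟨f, fun u w hw => ?_⟩
    rw [hz]
    exact rep_apply hsr hw
  -- the functionals
  have hξ : ∀ j, ∃ ξ : (C ⊗[k] V) →ₗ[C] C, ξ (v j) = 1 := by
    intro j
    obtain ⟨ξ, h1⟩ := Module.Projective.exists_dual_ne_zero C (hv0 j)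
    refine ⟨(ξ (v j))⁻¹ • ξ, ?_⟩
    rw [LinearMap.smul_apply, smul_eq_mul, inv_mul_cancel₀ h1]
  choose ξ hξ using hξ
  -- the relation
  have hrel : ∀ (u : C) (w : C ⊗[k] V), w ≠ 0 → X.baseChange C w = u • w →
      ∃ (e : Fin n → ℤ) (e' : ℤ), e' ≠ 0 ∧ ∑ j, e j • x j + e' • u = 0 := by
    intro u w hw hXw
    obtain ⟨e, e', he', h1, -⟩ := rel pig hmax hXL L.zero_mem hv0 hv (y := fun _ => 0)
      (fun j => by rw [LinearMap.baseChange_zero, LinearMap.zero_apply, zero_smul]) hx hw hXw
      (z := 0) (by rw [LinearMap.baseChange_zero, LinearMap.zero_apply, zero_smul])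
    exact ⟨e, e', he', h1⟩
  have hval : ∀ B ∈ bcS C (cen L X), (∀ j, ξ j (B (v j)) = 0) → B = 0 := by
    intro B hB hB0
    refine ext_diag hd fun u w hXw => ?_
    rw [LinearMap.zero_apply]
    by_cases hw : w = 0
    · rw [hw, map_zero]
    obtain ⟨e, e', he', h1⟩ := hrel u w hw hXw
    have h2 : (e' : C) • B w = -(∑ j, (e j : C) * ξ j (B (v j))) • w := by
      refine Submodule.span_induction (p := fun B _ =>
        (e' : C) • B w = -(∑ j, (e j : C) * ξ j (B (v j))) • w) ?_ ?_ ?_ ?_ hB
      · rintro _ ⟨Y, hY, rfl⟩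
        obtain ⟨f, hf⟩ := key Y hY
        rw [hf u w hXw]
        have h3 : ∀ j, ξ j (Y.baseChange C (v j)) = f (x j) := by
          intro j
          rw [hf _ _ (hv j), map_smul, hξ, smul_eq_mul, mul_one]
        have h4 := congrArg f h1
        rw [map_add, map_sum, map_zero, map_zsmul] at h4
        rw [smul_smul]
        congr 1
        rw [Finset.sum_congr rfl fun j _ => by rw [h3 j]]
        have h5 : ∑ j, f (e j • x j) = ∑ j, (e j : C) * f (x j) :=
          Finset.sum_congr rfl fun j _ => by rw [map_zsmul, zsmul_eq_mul]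
        rw [h5, zsmul_eq_mul] at h4
        linear_combination h4
      · simp only [LinearMap.zero_apply, map_zero, mul_zero, Finset.sum_const_zero, neg_zero,
          zero_smul, smul_zero]
      · intro a b _ _ ha hb
        have h5 : ∑ j, (e j : C) * ξ j ((a + b) (v j)) =
            ∑ j, (e j : C) * ξ j (a (v j)) + ∑ j, (e j : C) * ξ j (b (v j)) := by
          rw [← Finset.sum_add_distrib]
          refine Finset.sum_congr rfl fun j _ => ?_
          rw [LinearMap.add_apply, map_add, mul_add]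
        rw [h5, LinearMap.add_apply, smul_add, ha, hb, neg_add, add_smul]
      · intro c a _ ha
        have h5 : ∑ j, (e j : C) * ξ j ((c • a) (v j)) =
            c * ∑ j, (e j : C) * ξ j (a (v j)) := by
          rw [Finset.mul_sum]
          refine Finset.sum_congr rfl fun j _ => ?_
          rw [LinearMap.smul_apply, map_smul, smul_eq_mul]
          ring
        rw [h5, LinearMap.smul_apply, smul_comm, ha, smul_smul, mul_neg]
    rw [Finset.sum_eq_zero fun j _ => by rw [hB0 j, mul_zero], neg_zero, zero_smul] at h2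
    exact (smul_eq_zero.1 h2).resolve_left (Int.cast_ne_zero.2 he')
  rw [← (BC.bc k C V L).2.2.2.1 X, BC.cen_bc]
  exact finrank_le_of v ξ hval

end core

end GXW

open GXW in
/-- GX -/
theorem t_GX : S_GX := by
  intro pig sem hcen k _ _ _ C _ _ _ _ V _ _ _ L hcl hLie hND r hr
  have main : ∀ n ≤ r, Pn C L n := by
    intro n
    induction n with
    | zero =>
      intro _
      refine ⟨0, L.zero_mem, Fin.elim0, fun j => j.elim0, fun e _ => ?_⟩
      exact Subsingleton.elim _ _
    | succ n ih =>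
      intro hn
      by_contra hmax
      obtain ⟨X, hX, h1⟩ := core pig sem hcen hcl hLie hND (ih (by omega)) hmax
      have h2 := hr X hX
      omega
  exact main r le_rfl

end Pool.Agent.Helper49P
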