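import Pool.Agent.Helper49P.TAN1

/-!
# Piece LOG of project RK: logarithms exist and are tangent vectors
-/

set_option autoImplicit false

namespace Pool.Agent.Helper49P

open Filter Topology Module

namespace LOG

open TAN1

variable {ℓ : ℕ} [Fact ℓ.Prime]
variable {E : Type} [NormedRing E] [NormedAlgebra ℚ_[ℓ] E]

section ultra

variable [IsUltrametricDist E]

theorem norm_add_max (x y : E) : ‖x + y‖ ≤ max ‖x‖ ‖y‖ := IsUltrametricDist.norm_add_le_max x y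

theorem norm_sub_max (x y : E) : ‖x - y‖ ≤ max ‖x‖ ‖y‖ := by
  rw [sub_eq_add_neg]
  have := norm_add_max x (-y)
  rwa [norm_neg] at this

theorem norm_nat_le (n : ℕ) (y : E) : ‖(n : ℚ_[ℓ]) • y‖ ≤ ‖y‖ := by
  rw [norm_smul]
  have h : ‖(n : ℚ_[ℓ])‖ ≤ 1 := by
    have := Padic.norm_int_le_one (p := ℓ) (n : ℤ)
    simpa using this
  exact mul_le_of_le_one_left (norm_nonneg _) h

theorem norm_one_add (h1 : ‖(1 : E)‖ ≤ 1) {x : E} (hx : ‖x‖ ≤ 1) : ‖1 + x‖ ≤ 1 :=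
  (norm_add_max _ _).trans (max_le h1 hx)

/-- the second order estimate for powers -/
theorem pow_est (h1 : ‖(1 : E)‖ ≤ 1) {x : E} (hx : ‖x‖ ≤ 1) (n : ℕ) :
    ‖(1 + x) ^ n - 1 - (n : ℚ_[ℓ]) • x‖ ≤ ‖x‖ ^ 2 := by
  induction n with
  | zero => simp
  | succ n ih =>
    have e1 : (1 + x) ^ (n + 1) - 1 - ((n + 1 : ℕ) : ℚ_[ℓ]) • x =
        ((1 + x) ^ n - 1 - (n : ℚ_[ℓ]) • x) * (1 + x) + (n : ℚ_[ℓ]) • (x * x) := by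
      rw [pow_succ]
      push_cast
      rw [add_smul, one_smul]
      simp only [mul_add, mul_one, sub_mul, one_mul, smul_mul_assoc]
      abel
    rw [e1]
    refine (norm_add_max _ _).trans (max_le ?_ ?_)
    · refine (norm_mul_le _ _).trans ?_
      exact (mul_le_of_le_one_right (norm_nonneg _) (norm_one_add h1 hx)).trans ih
    · refine (norm_nat_le n _).trans ((norm_mul_le _ _).trans (le_of_eq ?_))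
      ring

/-- the estimate of the `ℓ`-th power of an element near `1` -/
theorem powl_est (h1 : ‖(1 : E)‖ ≤ 1) {g : E} (hg : ‖g - 1‖ ≤ ((ℓ : ℝ)⁻¹) ^ 2) :
    ‖g ^ ℓ - 1 - (ℓ : ℚ_[ℓ]) • (g - 1)‖ ≤ ‖g - 1‖ ^ 2 ∧ ‖g ^ ℓ - 1‖ ≤ (ℓ : ℝ)⁻¹ * ‖g - 1‖ := by
  have hq := q_pos (ℓ := ℓ)
  have hq1 := q_lt (ℓ := ℓ)
  have hq2 : ((ℓ : ℝ)⁻¹) ^ 2 ≤ (ℓ : ℝ)⁻¹ := by nlinarith
  have h2 : ‖g - 1‖ ≤ 1 := by linarith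
  have h3 := pow_est (ℓ := ℓ) h1 h2 ℓ
  have e1 : (1 : E) + (g - 1) = g := by abel
  rw [e1] at h3
  refine ⟨h3, ?_⟩
  have e2 : g ^ ℓ - 1 = (g ^ ℓ - 1 - (ℓ : ℚ_[ℓ]) • (g - 1)) + (ℓ : ℚ_[ℓ]) • (g - 1) := by abel
  rw [e2]
  refine (norm_add_max _ _).trans (max_le (h3.trans ?_) ?_)
  · rw [pow_two]
    exact mul_le_mul_of_nonneg_right (hg.trans hq2) (norm_nonneg _)
  · rw [norm_smul, Padic.norm_p]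

/-- the powers `g ^ (ℓ ^ k)` tend to `1` -/
theorem pow_small (h1 : ‖(1 : E)‖ ≤ 1) {g : E} (hg : ‖g - 1‖ ≤ ((ℓ : ℝ)⁻¹) ^ 2) (k : ℕ) :
    ‖g ^ (ℓ ^ k) - 1‖ ≤ ((ℓ : ℝ)⁻¹) ^ k * ‖g - 1‖ := by
  have hq := q_pos (ℓ := ℓ)
  have hq1 := q_lt (ℓ := ℓ)
  induction k with
  | zero => simp
  | succ k ih =>
    have h2 : ‖g ^ (ℓ ^ k) - 1‖ ≤ ((ℓ : ℝ)⁻¹) ^ 2 := by
      refine (ih.trans ?_).trans hg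
      exact mul_le_of_le_one_left (norm_nonneg _) (pow_le_one₀ hq.le hq1.le)
    have h3 := (powl_est (ℓ := ℓ) h1 h2).2
    rw [← pow_mul, ← pow_succ] at h3
    refine h3.trans ?_
    rw [pow_succ ((ℓ : ℝ)⁻¹), mul_comm (((ℓ : ℝ)⁻¹) ^ k), mul_assoc]
    exact mul_le_mul_of_nonneg_left ih hq.le

theorem step_est (h1 : ‖(1 : E)‖ ≤ 1) {g : E} (hg : ‖g - 1‖ ≤ ((ℓ : ℝ)⁻¹) ^ 2) (k : ℕ) :
    ‖(((ℓ : ℚ_[ℓ]) ^ (k + 1))⁻¹) • (g ^ (ℓ ^ (k + 1)) - 1) -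
      (((ℓ : ℚ_[ℓ]) ^ k)⁻¹) • (g ^ (ℓ ^ k) - 1)‖ ≤ (ℓ : ℝ) * ‖g - 1‖ ^ 2 * ((ℓ : ℝ)⁻¹) ^ k := by
  have hq := q_pos (ℓ := ℓ)
  have hq1 := q_lt (ℓ := ℓ)
  have hl0 : (ℓ : ℚ_[ℓ]) ≠ 0 := by exact_mod_cast (Fact.out : ℓ.Prime).ne_zero
  have hlr : (ℓ : ℝ) ≠ 0 := by exact_mod_cast (Fact.out : ℓ.Prime).ne_zero
  have h2 : ‖g ^ (ℓ ^ k) - 1‖ ≤ ((ℓ : ℝ)⁻¹) ^ 2 := by
    refine ((pow_small h1 hg k).trans ?_).trans hg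
    exact mul_le_of_le_one_left (norm_nonneg _) (pow_le_one₀ hq.le hq1.le)
  have h3 := (powl_est (ℓ := ℓ) h1 h2).1
  rw [← pow_mul, ← pow_succ] at h3
  have e1 : (((ℓ : ℚ_[ℓ]) ^ (k + 1))⁻¹) • (g ^ (ℓ ^ (k + 1)) - 1) -
      (((ℓ : ℚ_[ℓ]) ^ k)⁻¹) • (g ^ (ℓ ^ k) - 1) = (((ℓ : ℚ_[ℓ]) ^ (k + 1))⁻¹) •
        (g ^ (ℓ ^ (k + 1)) - 1 - (ℓ : ℚ_[ℓ]) • (g ^ (ℓ ^ k) - 1)) := by
    rw [smul_sub (((ℓ : ℚ_[ℓ]) ^ (k + 1))⁻¹) (g ^ (ℓ ^ (k + 1)) - 1), smul_smul]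
    congr 2
    rw [pow_succ]
    field_simp
  rw [e1, norm_smul, norm_inv, norm_pow, Padic.norm_p]
  have h4 := pow_small h1 hg k
  calc (((ℓ : ℝ)⁻¹) ^ (k + 1))⁻¹ * ‖g ^ (ℓ ^ (k + 1)) - 1 - (ℓ : ℚ_[ℓ]) • (g ^ (ℓ ^ k) - 1)‖
      ≤ (((ℓ : ℝ)⁻¹) ^ (k + 1))⁻¹ * ‖g ^ (ℓ ^ k) - 1‖ ^ 2 :=
        mul_le_mul_of_nonneg_left h3 (by positivity)
    _ ≤ (((ℓ : ℝ)⁻¹) ^ (k + 1))⁻¹ * (((ℓ : ℝ)⁻¹) ^ k * ‖g - 1‖) ^ 2 :=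
        mul_le_mul_of_nonneg_left (pow_le_pow_left₀ (norm_nonneg _) h4 2) (by positivity)
    _ = (ℓ : ℝ) * ‖g - 1‖ ^ 2 * ((ℓ : ℝ)⁻¹) ^ k := by
        rw [pow_succ]
        field_simp

/-- the logarithm exists -/
theorem exists_log [CompleteSpace E] (h1 : ‖(1 : E)‖ ≤ 1) {g : E}
    (hg : ‖g - 1‖ ≤ ((ℓ : ℝ)⁻¹) ^ 2) : ∃ X, IsLog ℓ g X := by
  have hc : CauchySeq (fun k : ℕ => (((ℓ : ℚ_[ℓ]) ^ k)⁻¹) • (g ^ (ℓ ^ k) - 1)) := by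
    apply cauchySeq_of_le_geometric ((ℓ : ℝ)⁻¹) ((ℓ : ℝ) * ‖g - 1‖ ^ 2) q_lt
    intro k
    rw [dist_comm, dist_eq_norm]
    exact step_est h1 hg k
  exact cauchySeq_tendsto_of_complete hc

/-- the distance of the logarithm from `g - 1` -/
theorem log_near (h1 : ‖(1 : E)‖ ≤ 1) {g X : E} (hg : ‖g - 1‖ ≤ ((ℓ : ℝ)⁻¹) ^ 2)
    (hX : IsLog ℓ g X) : ‖X - (g - 1)‖ ≤ (ℓ : ℝ) * ‖g - 1‖ ^ 2 := by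
  have hq := q_pos (ℓ := ℓ)
  have hq1 := q_lt (ℓ := ℓ)
  have hl : (0 : ℝ) ≤ ℓ := Nat.cast_nonneg _
  have h2 : ∀ k : ℕ, ‖(((ℓ : ℚ_[ℓ]) ^ k)⁻¹) • (g ^ (ℓ ^ k) - 1) - (g - 1)‖ ≤
      (ℓ : ℝ) * ‖g - 1‖ ^ 2 := by
    intro k
    induction k with
    | zero => simp; positivity
    | succ k ih =>
      have e1 : (((ℓ : ℚ_[ℓ]) ^ (k + 1))⁻¹) • (g ^ (ℓ ^ (k + 1)) - 1) - (g - 1) =
          ((((ℓ : ℚ_[ℓ]) ^ (k + 1))⁻¹) • (g ^ (ℓ ^ (k + 1)) - 1) -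
            (((ℓ : ℚ_[ℓ]) ^ k)⁻¹) • (g ^ (ℓ ^ k) - 1)) +
          ((((ℓ : ℚ_[ℓ]) ^ k)⁻¹) • (g ^ (ℓ ^ k) - 1) - (g - 1)) := by abel
      rw [e1]
      refine (norm_add_max _ _).trans (max_le ?_ ih)
      refine (step_est h1 hg k).trans ?_
      exact mul_le_of_le_one_right (by positivity) (pow_le_one₀ hq.le hq1.le)
  have h3 : Tendsto (fun k : ℕ => ‖(((ℓ : ℚ_[ℓ]) ^ k)⁻¹) • (g ^ (ℓ ^ k) - 1) - (g - 1)‖) atTop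
      (𝓝 ‖X - (g - 1)‖) := (hX.sub_const (g - 1)).norm
  exact le_of_tendsto' h3 h2

end ultra

/-- the logarithm is a tangent vector -/
theorem tan_of_log {Γ : Type} [Group Γ] {φ : Γ →* E} {γ : Γ} {X : E} (hX : IsLog ℓ (φ γ) X) :
    Tan ℓ φ X := by
  intro ε hε
  obtain ⟨m₀, hm₀⟩ := Metric.tendsto_atTop.1 hX ε hε
  refine ⟨m₀, fun m hm => ⟨γ ^ (ℓ ^ m), ?_⟩⟩
  have hl0 : (ℓ : ℚ_[ℓ]) ≠ 0 := by exact_mod_cast (Fact.out : ℓ.Prime).ne_zero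
  have hlm : ((ℓ : ℚ_[ℓ]) ^ m) ≠ 0 := pow_ne_zero _ hl0
  have h1 := hm₀ m hm
  rw [dist_eq_norm] at h1
  have e1 : φ (γ ^ (ℓ ^ m)) - 1 - ((ℓ : ℚ_[ℓ]) ^ m) • X =
      ((ℓ : ℚ_[ℓ]) ^ m) • ((((ℓ : ℚ_[ℓ]) ^ m)⁻¹) • (φ γ ^ (ℓ ^ m) - 1) - X) := by
    rw [smul_sub, smul_smul, mul_inv_cancel₀ hlm, one_smul, map_pow]
  rw [e1, norm_pow_smul, mul_comm]
  exact mul_le_mul_of_nonneg_right h1.le (pow_nonneg q_pos.le m)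

end LOG

theorem t_LOG : S_LOG := by
  intro ℓ _ E _ _ _ _ h1 Γ _ φ γ hγ
  obtain ⟨X, hX⟩ := LOG.exists_log h1 hγ
  exact ⟨X, hX, LOG.tan_of_log hX⟩

end Pool.Agent.Helper49P
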