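import Pool.Agent.Helper49P.Stm2

set_option autoImplicit false

namespace Pool.Agent.Helper49P

open Filter Topology Module TensorProduct Polynomial Pool.Agent.Y114.RM Pool.Agent.R913.Adj
  Pool.Agent.N203.RE

theorem t_PERP : S_PERP := by
  intro k _ V _ _ _ L W hL hnd hcen Y hY hWY
  by_contra hcon
  obtain ⟨f, hfY, hfk⟩ := Submodule.exists_le_ker_of_notMem hcon
  let T : L →ₗ[k] L →ₗ[k] k := LinearMap.mk₂ k
    (fun B Z : L => LinearMap.trace k V ((B : End k V) * (Z : End k V)))
    (fun a b c => by rw [Submodule.coe_add, add_mul, map_add])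
    (fun a b c => by rw [Submodule.coe_smul, smul_mul_assoc, map_smul])
    (fun a b c => by rw [Submodule.coe_add, mul_add, map_add])
    (fun a b c => by rw [Submodule.coe_smul, mul_smul_comm, map_smul])
  have hinj : Function.Injective T := by
    rw [← LinearMap.ker_eq_bot, LinearMap.ker_eq_bot']
    intro B hB
    refine Subtype.ext (hnd B B.2 fun Z hZ => ?_)
    exact congrArg (fun g : L →ₗ[k] k => g ⟨Z, hZ⟩) hB
  have hsurj : Function.Surjective T :=
    (LinearMap.injective_iff_surjective_of_finrank_eq_finrank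
      (Subspace.dual_finrank_eq (K := k) (V := L)).symm).1 hinj
  obtain ⟨B, hB⟩ := hsurj (f ∘ₗ L.subtype)
  have hBf : ∀ Z ∈ L, LinearMap.trace k V ((B : End k V) * Z) = f Z := fun Z hZ =>
    congrArg (fun g : L →ₗ[k] k => g ⟨Z, hZ⟩) hB
  have hBc : ∀ X ∈ L, (B : End k V) * X = X * B := by
    intro X hX
    rw [← sub_eq_zero]
    refine hnd _ (hL B B.2 X hX) fun Z hZ => ?_
    have h1 : LinearMap.trace k V ((B : End k V) * (X * Z - Z * X)) = 0 := by
      rw [hBf _ (hL X hX Z hZ)]
      exact hfk (Submodule.subset_span ⟨X, hX, Z, hZ, rfl⟩)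
    rw [mul_sub, map_sub] at h1
    rw [sub_mul, map_sub, mul_assoc, mul_assoc X, LinearMap.trace_mul_comm k X, mul_assoc]
    exact h1
  obtain ⟨b, hb⟩ := hcen B B.2 hBc
  refine hfY ?_
  rw [← hBf Y hY, hb, smul_mul_assoc, map_smul, hWY, smul_zero]

end Pool.Agent.Helper49P
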