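import Pool.Agent.Helper49P.Stm

set_option autoImplicit false

namespace Pool.Agent.Helper49P

open Filter Topology Module

theorem t_PIG : S_PIG := by
  intro k C _ _ _ _ r x y u v hx h
  choose e e' hne hsum using h
  have hinj : ¬ Function.Injective fun t : k => (e t, e' t) := by
    intro hi
    exact not_countable (α := k) hi.countable
  rw [Function.Injective] at hinj
  push Not at hinj
  obtain ⟨t, t', hE, htt⟩ := hinj
  rw [Prod.mk.injEq] at hE
  have h1 := hsum t
  have h2 := hsum t'
  rw [← hE.1, ← hE.2] at h2
  simp only [smul_add, Finset.sum_add_distrib] at h1 h2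
  have e1 : ∀ s : k, ∑ j, e t j • (algebraMap k C s * y j) =
      algebraMap k C s * ∑ j, e t j • y j := by
    intro s
    rw [Finset.mul_sum]
    exact Finset.sum_congr rfl fun j _ => (mul_smul_comm _ _ _).symm
  have e2 : ∀ s : k, e' t • (algebraMap k C s * v) = algebraMap k C s * (e' t • v) := fun s =>
    (mul_smul_comm _ _ _).symm
  rw [e1, e2] at h1 h2
  have hdiff : (algebraMap k C t - algebraMap k C t') * (∑ j, e t j • y j + e' t • v) = 0 := by
    linear_combination h1 - h2
  have hne' : algebraMap k C t - algebraMap k C t' ≠ 0 := by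
    rw [sub_ne_zero]
    exact fun h => htt ((algebraMap k C).injective h)
  have hy := (mul_eq_zero.1 hdiff).resolve_left hne'
  have hxx : ∑ j, e t j • x j + e' t • u = 0 := by
    linear_combination h1 - algebraMap k C t * hy
  refine ⟨e t, e' t, fun h0 => ?_, hxx, hy⟩
  rw [h0, zero_smul, add_zero] at hxx
  exact (hne t).elim (fun h => h (hx _ hxx)) fun h => h h0

end Pool.Agent.Helper49P
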