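import Pool.Agent.Helper49P.Stm

/-!
# `ℓ`-th roots in a compact `ℓ`-adic group (piece ROOT, helper98)
-/

set_option autoImplicit false

namespace Pool.Agent.Helper49P

open Filter Topology Module

namespace Root

section

variable {E : Type} [NormedRing E] [IsUltrametricDist E]

lemma add_le {x y : E} {c : ℝ} (hx : ‖x‖ ≤ c) (hy : ‖y‖ ≤ c) : ‖x + y‖ ≤ c :=
  (IsUltrametricDist.norm_add_le_max x y).trans (max_le hx hy)

lemma mul_le_one {x y : E} {c : ℝ} (hx : ‖x‖ ≤ c) (hy : ‖y‖ ≤ 1) : ‖x * y‖ ≤ c := by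
  have h := norm_mul_le x y
  have h0 := norm_nonneg x
  nlinarith [norm_nonneg y]

lemma one_mul_le {x y : E} {c : ℝ} (hx : ‖x‖ ≤ 1) (hy : ‖y‖ ≤ c) : ‖x * y‖ ≤ c := by
  have h := norm_mul_le x y
  have h0 := norm_nonneg y
  nlinarith [norm_nonneg x]

lemma mul_le {x y : E} {c d : ℝ} (hx : ‖x‖ ≤ c) (hy : ‖y‖ ≤ d) : ‖x * y‖ ≤ c * d :=
  (norm_mul_le x y).trans (mul_le_mul hx hy (norm_nonneg y) ((norm_nonneg x).trans hx))

lemma norm_le_one (h1 : ‖(1 : E)‖ ≤ 1) {x : E} {s : ℝ} (hs : s ≤ 1) (hx : ‖x - 1‖ ≤ s) :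
    ‖x‖ ≤ 1 := by
  have : x = (x - 1) + 1 := by abel
  rw [this]
  exact add_le (hx.trans hs) h1

lemma inv_le_one (h1 : ‖(1 : E)‖ ≤ 1) {x y : E} {s : ℝ} (hs : s < 1) (hx : ‖x - 1‖ ≤ s)
    (hxy : x * y = 1) : ‖y‖ ≤ 1 := by
  by_contra hy
  push Not at hy
  have e : y = 1 + (-((x - 1) * y)) := by
    rw [sub_mul, hxy, one_mul]; abel
  have h2 : ‖(x - 1) * y‖ < ‖y‖ := by
    have := norm_mul_le (x - 1) y
    nlinarith [norm_nonneg (x - 1)]
  have h3 : ‖y‖ ≤ max ‖(1 : E)‖ ‖-((x - 1) * y)‖ := by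
    conv_lhs => rw [e]
    exact IsUltrametricDist.norm_add_le_max _ _
  rw [norm_neg] at h3
  rcases le_max_iff.1 h3 with h | h
  · linarith
  · linarith

lemma pow_sub_one (h1 : ‖(1 : E)‖ ≤ 1) {x : E} {s : ℝ} (hs0 : 0 ≤ s) (hs : s ≤ 1)
    (hx : ‖x - 1‖ ≤ s) (n : ℕ) : ‖x ^ n - 1‖ ≤ s := by
  induction n with
  | zero => simpa using hs0
  | succ n ih =>
    have : x ^ (n + 1) - 1 = x * (x ^ n - 1) + (x - 1) := by rw [pow_succ', mul_sub, mul_one]; abel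
    rw [this]
    exact add_le (one_mul_le (norm_le_one h1 hs hx) ih) hx

lemma pow_le_one' (h1 : ‖(1 : E)‖ ≤ 1) {x : E} (hx : ‖x‖ ≤ 1) (n : ℕ) : ‖x ^ n‖ ≤ 1 := by
  induction n with
  | zero => simpa using h1
  | succ n ih => rw [pow_succ]; exact mul_le_one ih hx

end

section

variable {ℓ : ℕ} [Fact ℓ.Prime] {E : Type} [NormedRing E] [NormedAlgebra ℚ_[ℓ] E]
  [IsUltrametricDist E]

lemma nat_smul_le (n : ℕ) {x : E} {c : ℝ} (hx : ‖x‖ ≤ c) : ‖(n : ℚ_[ℓ]) • x‖ ≤ c := by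
  rw [norm_smul]
  have h : ‖(n : ℚ_[ℓ])‖ ≤ 1 := by
    simpa using Padic.norm_int_le_one (p := ℓ) (n : ℤ)
  nlinarith [norm_nonneg x, norm_nonneg (n : ℚ_[ℓ])]

/-- `(G d') ^ n - G ^ n` is `n d` up to `s * t`, where `d' = 1 + d`. -/
lemma tele (h1 : ‖(1 : E)‖ ≤ 1) {G d : E} {s t : ℝ} (hs0 : 0 ≤ s) (ht0 : 0 ≤ t) (hs : s ≤ 1)
    (hts : t ≤ s) (hG : ‖G - 1‖ ≤ s) (hd : ‖d‖ ≤ t) (n : ℕ) :
    ‖(G * (1 + d)) ^ n - G ^ n - (n : ℚ_[ℓ]) • d‖ ≤ s * t := by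
  have hG1 := norm_le_one h1 hs hG
  have hG' : ‖G * (1 + d) - 1‖ ≤ s := by
    have : G * (1 + d) - 1 = (G - 1) + G * d := by rw [mul_add, mul_one]; abel
    rw [this]
    exact add_le hG (one_mul_le hG1 (hd.trans hts))
  have hG'1 := norm_le_one h1 hs hG'
  induction n with
  | zero => simpa using mul_nonneg hs0 ht0
  | succ n ih =>
    have e : (G * (1 + d)) ^ (n + 1) - G ^ (n + 1) - ((n + 1 : ℕ) : ℚ_[ℓ]) • d =
        G * (1 + d) * ((G * (1 + d)) ^ n - G ^ n - (n : ℚ_[ℓ]) • d) +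
          ((n : ℚ_[ℓ]) • ((G * (1 + d) - 1) * d) + ((G - 1) * (d * G ^ n) + d * (G ^ n - 1))) := by
      rw [pow_succ' (G * (1 + d)), pow_succ' G]
      push_cast
      rw [add_smul, one_smul, mul_sub, mul_sub, mul_smul_comm, sub_mul (G * (1 + d)) 1 d, one_mul,
        smul_sub, sub_mul G 1, one_mul, mul_sub d, mul_one]
      have : G * (1 + d) * G ^ n = G * G ^ n + G * (d * G ^ n) := by
        rw [mul_add, mul_one, add_mul, mul_assoc G d]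
      rw [this]
      abel
    rw [e]
    have hst : 0 ≤ s * t := mul_nonneg hs0 ht0
    refine add_le (one_mul_le hG'1 ih) (add_le (nat_smul_le n (mul_le hG' hd)) (add_le ?_ ?_))
    · exact mul_le hG (mul_le_one hd (pow_le_one' h1 hG1 n))
    · have := mul_le hd (pow_sub_one h1 hs0 hs hG n)
      rwa [mul_comm t s] at this

end

end Root

open Root in
/-- **ROOT** -/
theorem t_ROOT : S_ROOT := by
  intro ℓ _ E _ _ _ h1 Γ _ _ _ φ hφ k₀ hk₀ hst k hk η hη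
  set r : ℝ := (ℓ : ℝ)⁻¹ with hr
  have hℓ : (2 : ℝ) ≤ ℓ := by exact_mod_cast (Fact.out : ℓ.Prime).two_le
  have hr0 : 0 < r := by positivity
  have hr1 : r < 1 := by
    rw [hr]
    exact inv_lt_one_of_one_lt₀ (by linarith)
  have hk2 : 2 ≤ k := hk₀.trans hk
  have hrk : r ^ k < 1 := pow_lt_one₀ hr0.le hr1 (by omega)
  have mono : ∀ {a b : ℕ}, a ≤ b → r ^ b ≤ r ^ a := fun h => pow_le_pow_of_le_one hr0.le hr1.le h
  have claim : ∀ j : ℕ, ∃ γ : Γ, ‖φ γ - 1‖ ≤ r ^ k ∧ ‖φ γ ^ ℓ - φ η‖ ≤ r ^ (k + 1 + j) := by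
    intro j
    induction j with
    | zero =>
      refine ⟨1, ?_, ?_⟩
      · simpa using (pow_pos hr0 k).le
      · rw [map_one, one_pow, norm_sub_rev]
        simpa using hη
    | succ j ih =>
      obtain ⟨γ, hγ, hγ2⟩ := ih
      set G := φ γ with hG
      have hGinv : G * φ γ⁻¹ = 1 := by rw [hG, ← map_mul, mul_inv_cancel, map_one]
      have hGG : G ^ ℓ * φ γ⁻¹ ^ ℓ = 1 := by
        rw [hG, ← map_pow, ← map_pow, ← map_mul, inv_pow, mul_inv_cancel, map_one]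
      have hGG' : φ γ⁻¹ ^ ℓ * G ^ ℓ = 1 := by
        rw [hG, ← map_pow, ← map_pow, ← map_mul, inv_pow, inv_mul_cancel, map_one]
      have hi : ‖φ γ⁻¹‖ ≤ 1 := inv_le_one h1 hrk hγ hGinv
      have hη' : φ (η * γ⁻¹ ^ ℓ) = φ η * φ γ⁻¹ ^ ℓ := by rw [map_mul, map_pow]
      have e1 : φ (η * γ⁻¹ ^ ℓ) - 1 = (φ η - G ^ ℓ) * φ γ⁻¹ ^ ℓ := by
        rw [hη', sub_mul, hGG]
      have h2 : ‖φ (η * γ⁻¹ ^ ℓ) - 1‖ ≤ r ^ (k + j + 1) := by
        rw [e1]
        refine mul_le_one ?_ (pow_le_one' h1 hi ℓ)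
        rw [norm_sub_rev]
        exact hγ2.trans (le_of_eq (by ring_nf))
      obtain ⟨δ, hδ, hδ2⟩ := hst (k + j) (by omega) _ h2
      set d := φ δ - 1 with hd
      have hd' : φ δ = 1 + d := by rw [hd]; abel
      have e2 : φ (γ * δ) = G * (1 + d) := by rw [map_mul, ← hG, hd']
      have hG1 := norm_le_one h1 hrk.le hγ
      refine ⟨γ * δ, ?_, ?_⟩
      · rw [e2]
        have : G * (1 + d) - 1 = (G - 1) + G * d := by rw [mul_add, mul_one]; abel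
        rw [this]
        exact add_le hγ (one_mul_le hG1 (hδ.trans (mono (by omega))))
      · rw [e2]
        have ht := tele (ℓ := ℓ) h1 (pow_pos hr0 k).le (pow_pos hr0 (k + j)).le hrk.le
          (mono (by omega : k ≤ k + j)) hγ hδ ℓ
        have e3 : φ η - G ^ ℓ = (φ (η * γ⁻¹ ^ ℓ) - 1) + (φ (η * γ⁻¹ ^ ℓ) - 1) * (G ^ ℓ - 1) := by
          have : (φ (η * γ⁻¹ ^ ℓ) - 1) * G ^ ℓ = φ η - G ^ ℓ := by
            rw [e1, mul_assoc, hGG', mul_one]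
          rw [mul_sub, this, mul_one]; abel
        have e4 : (G * (1 + d)) ^ ℓ - φ η =
            ((G * (1 + d)) ^ ℓ - G ^ ℓ - (ℓ : ℚ_[ℓ]) • d) +
              (-((φ (η * γ⁻¹ ^ ℓ) - 1) - (ℓ : ℚ_[ℓ]) • d) +
                -((φ (η * γ⁻¹ ^ ℓ) - 1) * (G ^ ℓ - 1))) := by
          have : φ η = G ^ ℓ + ((φ (η * γ⁻¹ ^ ℓ) - 1) + (φ (η * γ⁻¹ ^ ℓ) - 1) * (G ^ ℓ - 1)) := by
            rw [← e3]; abel
          conv_lhs => rw [this]
          abel
        rw [e4]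
        refine add_le ?_ (add_le ?_ ?_)
        · refine ht.trans ?_
          rw [← pow_add]
          exact mono (by omega)
        · rw [norm_neg]
          exact hδ2.trans (mono (by omega))
        · rw [norm_neg]
          refine (mul_le h2 (pow_sub_one h1 (pow_pos hr0 k).le hrk.le hγ ℓ)).trans ?_
          rw [← pow_add]
          exact mono (by omega)
  -- compactness
  let t : ℕ → Set Γ := fun j => {γ | ‖φ γ - 1‖ ≤ r ^ k ∧ ‖φ γ ^ ℓ - φ η‖ ≤ r ^ (k + 1 + j)}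
  have hcl : ∀ j, IsClosed (t j) := fun j =>
    (isClosed_le (hφ.sub continuous_const).norm continuous_const).inter
      (isClosed_le ((hφ.pow ℓ).sub continuous_const).norm continuous_const)
  obtain ⟨γ, hγ⟩ := IsCompact.nonempty_iInter_of_sequence_nonempty_isCompact_isClosed t
    (fun j γ h => ⟨h.1, h.2.trans (mono (by omega))⟩) claim (hcl 0).isCompact hcl
  rw [Set.mem_iInter] at hγ
  refine ⟨γ, (hγ 0).1, ?_⟩
  have hlim : Tendsto (fun j : ℕ => r ^ (k + 1 + j)) atTop (𝓝 0) := by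
    have h := tendsto_pow_atTop_nhds_zero_of_lt_one hr0.le hr1
    have h' := (tendsto_add_atTop_iff_nat (k + 1)).2 h
    refine h'.congr (fun j => by rw [add_comm])
  have h0 : ‖φ γ ^ ℓ - φ η‖ ≤ 0 := ge_of_tendsto' hlim (fun j => (hγ j).2)
  exact sub_eq_zero.1 (norm_le_zero_iff.1 h0)

end Pool.Agent.Helper49P
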