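import Pool.Agent.Helper49P.Stm

set_option autoImplicit false

namespace Pool.Agent.Helper49P

open Filter Topology Module

theorem SEMx.comm_aux {R : Type} [Ring R] (X N S B : R) (hX : X = N + S) (hc : Commute N S)
    (hB : Commute B N) : Commute (X - B) (-N) ∧ S - B = (X - B) + (-N) := by
  have q1 : Commute X N := by
    rw [hX]
    exact (Commute.refl _).add_left hc.symm
  refine ⟨(Commute.sub_left q1 hB).neg_right, ?_⟩
  rw [hX]; abel

theorem SEMx.nil_shift {C : Type} [Field C] {W : Type} [AddCommGroup W] [Module C W]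
    (X N S : End C W) (hX : X = N + S) (hc : Commute N S) {m : ℕ} (hN : N ^ m = 0) (β : C)
    (v : W) {a : ℕ} (ha : ((X - β • (1 : End C W)) ^ a) v = 0) :
    ((S - β • (1 : End C W)) ^ (a + m)) v = 0 := by
  obtain ⟨hcX, hdec⟩ := SEMx.comm_aux X N S (β • (1 : End C W)) hX hc
    ((Commute.one_left _).smul_left β)
  rw [hdec, hcX.add_pow, LinearMap.sum_apply]
  refine Finset.sum_eq_zero fun i _ => ?_
  by_cases hi : a ≤ i
  · rw [(hcX.pow_pow i (a + m - i)).eq, mul_assoc, Module.End.mul_apply, Module.End.mul_apply]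
    have h1 : ((X - β • (1 : End C W)) ^ i)
        (((((a + m).choose i : ℕ) : End C W)) v) = 0 := by
      have h2 : i = (i - a) + a := by omega
      rw [Module.End.natCast_apply, map_nsmul, h2, pow_add, Module.End.mul_apply, ha, map_zero,
        smul_zero]
    rw [h1, map_zero]
  · have h2 : a + m - i = (a - i) + m := by omega
    rw [h2, pow_add, neg_pow N m, hN, mul_zero, mul_zero, mul_zero, zero_mul]
    rfl

theorem t_SEM : S_SEM := by
  intro k _ _ C _ _ _ V _ _ _ X
  obtain ⟨n, hn, s, hs, hnil, hss, hX⟩ := Module.End.exists_isNilpotent_isSemisimple (f := X)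
  have hcomm : Commute n s := Algebra.commute_of_mem_adjoin_singleton_of_commute hs
    (Algebra.commute_of_mem_adjoin_self hn).symm
  let Φ := Module.End.baseChangeHom k C V
  have hΦ : ∀ f : End k V, Φ f = f.baseChange C := fun f => rfl
  have hssC : Module.End.IsSemisimple (s.baseChange C) := by
    have h1 : Squarefree ((minpoly k s).map (algebraMap k C)) :=
      (PerfectField.separable_iff_squarefree.2 hss.minpoly_squarefree).map.squarefree
    refine Module.End.isSemisimple_of_squarefree_aeval_eq_zero h1 ?_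
    rw [Polynomial.aeval_map_algebraMap, ← hΦ, Polynomial.aeval_algHom_apply, minpoly.aeval,
      map_zero]
  have htop : ⨆ μ, End.eigenspace (s.baseChange C) μ = ⊤ := by
    have h1 := End.iSup_maxGenEigenspace_eq_top (s.baseChange C)
    rw [← h1]
    congr 1
    funext μ
    exact (hssC.isFinitelySemisimple.maxGenEigenspace_eq_eigenspace μ).symm
  refine ⟨s, htop, fun β v hv => ?_⟩
  rw [← End.mem_eigenspace_iff, ← hssC.isFinitelySemisimple.maxGenEigenspace_eq_eigenspace β]
  rw [End.mem_maxGenEigenspace] at hv ⊢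
  obtain ⟨a, ha⟩ := hv
  obtain ⟨m, hm⟩ := hnil
  have hnC : (n.baseChange C) ^ m = 0 := by
    rw [← hΦ, ← map_pow, hm, map_zero]
  have hXC : X.baseChange C = n.baseChange C + s.baseChange C := by
    rw [← hΦ, ← hΦ, ← hΦ, ← map_add, ← hX]
  have hcC : Commute (n.baseChange C) (s.baseChange C) := by
    have := hcomm.map Φ
    exact this
  refine ⟨a + m, ?_⟩
  exact SEMx.nil_shift _ _ _ hXC hcC hnC β v ha

end Pool.Agent.Helper49P
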