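import Pool.Agent.Helper49P.Stm

/-!
# Piece STAB: the graded pieces of the congruence filtration become stationary
-/

set_option autoImplicit false
set_option linter.all false

namespace Pool.Agent.Helper49P

open Filter Topology Module

namespace STAB

variable {ℓ : ℕ} [Fact ℓ.Prime] {E : Type} [NormedRing E] [NormedAlgebra ℚ_[ℓ] E]
  [IsUltrametricDist E]

/-- `‖(1 + x) ^ ℓ - 1 - ℓ x‖ ≤ ‖x‖ ^ 2` for `‖x‖ ≤ 1` -/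
theorem pow_est (h1 : ‖(1 : E)‖ ≤ 1) (x : E) (hx : ‖x‖ ≤ 1) (n : ℕ) :
    ‖(1 + x) ^ n - 1 - (n : ℚ_[ℓ]) • x‖ ≤ ‖x‖ ^ 2 := by
  induction n with
  | zero =>
    simp
  | succ n ih =>
    have e : (1 + x) ^ (n + 1) - 1 - ((n + 1 : ℕ) : ℚ_[ℓ]) • x =
        ((1 + x) ^ n - 1 - (n : ℚ_[ℓ]) • x) + (((1 + x) ^ n - 1 - (n : ℚ_[ℓ]) • x) * x +
          (n : ℚ_[ℓ]) • (x * x)) := by
      rw [pow_succ, Nat.cast_succ, add_smul, one_smul, mul_add, mul_one, sub_mul, sub_mul, one_mul,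
        smul_mul_assoc]
      abel
    rw [e]
    refine (IsUltrametricDist.norm_add_le_max _ _).trans (max_le ih ?_)
    refine (IsUltrametricDist.norm_add_le_max _ _).trans (max_le ?_ ?_)
    · refine (norm_mul_le _ _).trans ?_
      calc ‖(1 + x) ^ n - 1 - (n : ℚ_[ℓ]) • x‖ * ‖x‖ ≤ ‖x‖ ^ 2 * 1 := by gcongr
        _ = ‖x‖ ^ 2 := mul_one _
    · rw [norm_smul]
      have h2 : ‖(n : ℚ_[ℓ])‖ ≤ 1 := by
        have := Padic.norm_int_le_one (p := ℓ) (n : ℤ)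
        push_cast at this
        exact this
      calc ‖(n : ℚ_[ℓ])‖ * ‖x * x‖ ≤ 1 * (‖x‖ * ‖x‖) :=
            mul_le_mul h2 (norm_mul_le _ _) (norm_nonneg _) zero_le_one
        _ = ‖x‖ ^ 2 := by ring

end STAB

open STAB in
theorem t_STAB : S_STAB := by
  intro ℓ _ E _ _ _ _ h1 Γ _ φ
  classical
  have hℓ : (1 : ℝ) < ℓ := by exact_mod_cast (Fact.out : ℓ.Prime).one_lt
  have hℓ0 : (0 : ℝ) < ℓ := by linarith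
  have hl0 : (0 : ℝ) < (ℓ : ℝ)⁻¹ := inv_pos.2 hℓ0
  have hl1 : (ℓ : ℝ)⁻¹ < 1 := inv_lt_one_of_one_lt₀ hℓ
  have hnl : ‖(ℓ : ℚ_[ℓ])‖ = (ℓ : ℝ)⁻¹ := Padic.norm_p
  have hl_ne : (ℓ : ℚ_[ℓ]) ≠ 0 := by exact_mod_cast (Fact.out : ℓ.Prime).ne_zero
  haveI : ProperSpace E := FiniteDimensional.proper ℚ_[ℓ] E
  -- finitely many small balls cover the unit ball
  obtain ⟨t, ht⟩ : ∃ t : Finset E, Metric.closedBall (0 : E) 1 ⊆ ⋃ c ∈ t, Metric.ball c (ℓ : ℝ)⁻¹ := by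
    obtain ⟨t, -, ht, h⟩ := (isCompact_closedBall (0 : E) 1).finite_cover_balls hl0
    exact ⟨ht.toFinset, by simpa using h⟩
  -- the classes
  let R : ℕ → Finset E := fun k => t.filter fun c => ∃ γ : Γ, ‖φ γ - 1‖ ≤ ((ℓ : ℝ)⁻¹) ^ k ∧
    ‖((ℓ : ℚ_[ℓ]) ^ k)⁻¹ • (φ γ - 1) - c‖ ≤ (ℓ : ℝ)⁻¹
  have hsc : ∀ (k : ℕ) (x : E), ‖((ℓ : ℚ_[ℓ]) ^ k)⁻¹ • x‖ = (((ℓ : ℝ)⁻¹) ^ k)⁻¹ * ‖x‖ := by
    intro k x
    rw [norm_smul, norm_inv, norm_pow, hnl]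
  have hsq : ∀ (k : ℕ) (x : ℝ), 2 ≤ k → 0 ≤ x → x ≤ ((ℓ : ℝ)⁻¹) ^ k → x ^ 2 ≤ ((ℓ : ℝ)⁻¹) ^ (k + 2) := by
    intro k x hk hx0 hx
    calc x ^ 2 ≤ (((ℓ : ℝ)⁻¹) ^ k) ^ 2 := pow_le_pow_left₀ hx0 hx 2
      _ = ((ℓ : ℝ)⁻¹) ^ (k * 2) := by rw [pow_mul]
      _ ≤ ((ℓ : ℝ)⁻¹) ^ (k + 2) := pow_le_pow_of_le_one hl0.le hl1.le (by omega)
  have hmono : ∀ k, 2 ≤ k → R k ⊆ R (k + 1) := by
    intro k hk c hc
    rw [Finset.mem_filter] at hc ⊢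
    obtain ⟨hct, γ, hγ, hγc⟩ := hc
    obtain ⟨x, hx⟩ : ∃ x : E, x = φ γ - 1 := ⟨_, rfl⟩
    rw [← hx] at hγ hγc
    have hφ : φ (γ ^ ℓ) = (1 + x) ^ ℓ := by
      rw [map_pow, hx, add_sub_cancel]
    have hxle : ‖x‖ ≤ 1 := hγ.trans (pow_le_one₀ hl0.le hl1.le)
    have hest : ‖(1 + x) ^ ℓ - 1 - (ℓ : ℚ_[ℓ]) • x‖ ≤ ((ℓ : ℝ)⁻¹) ^ (k + 2) :=
      (pow_est h1 x hxle ℓ).trans (hsq k _ hk (norm_nonneg _) hγ)
    refine ⟨hct, γ ^ ℓ, ?_, ?_⟩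
    · rw [hφ]
      have e : (1 + x) ^ ℓ - 1 = ((1 + x) ^ ℓ - 1 - (ℓ : ℚ_[ℓ]) • x) + (ℓ : ℚ_[ℓ]) • x := by abel
      rw [e]
      refine (IsUltrametricDist.norm_add_le_max _ _).trans (max_le (hest.trans ?_) ?_)
      · exact pow_le_pow_of_le_one hl0.le hl1.le (by omega)
      · rw [norm_smul, hnl, pow_succ, mul_comm]
        exact mul_le_mul_of_nonneg_right hγ hl0.le
    · rw [hφ]
      have e : ((ℓ : ℚ_[ℓ]) ^ (k + 1))⁻¹ • ((1 + x) ^ ℓ - 1) - c =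
          ((ℓ : ℚ_[ℓ]) ^ (k + 1))⁻¹ • ((1 + x) ^ ℓ - 1 - (ℓ : ℚ_[ℓ]) • x) +
            (((ℓ : ℚ_[ℓ]) ^ k)⁻¹ • x - c) := by
        have e2 : ((ℓ : ℚ_[ℓ]) ^ (k + 1))⁻¹ • ((ℓ : ℚ_[ℓ]) • x) = ((ℓ : ℚ_[ℓ]) ^ k)⁻¹ • x := by
          rw [smul_smul]
          congr 1
          rw [pow_succ, mul_inv, mul_assoc, inv_mul_cancel₀ hl_ne, mul_one]
        rw [smul_sub _ _ ((ℓ : ℚ_[ℓ]) • x), e2]
        abel
      rw [e]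
      refine (IsUltrametricDist.norm_add_le_max _ _).trans (max_le ?_ hγc)
      rw [hsc]
      calc (((ℓ : ℝ)⁻¹) ^ (k + 1))⁻¹ * ‖(1 + x) ^ ℓ - 1 - (ℓ : ℚ_[ℓ]) • x‖
          ≤ (((ℓ : ℝ)⁻¹) ^ (k + 1))⁻¹ * ((ℓ : ℝ)⁻¹) ^ (k + 2) :=
            mul_le_mul_of_nonneg_left hest (by positivity)
        _ = (ℓ : ℝ)⁻¹ := by
            rw [pow_succ _ (k + 1)]
            field_simp
  obtain ⟨n₀, hn₀⟩ : ∃ n₀, ∀ m, n₀ ≤ m → R (m + 2) = R (n₀ + 2) := by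
    let a : ℕ →o Fin (t.card + 1) :=
      { toFun := fun n => ⟨(R (n + 2)).card, Nat.lt_succ_of_le (Finset.card_filter_le _ _)⟩
        monotone' := monotone_nat_of_le_succ fun n => by
          show (R (n + 2)).card ≤ (R (n + 1 + 2)).card
          exact Finset.card_le_card (hmono (n + 2) (by omega)) }
    obtain ⟨n₀, hn⟩ := WellFoundedGT.monotone_chain_condition a
    refine ⟨n₀, fun m hm => ?_⟩
    have h2 : R (n₀ + 2) ⊆ R (m + 2) := by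
      induction m, hm using Nat.le_induction with
      | base => exact Finset.Subset.refl _
      | succ m hm ih => exact ih.trans (hmono (m + 2) (by omega))
    have h3 : (R (n₀ + 2)).card = (R (m + 2)).card := congrArg Fin.val (hn m hm)
    exact (Finset.eq_of_subset_of_card_le h2 h3.ge).symm
  refine ⟨n₀ + 2, by omega, fun k hk η hη => ?_⟩
  have hR : R (k + 1) = R k := by
    have e1 := hn₀ (k + 1 - 2) (by omega)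
    have e2 := hn₀ (k - 2) (by omega)
    rw [show k + 1 - 2 + 2 = k + 1 by omega] at e1
    rw [show k - 2 + 2 = k by omega] at e2
    rw [e1, e2]
  obtain ⟨y, hy⟩ : ∃ y : E, y = ((ℓ : ℚ_[ℓ]) ^ (k + 1))⁻¹ • (φ η - 1) := ⟨_, rfl⟩
  have hy1 : ‖y‖ ≤ 1 := by
    rw [hy, hsc]
    calc (((ℓ : ℝ)⁻¹) ^ (k + 1))⁻¹ * ‖φ η - 1‖
        ≤ (((ℓ : ℝ)⁻¹) ^ (k + 1))⁻¹ * ((ℓ : ℝ)⁻¹) ^ (k + 1) :=
          mul_le_mul_of_nonneg_left hη (by positivity)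
      _ = 1 := inv_mul_cancel₀ (by positivity)
  have hyb : y ∈ Metric.closedBall (0 : E) 1 := by
    rw [Metric.mem_closedBall, dist_zero_right]
    exact hy1
  obtain ⟨c, hct, hyc⟩ := Set.mem_iUnion₂.1 (ht hyb)
  rw [Metric.mem_ball, dist_eq_norm] at hyc
  have hc : c ∈ R (k + 1) := by
    rw [Finset.mem_filter]
    exact ⟨hct, η, hη, by rw [← hy]; exact hyc.le⟩
  rw [hR, Finset.mem_filter] at hc
  obtain ⟨-, δ, hδ, hδc⟩ := hc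
  refine ⟨δ, hδ, ?_⟩
  have e : φ η - 1 - (ℓ : ℚ_[ℓ]) • (φ δ - 1) = ((ℓ : ℚ_[ℓ]) ^ (k + 1)) •
      ((y - c) - (((ℓ : ℚ_[ℓ]) ^ k)⁻¹ • (φ δ - 1) - c)) := by
    have e1 : ((ℓ : ℚ_[ℓ]) ^ (k + 1)) • (((ℓ : ℚ_[ℓ]) ^ (k + 1))⁻¹ • (φ η - 1)) = φ η - 1 := by
      rw [smul_smul, mul_inv_cancel₀ (pow_ne_zero _ hl_ne), one_smul]
    have e2 : ((ℓ : ℚ_[ℓ]) ^ (k + 1)) • (((ℓ : ℚ_[ℓ]) ^ k)⁻¹ • (φ δ - 1)) =
        (ℓ : ℚ_[ℓ]) • (φ δ - 1) := by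
      rw [smul_smul]
      congr 1
      rw [pow_succ, mul_comm ((ℓ : ℚ_[ℓ]) ^ k), mul_assoc, mul_inv_cancel₀ (pow_ne_zero _ hl_ne),
        mul_one]
    rw [sub_sub_sub_cancel_right, hy, smul_sub ((ℓ : ℚ_[ℓ]) ^ (k + 1)), e1, e2]
  rw [e, norm_smul, norm_pow, hnl, pow_succ _ (k + 1)]
  refine mul_le_mul_of_nonneg_left ?_ (by positivity)
  rw [sub_eq_add_neg]
  refine (IsUltrametricDist.norm_add_le_max _ _).trans (max_le hyc.le ?_)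
  rw [norm_neg]
  exact hδc

end Pool.Agent.Helper49P
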