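import Pool.Agent.Helper49P.Stm

/-!
# Piece TAN1 of project RK: sums and multiples of tangent vectors
-/

set_option autoImplicit false

namespace Pool.Agent.Helper49P

open Filter Topology Module

namespace TAN1

variable {ℓ : ℕ} [Fact ℓ.Prime]

theorem q_pos : (0 : ℝ) < ((ℓ : ℝ))⁻¹ := by
  have : (0 : ℝ) < ℓ := by exact_mod_cast (Fact.out : ℓ.Prime).pos
  positivity

theorem q_lt : ((ℓ : ℝ))⁻¹ < 1 :=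
  inv_lt_one_of_one_lt₀ (by exact_mod_cast (Fact.out : ℓ.Prime).one_lt)

theorem norm_pow_smul {E : Type} [NormedRing E] [NormedAlgebra ℚ_[ℓ] E] (m : ℕ) (X : E) :
    ‖((ℓ : ℚ_[ℓ]) ^ m) • X‖ = ((ℓ : ℝ)⁻¹) ^ m * ‖X‖ := by
  rw [norm_smul, norm_pow, Padic.norm_p]

theorem ev_small (C ε : ℝ) (hε : 0 < ε) : ∃ m₀ : ℕ, ∀ m ≥ m₀, C * ((ℓ : ℝ)⁻¹) ^ m ≤ ε := by
  have h1 : Tendsto (fun m : ℕ => C * ((ℓ : ℝ)⁻¹) ^ m) atTop (𝓝 (C * 0)) :=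
    (tendsto_pow_atTop_nhds_zero_of_lt_one q_pos.le q_lt).const_mul C
  rw [mul_zero] at h1
  obtain ⟨m₀, hm₀⟩ := eventually_atTop.1 (h1.eventually (gt_mem_nhds hε))
  exact ⟨m₀, fun m hm => (hm₀ m hm).le⟩

variable {E : Type} [NormedRing E] [NormedAlgebra ℚ_[ℓ] E] {Γ : Type} [Group Γ] {φ : Γ →* E}

theorem tan_zero : Tan ℓ φ (0 : E) := by
  intro ε hε
  refine ⟨0, fun m _ => ⟨1, ?_⟩⟩
  rw [map_one, sub_self, smul_zero, sub_zero, norm_zero]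
  have := q_pos (ℓ := ℓ)
  positivity

theorem tan_add {X Y : E} (hX : Tan ℓ φ X) (hY : Tan ℓ φ Y) : Tan ℓ φ (X + Y) := by
  intro ε hε
  have hq := q_pos (ℓ := ℓ)
  obtain ⟨ε', hε'⟩ : ∃ ε', ε' = min (ε / 3) 1 := ⟨_, rfl⟩
  have h0 : 0 < ε' := by rw [hε']; exact lt_min (by linarith) one_pos
  have h1 : ε' ≤ ε / 3 := by rw [hε']; exact min_le_left _ _
  have h2 : ε' ≤ 1 := by rw [hε']; exact min_le_right _ _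
  obtain ⟨m₁, hm₁⟩ := hX ε' h0
  obtain ⟨m₂, hm₂⟩ := hY ε' h0
  obtain ⟨m₃, hm₃⟩ := ev_small (ℓ := ℓ) ((‖X‖ + 1) * (‖Y‖ + 1)) (ε / 3) (by linarith)
  refine ⟨max m₁ (max m₂ m₃), fun m hm => ?_⟩
  obtain ⟨γ, hγ⟩ := hm₁ m ((le_max_left _ _).trans hm)
  obtain ⟨δ, hδ⟩ := hm₂ m (((le_max_left _ _).trans (le_max_right _ _)).trans hm)
  have h3 := hm₃ m (((le_max_right _ _).trans (le_max_right _ _)).trans hm)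
  have hqm : 0 < ((ℓ : ℝ)⁻¹) ^ m := pow_pos hq m
  have key : ∀ (Z : E) (η : Γ), ‖φ η - 1 - ((ℓ : ℚ_[ℓ]) ^ m) • Z‖ ≤ ε' * ((ℓ : ℝ)⁻¹) ^ m →
      ‖φ η - 1‖ ≤ (‖Z‖ + 1) * ((ℓ : ℝ)⁻¹) ^ m := by
    intro Z η h
    have e1 : φ η - 1 = (φ η - 1 - ((ℓ : ℚ_[ℓ]) ^ m) • Z) + ((ℓ : ℚ_[ℓ]) ^ m) • Z := by abel
    rw [e1]
    refine (norm_add_le _ _).trans ?_
    rw [norm_pow_smul]
    nlinarith
  refine ⟨γ * δ, ?_⟩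
  have e1 : φ (γ * δ) - 1 - ((ℓ : ℚ_[ℓ]) ^ m) • (X + Y) =
      (φ γ - 1 - ((ℓ : ℚ_[ℓ]) ^ m) • X) + (φ δ - 1 - ((ℓ : ℚ_[ℓ]) ^ m) • Y) +
        (φ γ - 1) * (φ δ - 1) := by
    rw [map_mul, smul_add]
    noncomm_ring
  rw [e1]
  refine (norm_add_le _ _).trans ?_
  have h4 := norm_add_le (φ γ - 1 - ((ℓ : ℚ_[ℓ]) ^ m) • X) (φ δ - 1 - ((ℓ : ℚ_[ℓ]) ^ m) • Y)
  have h5 : ‖(φ γ - 1) * (φ δ - 1)‖ ≤ ε / 3 * ((ℓ : ℝ)⁻¹) ^ m := by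
    calc ‖(φ γ - 1) * (φ δ - 1)‖ ≤ ‖φ γ - 1‖ * ‖φ δ - 1‖ := norm_mul_le _ _
      _ ≤ ((‖X‖ + 1) * ((ℓ : ℝ)⁻¹) ^ m) * ((‖Y‖ + 1) * ((ℓ : ℝ)⁻¹) ^ m) :=
          mul_le_mul (key X γ hγ) (key Y δ hδ) (norm_nonneg _) (by positivity)
      _ = ((‖X‖ + 1) * (‖Y‖ + 1) * ((ℓ : ℝ)⁻¹) ^ m) * ((ℓ : ℝ)⁻¹) ^ m := by ring
      _ ≤ ε / 3 * ((ℓ : ℝ)⁻¹) ^ m := mul_le_mul_of_nonneg_right h3 hqm.le
  have h6 : ε' * ((ℓ : ℝ)⁻¹) ^ m ≤ ε / 3 * ((ℓ : ℝ)⁻¹) ^ m :=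
    mul_le_mul_of_nonneg_right h1 hqm.le
  linarith

theorem tan_nat {X : E} (hX : Tan ℓ φ X) (n : ℕ) : Tan ℓ φ ((n : ℚ_[ℓ]) • X) := by
  induction n with
  | zero => simpa using (tan_zero (φ := φ))
  | succ n ih =>
    have := tan_add ih hX
    have e1 : (n : ℚ_[ℓ]) • X + X = (((n + 1 : ℕ) : ℚ_[ℓ])) • X := by
      push_cast
      rw [add_smul, one_smul]
    rwa [e1] at this

theorem near_nat (c : ℚ_[ℓ]) (hc : ‖c‖ ≤ 1) (δ : ℝ) (hδ : 0 < δ) :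
    ∃ n : ℕ, ‖c - (n : ℚ_[ℓ])‖ ≤ δ := by
  obtain ⟨m, hm⟩ := ev_small (ℓ := ℓ) 1 δ hδ
  obtain ⟨z, hz⟩ : ∃ z : ℤ_[ℓ], (z : ℚ_[ℓ]) = c := ⟨⟨c, hc⟩, rfl⟩
  refine ⟨PadicInt.appr z m, ?_⟩
  have h1 : ‖z - (PadicInt.appr z m : ℤ_[ℓ])‖ ≤ (ℓ : ℝ) ^ (-(m : ℤ)) := by
    rw [PadicInt.norm_le_pow_iff_mem_span_pow]
    exact PadicInt.appr_spec m z
  have h2 : ‖c - ((PadicInt.appr z m : ℕ) : ℚ_[ℓ])‖ = ‖z - (PadicInt.appr z m : ℤ_[ℓ])‖ := by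
    rw [← hz, PadicInt.norm_def]
    push_cast
    rfl
  rw [h2]
  refine h1.trans ?_
  have h3 := hm m le_rfl
  rw [one_mul, inv_pow] at h3
  rw [zpow_neg, zpow_natCast]
  exact h3

theorem tan_int {X : E} (hX : Tan ℓ φ X) (c : ℚ_[ℓ]) (hc : ‖c‖ ≤ 1) : Tan ℓ φ (c • X) := by
  intro ε hε
  obtain ⟨n, hn⟩ := near_nat c hc (ε / 2 / (‖X‖ + 1)) (by positivity)
  obtain ⟨m₀, hm₀⟩ := tan_nat hX n (ε / 2) (by linarith)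
  refine ⟨m₀, fun m hm => ?_⟩
  obtain ⟨γ, hγ⟩ := hm₀ m hm
  refine ⟨γ, ?_⟩
  have hqm : 0 < ((ℓ : ℝ)⁻¹) ^ m := pow_pos q_pos m
  have e1 : φ γ - 1 - ((ℓ : ℚ_[ℓ]) ^ m) • (c • X) =
      (φ γ - 1 - ((ℓ : ℚ_[ℓ]) ^ m) • ((n : ℚ_[ℓ]) • X)) -
        ((ℓ : ℚ_[ℓ]) ^ m) • ((c - (n : ℚ_[ℓ])) • X) := by
    rw [sub_smul, smul_sub]; abel
  rw [e1]
  refine (norm_sub_le _ _).trans ?_
  rw [norm_pow_smul, norm_smul]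
  have h1 : ‖c - (n : ℚ_[ℓ])‖ * ‖X‖ ≤ ε / 2 := by
    have h2 : ε / 2 / (‖X‖ + 1) * ‖X‖ ≤ ε / 2 := by
      rw [div_mul_eq_mul_div, div_le_iff₀ (by positivity)]
      have := norm_nonneg X
      nlinarith
    exact (mul_le_mul_of_nonneg_right hn (norm_nonneg _)).trans h2
  have h2 : ((ℓ : ℝ)⁻¹) ^ m * (‖c - (n : ℚ_[ℓ])‖ * ‖X‖) ≤ ((ℓ : ℝ)⁻¹) ^ m * (ε / 2) :=
    mul_le_mul_of_nonneg_left h1 hqm.le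
  linarith

theorem tan_inv {X : E} (hX : Tan ℓ φ X) : Tan ℓ φ ((ℓ : ℚ_[ℓ])⁻¹ • X) := by
  intro ε hε
  have hl0 : (ℓ : ℚ_[ℓ]) ≠ 0 := by exact_mod_cast (Fact.out : ℓ.Prime).ne_zero
  have hq := q_pos (ℓ := ℓ)
  obtain ⟨m₀, hm₀⟩ := hX (ε * (ℓ : ℝ)⁻¹) (by positivity)
  refine ⟨m₀ + 1, fun m hm => ?_⟩
  obtain ⟨k, rfl⟩ : ∃ k, m = k + 1 := ⟨m - 1, by omega⟩
  obtain ⟨γ, hγ⟩ := hm₀ k (by omega)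
  refine ⟨γ, ?_⟩
  have e1 : ((ℓ : ℚ_[ℓ]) ^ (k + 1)) • ((ℓ : ℚ_[ℓ])⁻¹ • X) = ((ℓ : ℚ_[ℓ]) ^ k) • X := by
    rw [smul_smul, pow_succ, mul_assoc, mul_inv_cancel₀ hl0, mul_one]
  rw [e1]
  refine hγ.trans (le_of_eq ?_)
  rw [pow_succ]
  ring

theorem tan_smul {X : E} (hX : Tan ℓ φ X) (c : ℚ_[ℓ]) : Tan ℓ φ (c • X) := by
  have hl0 : (ℓ : ℚ_[ℓ]) ≠ 0 := by exact_mod_cast (Fact.out : ℓ.Prime).ne_zero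
  have hinv : ∀ j : ℕ, Tan ℓ φ (((ℓ : ℚ_[ℓ])⁻¹ ^ j) • X) := by
    intro j
    induction j with
    | zero => simpa using hX
    | succ j ih =>
      have := tan_inv ih
      rwa [smul_smul, ← pow_succ'] at this
  obtain ⟨j, hj⟩ := ev_small (ℓ := ℓ) ‖c‖ 1 one_pos
  have h1 : ‖c * (ℓ : ℚ_[ℓ]) ^ j‖ ≤ 1 := by
    rw [norm_mul, norm_pow, Padic.norm_p]
    exact hj j le_rfl
  have h2 := tan_int (hinv j) _ h1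
  have e1 : (c * (ℓ : ℚ_[ℓ]) ^ j) • (((ℓ : ℚ_[ℓ])⁻¹ ^ j) • X) = c • X := by
    rw [smul_smul, mul_assoc, ← mul_pow, mul_inv_cancel₀ hl0, one_pow, mul_one]
  rwa [e1] at h2

end TAN1

theorem t_TAN1 : S_TAN1 := by
  intro ℓ _ E _ _ Γ _ φ
  exact ⟨fun X Y hX hY => TAN1.tan_add hX hY, fun c X hX => TAN1.tan_smul hX c⟩

end Pool.Agent.Helper49P

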