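import Pool.Agent.Helper49P.TAN1

/-!
# Piece TAN2 of project RK: conjugates, limits and brackets of tangent vectors
-/

set_option autoImplicit false

namespace Pool.Agent.Helper49P

open Filter Topology Module

namespace TAN2

open TAN1

variable {ℓ : ℕ} [Fact ℓ.Prime]
variable {E : Type} [NormedRing E] [NormedAlgebra ℚ_[ℓ] E] {Γ : Type} [Group Γ] {φ : Γ →* E}

theorem conj {X : E} (δ : Γ) (hX : Tan ℓ φ X) : Tan ℓ φ (φ δ * X * φ δ⁻¹) := by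
  intro ε hε
  obtain ⟨C, hC⟩ : ∃ C, C = ‖φ δ‖ * ‖φ δ⁻¹‖ + 1 := ⟨_, rfl⟩
  have hC0 : 0 < C := by rw [hC]; positivity
  obtain ⟨m₀, hm₀⟩ := hX (ε / C) (by positivity)
  refine ⟨m₀, fun m hm => ?_⟩
  obtain ⟨γ, hγ⟩ := hm₀ m hm
  refine ⟨δ * γ * δ⁻¹, ?_⟩
  have hqm : 0 < ((ℓ : ℝ)⁻¹) ^ m := pow_pos q_pos m
  have h1 : φ δ * φ δ⁻¹ = 1 := by rw [← map_mul, mul_inv_cancel, map_one]
  have e1 : φ (δ * γ * δ⁻¹) - 1 - ((ℓ : ℚ_[ℓ]) ^ m) • (φ δ * X * φ δ⁻¹) =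
      φ δ * (φ γ - 1 - ((ℓ : ℚ_[ℓ]) ^ m) • X) * φ δ⁻¹ := by
    rw [map_mul, map_mul, mul_sub, mul_sub, sub_mul, sub_mul, mul_one, h1, mul_smul_comm,
      smul_mul_assoc]
  rw [e1]
  calc ‖φ δ * (φ γ - 1 - ((ℓ : ℚ_[ℓ]) ^ m) • X) * φ δ⁻¹‖
      ≤ ‖φ δ‖ * ‖φ γ - 1 - ((ℓ : ℚ_[ℓ]) ^ m) • X‖ * ‖φ δ⁻¹‖ :=
        (norm_mul_le _ _).trans (mul_le_mul_of_nonneg_right (norm_mul_le _ _) (norm_nonneg _))
    _ = (‖φ δ‖ * ‖φ δ⁻¹‖) * ‖φ γ - 1 - ((ℓ : ℚ_[ℓ]) ^ m) • X‖ := by ring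
    _ ≤ C * (ε / C * ((ℓ : ℝ)⁻¹) ^ m) :=
        mul_le_mul (by rw [hC]; linarith) hγ (norm_nonneg _) hC0.le
    _ = ε * ((ℓ : ℝ)⁻¹) ^ m := by field_simp

theorem closed : IsClosed {X : E | Tan ℓ φ X} := by
  rw [← isSeqClosed_iff_isClosed]
  intro u X hu hlim
  intro ε hε
  obtain ⟨N, hN⟩ := Metric.tendsto_atTop.1 hlim (ε / 2) (by linarith)
  obtain ⟨m₀, hm₀⟩ := hu N (ε / 2) (by linarith)
  refine ⟨m₀, fun m hm => ?_⟩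
  obtain ⟨γ, hγ⟩ := hm₀ m hm
  refine ⟨γ, ?_⟩
  have hqm : 0 < ((ℓ : ℝ)⁻¹) ^ m := pow_pos q_pos m
  have e1 : φ γ - 1 - ((ℓ : ℚ_[ℓ]) ^ m) • X =
      (φ γ - 1 - ((ℓ : ℚ_[ℓ]) ^ m) • (u N)) + ((ℓ : ℚ_[ℓ]) ^ m) • (u N - X) := by
    rw [smul_sub]; abel
  rw [e1]
  refine (norm_add_le _ _).trans ?_
  rw [norm_pow_smul]
  have h1 : ‖u N - X‖ ≤ ε / 2 := by
    rw [← dist_eq_norm]
    exact (hN N le_rfl).le
  have h2 := mul_le_mul_of_nonneg_left h1 hqm.le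
  linarith

theorem bracket {X Y : E} (hX : Tan ℓ φ X) (hY : Tan ℓ φ Y) : Tan ℓ φ (X * Y - Y * X) := by
  have hmem : (X * Y - Y * X) ∈ closure {Z : E | Tan ℓ φ Z} := by
    rw [Metric.mem_closure_iff]
    intro ε hε
    obtain ⟨e, he⟩ : ∃ e, e = ‖(1 : E)‖ := ⟨_, rfl⟩
    have he0 : 0 ≤ e := by rw [he]; exact norm_nonneg _
    -- the constants
    obtain ⟨ε', hε'⟩ : ∃ ε', ε' = min 1 (ε / (4 * (2 * e + 1) * (‖Y‖ + 1))) := ⟨_, rfl⟩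
    have hY0 := norm_nonneg Y
    have hX0 := norm_nonneg X
    have hpos : 0 < 4 * (2 * e + 1) * (‖Y‖ + 1) := by positivity
    have h0 : 0 < ε' := by rw [hε']; exact lt_min one_pos (by positivity)
    have h1 : ε' ≤ 1 := by rw [hε']; exact min_le_left _ _
    have h2 : ε' ≤ ε / (4 * (2 * e + 1) * (‖Y‖ + 1)) := by rw [hε']; exact min_le_right _ _
    obtain ⟨m₁, hm₁⟩ := hX ε' h0
    obtain ⟨m₂, hm₂⟩ := ev_small (ℓ := ℓ) (‖X‖ + 1) (1 / 2) (by norm_num)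
    obtain ⟨m₃, hm₃⟩ := ev_small (ℓ := ℓ) ((‖X * Y - Y * X‖ + 1) * (2 * e + 1) * (‖X‖ + 1))
      (ε / 4) (by linarith)
    obtain ⟨m, hm⟩ : ∃ m, m = max m₁ (max m₂ m₃) := ⟨_, rfl⟩
    obtain ⟨γ, hγ⟩ := hm₁ m (by rw [hm]; exact le_max_left _ _)
    have h3 := hm₂ m (by rw [hm]; exact (le_max_left _ _).trans (le_max_right _ _))
    have h4 := hm₃ m (by rw [hm]; exact (le_max_right _ _).trans (le_max_right _ _))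
    have hqm : 0 < ((ℓ : ℝ)⁻¹) ^ m := pow_pos q_pos m
    have hl0 : (ℓ : ℚ_[ℓ]) ≠ 0 := by exact_mod_cast (Fact.out : ℓ.Prime).ne_zero
    have hlm : ((ℓ : ℚ_[ℓ]) ^ m) ≠ 0 := pow_ne_zero _ hl0
    obtain ⟨a, ha⟩ : ∃ a, a = φ γ - 1 - ((ℓ : ℚ_[ℓ]) ^ m) • X := ⟨_, rfl⟩
    rw [← ha] at hγ
    have hφ : φ γ = 1 + ((ℓ : ℚ_[ℓ]) ^ m) • X + a := by rw [ha]; abel
    have ht : ‖φ γ - 1‖ ≤ (‖X‖ + 1) * ((ℓ : ℝ)⁻¹) ^ m := by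
      have e1 : φ γ - 1 = a + ((ℓ : ℚ_[ℓ]) ^ m) • X := by rw [ha]; abel
      rw [e1]
      refine (norm_add_le _ _).trans ?_
      rw [norm_pow_smul]
      nlinarith
    have hinv : φ γ⁻¹ * φ γ = 1 := by rw [← map_mul, inv_mul_cancel, map_one]
    have hinv' : φ γ * φ γ⁻¹ = 1 := by rw [← map_mul, mul_inv_cancel, map_one]
    have hi1 : φ γ⁻¹ - 1 = -(φ γ⁻¹ * (φ γ - 1)) := by
      rw [mul_sub, hinv, mul_one]; abel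
    have hi2 : ‖φ γ⁻¹‖ ≤ 2 * e := by
      have h5 : ‖φ γ⁻¹‖ ≤ ‖φ γ⁻¹‖ * (1 / 2) + e := by
        have e1 : φ γ⁻¹ = (φ γ⁻¹ - 1) + 1 := by abel
        calc ‖φ γ⁻¹‖ = ‖(φ γ⁻¹ - 1) + 1‖ := by rw [← e1]
          _ ≤ ‖φ γ⁻¹ - 1‖ + ‖(1 : E)‖ := norm_add_le _ _
          _ ≤ ‖φ γ⁻¹‖ * (1 / 2) + e := by
              rw [hi1, norm_neg, ← he]
              have h6 : ‖φ γ⁻¹ * (φ γ - 1)‖ ≤ ‖φ γ⁻¹‖ * (1 / 2) :=
                (norm_mul_le _ _).trans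
                  (mul_le_mul_of_nonneg_left (ht.trans h3) (norm_nonneg _))
              linarith
      linarith
    have hi3 : ‖φ γ⁻¹ - 1‖ ≤ (2 * e + 1) * ((‖X‖ + 1) * ((ℓ : ℝ)⁻¹) ^ m) := by
      rw [hi1, norm_neg]
      exact (norm_mul_le _ _).trans (mul_le_mul (by linarith) ht (norm_nonneg _) (by positivity))
    -- the tangent vector
    obtain ⟨Z, hZ⟩ : ∃ Z, Z = (((ℓ : ℚ_[ℓ]) ^ m)⁻¹) • (φ γ * Y * φ γ⁻¹ + (-1 : ℚ_[ℓ]) • Y) :=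
      ⟨_, rfl⟩
    refine ⟨Z, ?_, ?_⟩
    · show Tan ℓ φ Z
      rw [hZ]
      exact tan_smul (tan_add (conj γ hY) (tan_smul hY _)) _
    · have e1 : φ γ * Y * φ γ⁻¹ + (-1 : ℚ_[ℓ]) • Y = (φ γ * Y - Y * φ γ) * φ γ⁻¹ := by
        rw [neg_smul, one_smul, sub_mul, mul_assoc Y, hinv', mul_one]
        abel
      have e2 : φ γ * Y - Y * φ γ = ((ℓ : ℚ_[ℓ]) ^ m) • (X * Y - Y * X) + (a * Y - Y * a) := by
        rw [hφ]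
        simp only [add_mul, mul_add, one_mul, mul_one, smul_mul_assoc, mul_smul_comm, smul_sub]
        abel
      have e3 : (X * Y - Y * X) - Z = -((X * Y - Y * X) * (φ γ⁻¹ - 1)) -
          (((ℓ : ℚ_[ℓ]) ^ m)⁻¹) • ((a * Y - Y * a) * φ γ⁻¹) := by
        rw [hZ, e1, e2, add_mul, smul_add, smul_mul_assoc, smul_smul, inv_mul_cancel₀ hlm,
          one_smul, mul_sub, mul_one]
        abel
      rw [dist_eq_norm, e3]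
      have h5 : ‖(X * Y - Y * X) * (φ γ⁻¹ - 1)‖ ≤ ε / 4 := by
        calc ‖(X * Y - Y * X) * (φ γ⁻¹ - 1)‖ ≤ ‖X * Y - Y * X‖ * ‖φ γ⁻¹ - 1‖ := norm_mul_le _ _
          _ ≤ (‖X * Y - Y * X‖ + 1) * ((2 * e + 1) * ((‖X‖ + 1) * ((ℓ : ℝ)⁻¹) ^ m)) :=
              mul_le_mul (by linarith) hi3 (norm_nonneg _) (by positivity)
          _ = (‖X * Y - Y * X‖ + 1) * (2 * e + 1) * (‖X‖ + 1) * ((ℓ : ℝ)⁻¹) ^ m := by ring
          _ ≤ ε / 4 := h4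
      have h6 : ‖(((ℓ : ℚ_[ℓ]) ^ m)⁻¹) • ((a * Y - Y * a) * φ γ⁻¹)‖ ≤ ε / 2 := by
        rw [norm_smul, norm_inv, norm_pow, Padic.norm_p]
        have h7 : ‖(a * Y - Y * a) * φ γ⁻¹‖ ≤
            (2 * (ε' * ((ℓ : ℝ)⁻¹) ^ m) * ‖Y‖) * (2 * e) := by
          refine (norm_mul_le _ _).trans (mul_le_mul ?_ hi2 (norm_nonneg _) (by positivity))
          refine (norm_sub_le _ _).trans ?_
          have h8 : ‖a * Y‖ ≤ (ε' * ((ℓ : ℝ)⁻¹) ^ m) * ‖Y‖ :=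
            (norm_mul_le _ _).trans (mul_le_mul_of_nonneg_right hγ hY0)
          have h9 : ‖Y * a‖ ≤ ‖Y‖ * (ε' * ((ℓ : ℝ)⁻¹) ^ m) :=
            (norm_mul_le _ _).trans (mul_le_mul_of_nonneg_left hγ hY0)
          linarith
        have h8 : (((ℓ : ℝ)⁻¹) ^ m)⁻¹ * ((2 * (ε' * ((ℓ : ℝ)⁻¹) ^ m) * ‖Y‖) * (2 * e)) =
            4 * e * ‖Y‖ * ε' := by
          have key : ∀ t : ℝ, t ≠ 0 → t⁻¹ * ((2 * (ε' * t) * ‖Y‖) * (2 * e)) =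
              4 * e * ‖Y‖ * ε' := by
            intro t ht
            have h9 : t⁻¹ * t = 1 := inv_mul_cancel₀ ht
            calc t⁻¹ * ((2 * (ε' * t) * ‖Y‖) * (2 * e)) = (t⁻¹ * t) * (4 * e * ‖Y‖ * ε') := by ring
              _ = 4 * e * ‖Y‖ * ε' := by rw [h9, one_mul]
          exact key _ hqm.ne'
        calc (((ℓ : ℝ)⁻¹) ^ m)⁻¹ * ‖(a * Y - Y * a) * φ γ⁻¹‖
            ≤ (((ℓ : ℝ)⁻¹) ^ m)⁻¹ * ((2 * (ε' * ((ℓ : ℝ)⁻¹) ^ m) * ‖Y‖) * (2 * e)) :=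
              mul_le_mul_of_nonneg_left h7 (by positivity)
          _ = 4 * e * ‖Y‖ * ε' := h8
          _ ≤ 4 * e * ‖Y‖ * (ε / (4 * (2 * e + 1) * (‖Y‖ + 1))) :=
              mul_le_mul_of_nonneg_left h2 (by positivity)
          _ ≤ ε / 2 := by
              rw [mul_div_assoc', div_le_div_iff₀ hpos (by norm_num)]
              have : 0 ≤ e * ‖Y‖ := by positivity
              nlinarith
      refine lt_of_le_of_lt (norm_sub_le _ _) ?_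
      rw [norm_neg]
      linarith
  rw [closed.closure_eq] at hmem
  exact hmem

end TAN2

theorem t_TAN2 : S_TAN2 := by
  intro ℓ _ E _ _ Γ _ φ _
  exact ⟨fun X δ hX => TAN2.conj δ hX, TAN2.closed, fun X Y hX hY => TAN2.bracket hX hY⟩

end Pool.Agent.Helper49P
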