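import Pool.Agent.Helper49P.Stm2

/-!
# Piece WNUM: the logarithm of a Frobenius element is not orthogonal to the weight operator
-/

set_option autoImplicit false

namespace Pool.Agent.Helper49P.WnumAux

open Filter Topology Module Polynomial

section padic

variable {ℓ : ℕ} [Fact ℓ.Prime]

/-- `(1 + x) ^ n` up to `x ^ 2` -/
theorem one_add_pow (x : ℚ_[ℓ]) (hx : ‖x‖ ≤ 1) (n : ℕ) :
    ∃ c : ℚ_[ℓ], ‖c‖ ≤ 1 ∧ (1 + x) ^ n = 1 + n * x + x ^ 2 * c := by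
  induction n with
  | zero => exact ⟨0, by simp, by simp⟩
  | succ n ih =>
    obtain ⟨c, hc, h⟩ := ih
    refine ⟨n + c + x * c, ?_, ?_⟩
    · refine (Padic.nonarchimedean _ _).trans (max_le ?_ ?_)
      · refine (Padic.nonarchimedean _ _).trans (max_le ?_ hc)
        have := Padic.norm_int_le_one (p := ℓ) (n : ℤ)
        exact_mod_cast this
      · rw [norm_mul]
        exact mul_le_one₀ hx (norm_nonneg _) hc
    · rw [pow_succ, h]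
      push_cast
      ring

theorem norm_pow_sub_one {x : ℚ_[ℓ]} (hx : ‖x‖ ≤ ((ℓ : ℝ)⁻¹) ^ 2) :
    ‖(1 + x) ^ ℓ - 1‖ = (ℓ : ℝ)⁻¹ * ‖x‖ := by
  have hl : (1 : ℝ) < ℓ := by exact_mod_cast (Fact.out : ℓ.Prime).one_lt
  have hl0 : (0 : ℝ) < ℓ := by linarith
  have hinv : (ℓ : ℝ)⁻¹ < 1 := inv_lt_one_of_one_lt₀ hl
  have hinv0 : (0 : ℝ) < (ℓ : ℝ)⁻¹ := inv_pos.2 hl0
  rcases eq_or_ne x 0 with rfl | hx0
  · simp
  have hx1 : ‖x‖ ≤ 1 := hx.trans (pow_le_one₀ hinv0.le hinv.le)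
  obtain ⟨c, hc, h⟩ := one_add_pow x hx1 ℓ
  have hxp : 0 < ‖x‖ := norm_pos_iff.2 hx0
  have e : (1 + x) ^ ℓ - 1 = ℓ * x + x ^ 2 * c := by rw [h]; ring
  have h1 : ‖(ℓ : ℚ_[ℓ]) * x‖ = (ℓ : ℝ)⁻¹ * ‖x‖ := by rw [norm_mul, Padic.norm_p]
  have h2 : ‖x ^ 2 * c‖ < ‖(ℓ : ℚ_[ℓ]) * x‖ := by
    rw [h1, norm_mul, norm_pow]
    calc ‖x‖ ^ 2 * ‖c‖ ≤ ‖x‖ ^ 2 * 1 := by gcongr
      _ = ‖x‖ * ‖x‖ := by ring
      _ ≤ ((ℓ : ℝ)⁻¹) ^ 2 * ‖x‖ := by gcongr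
      _ = (ℓ : ℝ)⁻¹ * ((ℓ : ℝ)⁻¹ * ‖x‖) := by ring
      _ < 1 * ((ℓ : ℝ)⁻¹ * ‖x‖) := by
          apply mul_lt_mul_of_pos_right hinv (by positivity)
      _ = (ℓ : ℝ)⁻¹ * ‖x‖ := one_mul _
  rw [e, Padic.add_eq_max_of_ne h2.ne', max_eq_left h2.le, h1]

theorem norm_pow_pow_sub_one {g : ℚ_[ℓ]} (hg : ‖g - 1‖ ≤ ((ℓ : ℝ)⁻¹) ^ 2) (k : ℕ) :
    ‖g ^ (ℓ ^ k) - 1‖ = ((ℓ : ℝ)⁻¹) ^ k * ‖g - 1‖ := by
  have hl : (1 : ℝ) < ℓ := by exact_mod_cast (Fact.out : ℓ.Prime).one_lt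
  have hl0 : (0 : ℝ) < ℓ := by linarith
  have hinv : (ℓ : ℝ)⁻¹ < 1 := inv_lt_one_of_one_lt₀ hl
  have hinv0 : (0 : ℝ) < (ℓ : ℝ)⁻¹ := inv_pos.2 hl0
  induction k with
  | zero => simp
  | succ k ih =>
    have h1 : ‖g ^ (ℓ ^ k) - 1‖ ≤ ((ℓ : ℝ)⁻¹) ^ 2 := by
      rw [ih]
      calc ((ℓ : ℝ)⁻¹) ^ k * ‖g - 1‖ ≤ 1 * ‖g - 1‖ := by
            gcongr
            exact pow_le_one₀ hinv0.le hinv.le
        _ ≤ _ := by rw [one_mul]; exact hg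
    have h2 := norm_pow_sub_one h1
    have e : 1 + (g ^ (ℓ ^ k) - 1) = g ^ (ℓ ^ k) := by ring
    rw [e, ← pow_mul, ← pow_succ, ih] at h2
    rw [h2, pow_succ]
    ring

/-- `α` is the logarithm of `a` -/
def HasL (ℓ : ℕ) [Fact ℓ.Prime] (a α : ℚ_[ℓ]) : Prop :=
  Tendsto (fun k : ℕ => (((ℓ : ℚ_[ℓ]) ^ k)⁻¹) * (a ^ (ℓ ^ k) - 1)) atTop (𝓝 α)

theorem tendsto_l_pow : Tendsto (fun k : ℕ => (ℓ : ℚ_[ℓ]) ^ k) atTop (𝓝 0) := by
  apply tendsto_pow_atTop_nhds_zero_of_norm_lt_one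
  rw [Padic.norm_p]
  exact inv_lt_one_of_one_lt₀ (by exact_mod_cast (Fact.out : ℓ.Prime).one_lt)

theorem l_ne (k : ℕ) : ((ℓ : ℚ_[ℓ]) ^ k) ≠ 0 := by
  apply pow_ne_zero
  exact_mod_cast (Fact.out : ℓ.Prime).ne_zero

theorem HasL.tendsto {a α : ℚ_[ℓ]} (h : HasL ℓ a α) :
    Tendsto (fun k : ℕ => a ^ (ℓ ^ k)) atTop (𝓝 1) := by
  have h1 := (tendsto_l_pow (ℓ := ℓ)).mul h
  rw [zero_mul] at h1
  have h2 := h1.add_const 1
  rw [zero_add] at h2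
  refine h2.congr fun k => ?_
  rw [← mul_assoc, mul_inv_cancel₀ (l_ne k)]
  ring

theorem HasL.mul {a b α β : ℚ_[ℓ]} (ha : HasL ℓ a α) (hb : HasL ℓ b β) :
    HasL ℓ (a * b) (α + β) := by
  have h1 := (Tendsto.mul ha hb.tendsto).add hb
  rw [mul_one] at h1
  refine h1.congr fun k => ?_
  rw [mul_pow]
  ring

theorem HasL.inv {a α : ℚ_[ℓ]} (ha : HasL ℓ a α) (h0 : a ≠ 0) : HasL ℓ a⁻¹ (-α) := by
  have h1 := ha.tendsto.inv₀ one_ne_zero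
  rw [inv_one] at h1
  have h2 := (Tendsto.mul ha h1).neg
  rw [mul_one] at h2
  refine h2.congr fun k => ?_
  have h3 : a ^ (ℓ ^ k) ≠ 0 := pow_ne_zero _ h0
  rw [inv_pow]
  field_simp
  ring

theorem HasL.one : HasL ℓ 1 0 := by
  unfold HasL
  simp

theorem HasL.pow {a α : ℚ_[ℓ]} (ha : HasL ℓ a α) (n : ℕ) : HasL ℓ (a ^ n) (n * α) := by
  induction n with
  | zero => simpa using HasL.one (ℓ := ℓ)
  | succ n ih =>
    have := ih.mul ha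
    rw [pow_succ]
    have e : ((n + 1 : ℕ) : ℚ_[ℓ]) * α = n * α + α := by push_cast; ring
    rw [e]
    exact this

theorem HasL.zpow {a α : ℚ_[ℓ]} (ha : HasL ℓ a α) (h0 : a ≠ 0) (n : ℤ) :
    HasL ℓ (a ^ n) (n * α) := by
  cases n with
  | ofNat n => simpa using ha.pow n
  | negSucc n =>
    have := (ha.pow (n + 1)).inv (pow_ne_zero _ h0)
    rw [zpow_negSucc]
    have e : ((Int.negSucc n : ℤ) : ℚ_[ℓ]) * α = -(((n + 1 : ℕ) : ℚ_[ℓ]) * α) := by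
      rw [Int.negSucc_eq]
      push_cast
      ring
    rw [e]
    exact this

theorem HasL.prod {ι : Type} (s : Finset ι) {a α : ι → ℚ_[ℓ]} (h : ∀ i ∈ s, HasL ℓ (a i) (α i)) :
    HasL ℓ (∏ i ∈ s, a i) (∑ i ∈ s, α i) := by
  classical
  induction s using Finset.induction_on with
  | empty => simpa using HasL.one (ℓ := ℓ)
  | insert i s hi ih =>
    rw [Finset.prod_insert hi, Finset.sum_insert hi]
    exact (h i (Finset.mem_insert_self _ _)).mul (ih fun j hj => h j (Finset.mem_insert_of_mem hj))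

/-- an element close to `1` with logarithm `0` is `1` -/
theorem HasL.eq_one {g : ℚ_[ℓ]} (h : HasL ℓ g 0) (hg : ‖g - 1‖ ≤ ((ℓ : ℝ)⁻¹) ^ 2) : g = 1 := by
  have hl0 : (ℓ : ℝ) ≠ 0 := by exact_mod_cast (Fact.out : ℓ.Prime).ne_zero
  have h1 := h.norm
  have h2 : (fun k : ℕ => ‖(((ℓ : ℚ_[ℓ]) ^ k)⁻¹) * (g ^ (ℓ ^ k) - 1)‖) = fun _ => ‖g - 1‖ := by
    funext k
    rw [norm_mul, norm_pow_pow_sub_one hg, norm_inv, norm_pow, Padic.norm_p, ← mul_assoc,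
      inv_mul_cancel₀ (pow_ne_zero _ (inv_ne_zero hl0)), one_mul]
  rw [h2, norm_zero] at h1
  have h3 := tendsto_nhds_unique h1 tendsto_const_nhds
  rw [eq_comm, norm_eq_zero, sub_eq_zero] at h3
  exact h3

/-- elements close to one -/
theorem near_mul {c : ℝ} (hc1 : c ≤ 1) {a b : ℚ_[ℓ]} (ha : ‖a - 1‖ ≤ c) (hb : ‖b - 1‖ ≤ c) :
    ‖a * b - 1‖ ≤ c := by
  have e : a * b - 1 = (a - 1) * b + (b - 1) := by ring
  rw [e]
  refine (Padic.nonarchimedean _ _).trans (max_le ?_ hb)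
  have hb1 : ‖b‖ ≤ 1 := by
    have e2 : b = (b - 1) + 1 := by ring
    rw [e2]
    refine (Padic.nonarchimedean _ _).trans (max_le (hb.trans hc1) (by simp))
  rw [norm_mul]
  calc ‖a - 1‖ * ‖b‖ ≤ c * 1 := by
        apply mul_le_mul ha hb1 (norm_nonneg _) ((norm_nonneg _).trans ha)
    _ = c := mul_one _

theorem near_inv {c : ℝ} (hc1 : c < 1) {a : ℚ_[ℓ]} (ha : ‖a - 1‖ ≤ c) :
    a ≠ 0 ∧ ‖a⁻¹ - 1‖ ≤ c := by
  have ha1 : ‖a‖ = 1 := by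
    have e2 : a = (a - 1) + 1 := by ring
    have h : ‖a - 1‖ ≠ ‖(1 : ℚ_[ℓ])‖ := by
      rw [norm_one]
      exact (ha.trans_lt hc1).ne
    rw [e2, Padic.add_eq_max_of_ne h, norm_one]
    exact max_eq_right (ha.trans hc1.le)
  have h0 : a ≠ 0 := by
    rw [← norm_pos_iff, ha1]
    exact one_pos
  refine ⟨h0, ?_⟩
  have e : a⁻¹ - 1 = -(a⁻¹ * (a - 1)) := by field_simp; ring
  rw [e, norm_neg, norm_mul, norm_inv, ha1, inv_one, one_mul]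
  exact ha

theorem near_pow {c : ℝ} (hc0 : 0 ≤ c) (hc1 : c ≤ 1) {a : ℚ_[ℓ]} (ha : ‖a - 1‖ ≤ c) (n : ℕ) :
    ‖a ^ n - 1‖ ≤ c := by
  induction n with
  | zero => simpa using hc0
  | succ n ih =>
    rw [pow_succ]
    exact near_mul hc1 ih ha

theorem near_zpow {c : ℝ} (hc0 : 0 ≤ c) (hc1 : c < 1) {a : ℚ_[ℓ]} (ha : ‖a - 1‖ ≤ c) (n : ℤ) :
    ‖a ^ n - 1‖ ≤ c := by
  cases n with
  | ofNat n => simpa using near_pow hc0 hc1.le ha n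
  | negSucc n =>
    rw [zpow_negSucc]
    exact (near_inv hc1 (near_pow hc0 hc1.le ha _)).2

theorem near_prod {c : ℝ} (hc0 : 0 ≤ c) (hc1 : c ≤ 1) {ι : Type} (s : Finset ι) {a : ι → ℚ_[ℓ]}
    (h : ∀ i ∈ s, ‖a i - 1‖ ≤ c) : ‖∏ i ∈ s, a i - 1‖ ≤ c := by
  classical
  induction s using Finset.induction_on with
  | empty => simpa using hc0
  | insert i s hi ih =>
    rw [Finset.prod_insert hi]
    exact near_mul hc1 (h i (Finset.mem_insert_self _ _))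
      (ih fun j hj => h j (Finset.mem_insert_of_mem hj))

/-- the determinant of a matrix congruent to one is congruent to one -/
theorem near_det {κ : Type} [Fintype κ] [DecidableEq κ] {A : Matrix κ κ ℚ_[ℓ]} {m : ℕ}
    (h : ∀ a b, ‖(A - 1) a b‖ ≤ ((ℓ : ℝ)⁻¹) ^ m) : ‖A.det - 1‖ ≤ ((ℓ : ℝ)⁻¹) ^ m := by
  have hl : (1 : ℝ) < ℓ := by exact_mod_cast (Fact.out : ℓ.Prime).one_lt
  have hl0 : (0 : ℝ) < ℓ := by linarith
  have hinv : (ℓ : ℝ)⁻¹ < 1 := inv_lt_one_of_one_lt₀ hl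
  have hinv0 : (0 : ℝ) < (ℓ : ℝ)⁻¹ := inv_pos.2 hl0
  have hA : ∀ a b, ‖(A - 1) a b‖ ≤ 1 := fun a b => (h a b).trans (pow_le_one₀ hinv0.le hinv.le)
  let M : Matrix κ κ ℤ_[ℓ] := fun a b => ⟨(A - 1) a b, hA a b⟩
  have hM : A = (1 + M).map (algebraMap ℤ_[ℓ] ℚ_[ℓ]) := by
    rw [Matrix.map_add _ (map_add _), Matrix.map_one _ (map_zero _) (map_one _)]
    have : M.map (algebraMap ℤ_[ℓ] ℚ_[ℓ]) = A - 1 := by
      ext a b
      rfl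
    rw [this]
    abel
  have hd : A.det = algebraMap ℤ_[ℓ] ℚ_[ℓ] (1 + M).det := by
    rw [hM]
    exact (RingHom.map_det (algebraMap ℤ_[ℓ] ℚ_[ℓ]) (1 + M)).symm
  have hz : (((ℓ : ℝ)⁻¹) ^ m) = (ℓ : ℝ) ^ (-(m : ℤ)) := by
    rw [zpow_neg, zpow_natCast, inv_pow]
  have hmem : (1 + M).det - 1 ∈ (Ideal.span {(ℓ : ℤ_[ℓ]) ^ m} : Ideal ℤ_[ℓ]) := by
    rw [← Ideal.Quotient.eq, map_one]
    have h1 := RingHom.map_det (Ideal.Quotient.mk (Ideal.span {(ℓ : ℤ_[ℓ]) ^ m})) (1 + M)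
    rw [h1]
    have h2 : (Ideal.Quotient.mk (Ideal.span {(ℓ : ℤ_[ℓ]) ^ m})).mapMatrix (1 + M) = 1 := by
      rw [map_add, map_one]
      have : (Ideal.Quotient.mk (Ideal.span {(ℓ : ℤ_[ℓ]) ^ m})).mapMatrix M = 0 := by
        ext a b
        show Ideal.Quotient.mk _ (M a b) = 0
        rw [Ideal.Quotient.eq_zero_iff_mem, ← PadicInt.norm_le_pow_iff_mem_span_pow, ← hz]
        exact h a b
      rw [this, add_zero]
    rw [h2, Matrix.det_one]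
  have h3 := (PadicInt.norm_le_pow_iff_mem_span_pow _ _).2 hmem
  rw [← hz] at h3
  have h4 : A.det - 1 = (((1 + M).det - 1 : ℤ_[ℓ]) : ℚ_[ℓ]) := by
    rw [hd]
    push_cast
    rfl
  rw [h4]
  exact h3

end padic

/-- the absolute value of the constant coefficient -/
theorem coeff_zero_sq {P : ℚ[X]} (hm : P.Monic) {q : ℝ} {w : ℤ}
    (h : ∀ a ∈ P.aroots ℂ, ‖a‖ ^ 2 = q ^ w) : ((P.coeff 0 : ℚ) : ℝ) ^ 2 = (q ^ w) ^ P.natDegree := by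
  have hm' : (P.map (algebraMap ℚ ℂ)).Monic := hm.map _
  have h1 := (IsAlgClosed.splits (P.map (algebraMap ℚ ℂ))).coeff_zero_eq_prod_roots_of_monic hm'
  have h2 : (P.map (algebraMap ℚ ℂ)).coeff 0 = ((P.coeff 0 : ℚ) : ℂ) := by
    rw [coeff_map]; rfl
  have h3 : ‖((P.coeff 0 : ℚ) : ℂ)‖ = |((P.coeff 0 : ℚ) : ℝ)| := by
    rw [Complex.norm_ratCast]
  have h4 : ∀ s : Multiset ℂ, (∀ a ∈ s, ‖a‖ ^ 2 = q ^ w) →
      ‖s.prod‖ ^ 2 = (q ^ w) ^ s.card := by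
    intro s
    induction s using Multiset.induction_on with
    | empty => simp
    | cons a s ih =>
      intro hs
      rw [Multiset.prod_cons, norm_mul, mul_pow, hs a (Multiset.mem_cons_self _ _),
        ih fun b hb => hs b (Multiset.mem_cons_of_mem hb), Multiset.card_cons, pow_succ]
      ring
  have h5 := h4 (P.aroots ℂ) h
  have h6 : Multiset.card (P.aroots ℂ) = P.natDegree := by
    rw [aroots_def, ← Polynomial.natDegree_map (algebraMap ℚ ℂ)]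
    exact (IsAlgClosed.splits _).natDegree_eq_card_roots.symm
  rw [h6] at h5
  rw [← h5, ← sq_abs, ← h3, ← h2, h1, norm_mul, norm_pow, norm_neg, norm_one, one_pow, one_mul,
    aroots_def]

end Pool.Agent.Helper49P.WnumAux

namespace Pool.Agent.Helper49P

open Filter Topology Module Polynomial WnumAux

theorem wnum_core
  (hDET : ∀ (ℓ : ℕ) [Fact ℓ.Prime] (κ : Type) [Fintype κ] [DecidableEq κ]
  (A : ℕ → Matrix κ κ ℚ_[ℓ]) (B : Matrix κ κ ℚ_[ℓ]),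
  (∀ a b, Tendsto (fun k : ℕ => (((ℓ : ℚ_[ℓ]) ^ k)⁻¹) * (A k - 1) a b) atTop (𝓝 (B a b))) →
  Tendsto (fun k : ℕ => (((ℓ : ℚ_[ℓ]) ^ k)⁻¹) * ((A k).det - 1)) atTop (𝓝 B.trace))
  (ℓ : ℕ) [Fact ℓ.Prime] (ι : Type) [Fintype ι] [DecidableEq ι]
  (n : ι → ℕ) (g X : ∀ i, Matrix (Fin (n i)) (Fin (n i)) ℚ_[ℓ]) (w : ι → ℤ) (q : ℝ) (P : ι → ℚ[X])
  (N : ℕ) (hq : 1 < q) (hN : 0 < N)
  (hP : ∀ i, (g i).charpoly = (P i).map (algebraMap ℚ ℚ_[ℓ]))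
  (hroot : ∀ i, ∀ a ∈ (P i).aroots ℂ, ‖a‖ ^ 2 = q ^ w i)
  (hclose : ∀ i a b, ‖((g i) ^ N - 1) a b‖ ≤ ((ℓ : ℝ)⁻¹) ^ 2)
  (hlim : ∀ i a b, Tendsto (fun k : ℕ => (((ℓ : ℚ_[ℓ]) ^ k)⁻¹) *
    (((g i) ^ N) ^ (ℓ ^ k) - 1) a b) atTop (𝓝 (X i a b)))
  (hsum : ∑ i, (w i : ℚ_[ℓ]) * (X i).trace = 0) : ∀ i, w i = 0 ∨ n i = 0 := by
  have hl : (1 : ℝ) < ℓ := by exact_mod_cast (Fact.out : ℓ.Prime).one_lt
  have hl0 : (0 : ℝ) < ℓ := by linarith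
  have hinv : (ℓ : ℝ)⁻¹ < 1 := inv_lt_one_of_one_lt₀ hl
  have hinv0 : (0 : ℝ) < (ℓ : ℝ)⁻¹ := inv_pos.2 hl0
  have hc1 : ((ℓ : ℝ)⁻¹) ^ 2 < 1 := pow_lt_one₀ hinv0.le hinv (by norm_num)
  have hc0 : (0 : ℝ) ≤ ((ℓ : ℝ)⁻¹) ^ 2 := by positivity
  have hq0 : (0 : ℝ) < q := by linarith
  have hinj : Function.Injective (algebraMap ℚ ℚ_[ℓ]) := (algebraMap ℚ ℚ_[ℓ]).injective
  -- the polynomials
  have hmon : ∀ i, (P i).Monic := fun i => by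
    have h1 := (g i).charpoly_monic
    rw [hP i] at h1
    exact Polynomial.monic_of_injective hinj h1
  have hdeg : ∀ i, (P i).natDegree = n i := fun i => by
    have h1 := (g i).charpoly_natDegree_eq_dim
    rw [hP i, natDegree_map, Fintype.card_fin] at h1
    exact h1
  -- the determinants
  set δ : ι → ℚ := fun i => (-1) ^ (n i) * (P i).coeff 0 with hδ
  have hdet : ∀ i, (g i).det = ((δ i : ℚ) : ℚ_[ℓ]) := fun i => by
    rw [Matrix.det_eq_sign_charpoly_coeff, hP i, coeff_map, Fintype.card_fin, hδ]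
    push_cast
    rw [eq_ratCast]
  have hδsq : ∀ i, ((δ i : ℚ) : ℝ) ^ 2 = (q ^ w i) ^ n i := fun i => by
    rw [← hdeg i, ← coeff_zero_sq (hmon i) (hroot i), hδ]
    push_cast
    rw [mul_pow, ← pow_mul, mul_comm (n i) 2, pow_mul]
    norm_num
  have hδ0 : ∀ i, δ i ≠ 0 := fun i h0 => by
    have h1 := hδsq i
    rw [h0] at h1
    have h2 : (0 : ℝ) < (q ^ w i) ^ n i := pow_pos (zpow_pos hq0 _) _
    rw [← h1] at h2
    norm_num at h2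
  -- the logarithms
  have hnear : ∀ i, ‖((δ i : ℚ) : ℚ_[ℓ]) ^ N - 1‖ ≤ ((ℓ : ℝ)⁻¹) ^ 2 := fun i => by
    rw [← hdet i, ← Matrix.det_pow]
    exact near_det (hclose i)
  have hlog : ∀ i, HasL ℓ (((δ i : ℚ) : ℚ_[ℓ]) ^ N) (X i).trace := fun i => by
    have h1 := hDET ℓ (Fin (n i)) (fun k => ((g i) ^ N) ^ (ℓ ^ k)) (X i) (hlim i)
    unfold HasL
    refine h1.congr fun k => ?_
    rw [Matrix.det_pow, Matrix.det_pow, hdet i]
  have hne : ∀ i, ((δ i : ℚ) : ℚ_[ℓ]) ^ N ≠ 0 := fun i => (near_inv hc1 (hnear i)).1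
  set D : ℚ_[ℓ] := ∏ i, (((δ i : ℚ) : ℚ_[ℓ]) ^ N) ^ w i with hD
  have hDlog : HasL ℓ D 0 := by
    rw [← hsum]
    exact HasL.prod _ fun i _ => (hlog i).zpow (hne i) (w i)
  have hDnear : ‖D - 1‖ ≤ ((ℓ : ℝ)⁻¹) ^ 2 :=
    near_prod hc0 hc1.le _ fun i _ => near_zpow hc0 hc1 (hnear i) (w i)
  have hD1 := hDlog.eq_one hDnear
  -- back to the rational numbers
  have hrat : ∏ i, ((δ i) ^ N) ^ w i = 1 := by
    have h1 : ((∏ i, ((δ i) ^ N) ^ w i : ℚ) : ℚ_[ℓ]) = ((1 : ℚ) : ℚ_[ℓ]) := by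
      push_cast
      exact hD1
    exact_mod_cast h1
  have hreal : ∏ i, ((((δ i : ℚ) : ℝ) ^ 2) ^ N) ^ w i = 1 := by
    have h1 : (((∏ i, ((δ i) ^ N) ^ w i) ^ 2 : ℚ) : ℝ) = 1 := by
      rw [hrat]; norm_num
    push_cast at h1
    rw [← h1, ← Finset.prod_pow]
    refine Finset.prod_congr rfl fun i _ => ?_
    rw [← zpow_natCast, ← zpow_natCast, ← zpow_natCast, ← zpow_natCast, ← zpow_mul, ← zpow_mul,
      ← zpow_mul, ← zpow_mul]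
    congr 1
    ring
  have hexp : q ^ (∑ i, (N : ℤ) * (n i : ℤ) * (w i) ^ 2) = 1 := by
    rw [← hreal]
    have hz : ∀ s : Finset ι, q ^ (∑ i ∈ s, (N : ℤ) * (n i : ℤ) * (w i) ^ 2) =
        ∏ i ∈ s, ((((δ i : ℚ) : ℝ) ^ 2) ^ N) ^ w i := by
      intro s
      induction s using Finset.induction_on with
      | empty => simp
      | insert i s hi ih =>
        rw [Finset.sum_insert hi, Finset.prod_insert hi, zpow_add₀ hq0.ne', ih, hδsq i]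
        congr 1
        rw [← zpow_natCast, ← zpow_natCast, ← zpow_mul, ← zpow_mul, ← zpow_mul]
        congr 1
        ring
    exact hz _
  have hzero : ∑ i, (N : ℤ) * (n i : ℤ) * (w i) ^ 2 = 0 := by
    by_contra hcon
    exact hcon ((zpow_eq_one_iff_right₀ hq0.le hq.ne').1 hexp)
  have hnn : ∀ i ∈ Finset.univ, 0 ≤ (N : ℤ) * (n i : ℤ) * (w i) ^ 2 := fun i _ => by positivity
  intro i
  have h1 := (Finset.sum_eq_zero_iff_of_nonneg hnn).1 hzero i (Finset.mem_univ _)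
  rcases mul_eq_zero.1 h1 with h2 | h2
  · right
    rcases mul_eq_zero.1 h2 with h3 | h3
    · exfalso
      have : N = 0 := by exact_mod_cast h3
      omega
    · exact_mod_cast h3
  · left
    exact pow_eq_zero_iff (two_ne_zero) |>.1 h2

/-- WNUM -/
theorem t_WNUM : S_WNUM := by
  intro hDET ℓ _ ι _ _ n g X w q P N hq hN hP hroot hclose hlim hsum
  exact wnum_core hDET ℓ ι n g X w q P N hq hN hP hroot hclose hlim hsum

end Pool.Agent.Helper49P
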