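import Pool.Agent.Helper49P.Fin
import Pool.Agent.Helper49P.TAN1
import Pool.Agent.Helper49P.TAN2
import Pool.Agent.Helper49P.LOG
import Pool.Agent.Helper49P.ALG
import Pool.Agent.Helper49P.STAB
import Pool.Agent.Helper49P.ROOT
import Pool.Agent.Helper49P.EXP
import Pool.Agent.Helper49P.EIG
import Pool.Agent.Helper49P.PIG
import Pool.Agent.Helper49P.DER
import Pool.Agent.Helper49P.CART
import Pool.Agent.Helper49P.SEM
import Pool.Agent.Helper49P.CEN
import Pool.Agent.Helper49P.PERP
import Pool.Agent.Helper49P.DET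
import Pool.Agent.Helper49P.WNUM
import Pool.Agent.Helper49P.GX
import Pool.Agent.Helper49P.DENS

/-!
# The Lie algebra of a compact `ℓ`-adic group: all pieces
-/

set_option autoImplicit false

namespace Pool.Agent.Helper49P

theorem pieces : Pieces :=
  ⟨t_TAN1, t_TAN2, t_LOG, t_ALG, t_STAB, t_ROOT, t_EXP, t_EIG, t_PIG, t_DER, t_CART, t_SEM, t_CEN,
    t_PERP, t_DET, t_WNUM, t_GX, t_DENS⟩

end Pool.Agent.Helper49P
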