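import Pool.Agent.Helper49P.Stm2

/-!
# The derivative of the determinant
-/

set_option autoImplicit false

namespace Pool.Agent.Helper49P

open Filter Topology Module

theorem t_DET : S_DET := by
  intro hDER ℓ _ κ _ _ A B h
  classical
  let e : κ ≃ Fin (Fintype.card κ) := Fintype.equivFin κ
  let ψ : MultilinearMap ℚ_[ℓ] (fun _ : Fin (Fintype.card κ) => (κ → ℚ_[ℓ])) ℚ_[ℓ] :=
    (Matrix.detRowAlternating (n := κ) (R := ℚ_[ℓ])).toMultilinearMap.domDomCongr e
  have hψ : ∀ v, ψ v = (Matrix.of fun i => v (e i)).det := fun v => rfl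
  let v : Fin (Fintype.card κ) → (κ → ℚ_[ℓ]) := fun l => Pi.single (e.symm l) 1
  have hc0 : ∀ j : ℕ, ((ℓ : ℚ_[ℓ]) ^ j) ≠ 0 := fun j =>
    pow_ne_zero _ (Nat.cast_ne_zero.2 (Fact.out : ℓ.Prime).ne_zero)
  have hc : Tendsto (fun j : ℕ => (ℓ : ℚ_[ℓ]) ^ j) atTop (𝓝 0) := by
    apply tendsto_pow_atTop_nhds_zero_of_norm_lt_one
    rw [Padic.norm_p]
    exact inv_lt_one_of_one_lt₀ (by exact_mod_cast (Fact.out : ℓ.Prime).one_lt)
  have hexp : ∀ (ξ : End ℚ_[ℓ] (κ → ℚ_[ℓ]) →ₗ[ℚ_[ℓ]] ℚ_[ℓ]) (M : Matrix κ κ ℚ_[ℓ]),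
      ξ (Matrix.toLin' M) = ∑ a, ∑ b, M a b * ξ (Matrix.toLin' (Matrix.single a b 1)) := by
    intro ξ M
    conv_lhs => rw [Matrix.matrix_eq_sum_single M]
    rw [map_sum, map_sum]
    refine Finset.sum_congr rfl fun a _ => ?_
    rw [map_sum, map_sum]
    refine Finset.sum_congr rfl fun b _ => ?_
    have h1 : Matrix.single a b (M a b) = M a b • Matrix.single a b (1 : ℚ_[ℓ]) := by
      rw [Matrix.smul_single, smul_eq_mul, mul_one]
    rw [h1, map_smul, map_smul, smul_eq_mul]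
  have hξ : ∀ ξ : End ℚ_[ℓ] (κ → ℚ_[ℓ]) →ₗ[ℚ_[ℓ]] ℚ_[ℓ],
      Tendsto (fun j : ℕ => ((ℓ : ℚ_[ℓ]) ^ j)⁻¹ * ξ (Matrix.toLin' (A j) - 1)) atTop
        (𝓝 (ξ (Matrix.toLin' B))) := by
    intro ξ
    have h1 : Tendsto (fun j : ℕ => ∑ a, ∑ b, (((ℓ : ℚ_[ℓ]) ^ j)⁻¹ * (A j - 1) a b) *
        ξ (Matrix.toLin' (Matrix.single a b 1))) atTop
        (𝓝 (∑ a, ∑ b, B a b * ξ (Matrix.toLin' (Matrix.single a b 1)))) :=
      tendsto_finsetSum _ fun a _ => tendsto_finsetSum _ fun b _ => (h a b).mul_const _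
    rw [← hexp] at h1
    refine h1.congr fun j => ?_
    have h2 : (Matrix.toLin' (A j) - 1 : End ℚ_[ℓ] (κ → ℚ_[ℓ])) = Matrix.toLin' (A j - 1) := by
      rw [map_sub, Matrix.toLin'_one]
      rfl
    rw [h2, hexp, Finset.mul_sum]
    refine Finset.sum_congr rfl fun a _ => ?_
    rw [Finset.mul_sum]
    exact Finset.sum_congr rfl fun b _ => mul_assoc _ _ _
  have h1 := hDER ℓ (κ → ℚ_[ℓ]) (fun j => Matrix.toLin' (A j)) (Matrix.toLin' B)
    (fun j => (ℓ : ℚ_[ℓ]) ^ j) hc0 hc hξ (Fintype.card κ) ψ v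
  have h2 : ψ v = 1 := by
    rw [hψ]
    have : (Matrix.of fun i => v (e i)) = (1 : Matrix κ κ ℚ_[ℓ]) := by
      ext a b
      simp only [v, Matrix.of_apply, Equiv.symm_apply_apply, Matrix.one_apply, Pi.single_apply]
      simp only [eq_comm]
    rw [this, Matrix.det_one]
  have h3 : ∀ j, ψ (fun l => Matrix.toLin' (A j) (v l)) = (A j).det := by
    intro j
    rw [hψ]
    have : (Matrix.of fun i => Matrix.toLin' (A j) (v (e i))) = (A j).transpose := by
      ext a b
      simp only [v, Matrix.of_apply, Equiv.symm_apply_apply, Matrix.transpose_apply,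
        Matrix.toLin'_apply, Matrix.mulVec_single_one, Matrix.col_apply]
    rw [this, Matrix.det_transpose]
  have h4 : ∑ l, ψ (Function.update v l (Matrix.toLin' B (v l))) = B.trace := by
    rw [Matrix.trace, ← e.sum_comp]
    refine Finset.sum_congr rfl fun a _ => ?_
    rw [hψ]
    have h5 : (Matrix.of fun i => Function.update v (e a) (Matrix.toLin' B (v (e a))) (e i)) =
        (1 : Matrix κ κ ℚ_[ℓ]).updateRow a (B.transpose a) := by
      ext i b
      by_cases hi : i = a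
      · subst hi
        simp only [v, Matrix.of_apply, Function.update_self, Equiv.symm_apply_apply,
          Matrix.toLin'_apply, Matrix.mulVec_single_one, Matrix.col_apply,
          Matrix.updateRow_self, Matrix.transpose_apply]
      · have h6 : e i ≠ e a := fun h => hi (e.injective h)
        rw [Matrix.of_apply, Function.update_of_ne h6, Matrix.updateRow_ne hi]
        simp only [v, Equiv.symm_apply_apply, Matrix.one_apply, Pi.single_apply]
        simp only [eq_comm]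
    rw [h5, ← Matrix.cramer_transpose_apply, Matrix.transpose_one, Matrix.cramer_one]
    rfl
  rw [h4] at h1
  refine h1.congr fun j => ?_
  rw [h3, h2]

end Pool.Agent.Helper49P
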