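import Pool.Agent.Helper49P.Wgt
import Pool.Agent.Helper49C.Main
import Pool.Agent.N144.PR.Gal
import Pool.Agent.N203.RE.Main
import Pool.Agent.R918.Ell2

/-!
# From tensors in four variables at one prime number to all prime numbers
-/

set_option autoImplicit false
set_option linter.unusedSectionVars false
set_option linter.unusedVariables false

namespace Pool.Agent.Helper49P

open Pool.Agent.Y114.RM hiding comm mem_LT_of_semisimple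
open Filter Topology Module Pool.Agent.Y114.TF Pool.Agent.R913.Adj
  Pool.Agent.H204R3.GP Pool.Agent.R918.Ell Pool.Agent.Helper49N Pool.Agent
  Pool.Agent.R931.IR Pool.Agent.N203.RE Pool.Agent.Helper49C NumberField IsDedekindDomain
  Pool.Agent.Y114.GF

/-- All pieces. -/
structure Pieces : Prop where
  tan1 : S_TAN1
  tan2 : S_TAN2
  log : S_LOG
  alg : S_ALG
  stab : S_STAB
  root : S_ROOT
  exp : S_EXP
  eig : S_EIG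
  pig : S_PIG
  der : S_DER
  cart : S_CART
  sem : S_SEM
  cen : S_CEN
  perp : S_PERP
  det : S_DET
  wnum : S_WNUM
  gx : S_GX
  dens : S_DENS

section alg

theorem root_smul {k C κ : Type} [Field k] [Field C] [Algebra k C] [Fintype κ] [DecidableEq κ]
    (A : Matrix κ κ k) (c : k) (x : C) (h : Polynomial.aeval x A.charpoly = 0) :
    Polynomial.aeval (algebraMap k C c * x) (c • A).charpoly = 0 := by
  have h1 : ∀ (B : Matrix κ κ k) (y : C), Polynomial.aeval y B.charpoly =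
      (Matrix.scalar κ y - B.map (algebraMap k C)).det := by
    intro B y
    rw [Polynomial.aeval_def, ← Polynomial.eval_map, ← Matrix.charpoly_map, Matrix.eval_charpoly]
  rw [h1] at h ⊢
  have h2 : Matrix.scalar κ (algebraMap k C c * x) - (c • A).map (algebraMap k C) =
      algebraMap k C c • (Matrix.scalar κ x - A.map (algebraMap k C)) := by
    ext i j
    rw [Matrix.sub_apply, Matrix.smul_apply, Matrix.sub_apply, Matrix.map_apply, Matrix.map_apply,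
      Matrix.smul_apply, Matrix.scalar_apply, Matrix.scalar_apply, Matrix.diagonal_apply,
      Matrix.diagonal_apply, smul_eq_mul, smul_eq_mul, map_mul]
    split_ifs <;> ring
  rw [h2, Matrix.det_smul, h, mul_zero]

instance unc (ℓ : ℕ) [Fact ℓ.Prime] : Uncountable ℚ_[ℓ] := by
  rw [← Cardinal.aleph0_lt_mk_iff]
  exact Cardinal.aleph0_lt_continuum.trans_le
    (continuum_le_cardinal_of_nontriviallyNormedField ℚ_[ℓ])

end alg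

section indep

variable {ι : Type} [Fintype ι] [DecidableEq ι] {n : ι → ℕ} {ℓ : ℕ} [hℓ : Fact ℓ.Prime]
  {Γ : Type} [Group Γ] [TopologicalSpace Γ] [IsTopologicalGroup Γ] [CompactSpace Γ]
  {ρ : ∀ i, Representation ℚ_[ℓ] Γ (Fin (n i) → ℚ_[ℓ])}

/-- A tangent vector is the logarithm of an element, up to a power of `ℓ`. -/
theorem exists_log (H : Pieces) (hρ : ∀ i, Continuous fun g => LinearMap.toMatrix' (ρ i g))
    {X : End ℚ_[ℓ] (VV n ℓ)} (hX : X ∈ tng ρ H.tan1) :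
    ∃ (m : ℕ) (γ : Γ), IsLog ℓ (ph ρ γ) (((ℓ : ℚ_[ℓ]) ^ m) • TM n ℓ X) := by
  obtain ⟨k₀, hk₀, hst⟩ := H.stab ℓ (Mx ℓ (Ix n)) (one_le ℓ _) Γ (ph ρ)
  have hroot := H.root ℓ (Mx ℓ (Ix n)) (one_le ℓ _) Γ (ph ρ) (continuous_ph hρ) k₀ hk₀ hst
  obtain ⟨m, γ, -, hlog⟩ := H.exp ℓ (Mx ℓ (Ix n)) (one_le ℓ _) Γ (ph ρ) (continuous_ph hρ) k₀ hk₀
    hroot _ hX
  exact ⟨m, γ, hlog⟩

/-- The logarithm, in terms of endomorphisms. -/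
theorem exists_log' (H : Pieces) (hρ : ∀ i, Continuous fun g => LinearMap.toMatrix' (ρ i g))
    {X : End ℚ_[ℓ] (VV n ℓ)} (hX : X ∈ tng ρ H.tan1) :
    ∃ (m : ℕ) (γ : Γ), ∀ x i, Tendsto (fun k : ℕ => (((ℓ : ℚ_[ℓ]) ^ k)⁻¹) •
      ((sumRep ρ γ ^ (ℓ ^ k)) x - x) i) atTop (𝓝 ((((ℓ : ℚ_[ℓ]) ^ m) • X) x i)) := by
  obtain ⟨m, γ, h⟩ := exists_log H hρ hX
  refine ⟨m, γ, fun x i => ?_⟩
  let η : Mx ℓ (Ix n) →ₗ[ℚ_[ℓ]] (Fin (n i) → ℚ_[ℓ]) :=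
    LinearMap.proj i ∘ₗ LinearMap.applyₗ x ∘ₗ (TM n ℓ).symm.toLinearMap
  have hη : ∀ A, η A = (TM n ℓ).symm A x i := fun A => rfl
  have hc : Continuous η := LinearMap.continuous_of_finiteDimensional η
  have h2 := (hc.tendsto _).comp h
  have h3 : η (((ℓ : ℚ_[ℓ]) ^ m) • TM n ℓ X) = (((ℓ : ℚ_[ℓ]) ^ m) • X) x i := by
    rw [hη, map_smul, AlgEquiv.symm_apply_apply]
  rw [h3] at h2
  refine h2.congr fun k => ?_
  change η ((((ℓ : ℚ_[ℓ]) ^ k)⁻¹) • (ph ρ γ ^ (ℓ ^ k) - 1)) = _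
  rw [map_smul, hη, map_sub, map_pow, map_one, ph_apply, AlgEquiv.symm_apply_apply]
  rfl

theorem exists_indep_elt (H : Pieces)
    (hρ : ∀ i, Continuous fun g => LinearMap.toMatrix' (ρ i g))
    {𝔤 : Submodule ℚ_[ℓ] (End ℚ_[ℓ] (∀ i, Fin (n i) → ℚ_[ℓ]))} (h𝔤 : IsMotivic ρ 𝔤)
    (hle : 𝔤 ≤ tng ρ H.tan1) {r : ℕ} (hr : ∀ x ∈ 𝔤, r ≤ finrank ℚ_[ℓ] (cen 𝔤 x)) :
    ∃ γ : Γ, IndependentEigenvalues ρ γ r := by
  obtain ⟨X, hX, x, hx, hind⟩ := H.gx H.pig H.sem H.cen ℚ_[ℓ] (PadicAlgCl ℓ)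
    (∀ i, Fin (n i) → ℚ_[ℓ]) 𝔤 h𝔤.algebraic h𝔤.bracket h𝔤.nondeg r hr
  obtain ⟨m, γ, hlog⟩ := exists_log H hρ (hle hX)
  have hℓ0 : ((ℓ : ℚ_[ℓ]) ^ m) ≠ 0 := pow_ne_zero _ (Nat.cast_ne_zero.2 hℓ.out.ne_zero)
  have hcp : ∀ Y : End ℚ_[ℓ] (VV n ℓ), (TM n ℓ Y).charpoly = Y.charpoly := fun Y =>
    LinearMap.charpoly_toMatrix Y (bs n ℓ)
  obtain ⟨z, hz, hzi⟩ := H.eig ℓ (Ix n) (ph ρ γ) (((ℓ : ℚ_[ℓ]) ^ m) • TM n ℓ X)
    (fun a b => entry_log hlog a b) r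
    (fun j => algebraMap ℚ_[ℓ] (PadicAlgCl ℓ) ((ℓ : ℚ_[ℓ]) ^ m) * x j)
    (fun j => root_smul _ _ _ (by
      rw [hcp]
      exact hx j)) (fun e he => hind e (by
      have h1 : ∑ j, e j • (algebraMap ℚ_[ℓ] (PadicAlgCl ℓ) ((ℓ : ℚ_[ℓ]) ^ m) * x j) =
          algebraMap ℚ_[ℓ] (PadicAlgCl ℓ) ((ℓ : ℚ_[ℓ]) ^ m) * ∑ j, e j • x j := by
        rw [Finset.mul_sum]
        exact Finset.sum_congr rfl fun j _ => by rw [mul_smul_comm]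
      rw [h1] at he
      rcases mul_eq_zero.1 he with h2 | h2
      · exact absurd ((map_eq_zero _).1 h2) hℓ0
      · exact h2))
  have hcomp : ∀ j, ∃ i, EigenvalueOf ρ i γ (z j) := fun j =>
    Pool.Agent.N144.PR.component_of ρ (by
      rw [← hcp]
      exact hz j)
  choose κ hκ using hcomp
  exact ⟨γ, κ, z, hκ, hzi⟩

end indep

section centre

variable {ι : Type} [Fintype ι] [DecidableEq ι] {n : ι → ℕ}

/-- The rational weight operator. -/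
def ratW (w : ι → ℤ) : End ℚ (Betti n) where
  toFun x := fun i => (w i : ℚ) • (x : ∀ i, Fin (n i) → ℚ) i
  map_add' x y := funext fun i => smul_add _ _ _
  map_smul' c x := funext fun i => smul_comm (w i : ℚ) c ((x : ∀ i, Fin (n i) → ℚ) i)

theorem centre_scalars (ℓ : ℕ) [Fact ℓ.Prime] {𝔤 : Submodule ℚ (End ℚ (Betti n))} {w : ι → ℤ}
    (hc : ∀ Z ∈ 𝔤, (∀ Y ∈ 𝔤, Z * Y = Y * Z) → ∃ c : ℚ, Z = c • ratW w) :
    ∀ Z ∈ scal ℓ 𝔤, (∀ Y ∈ scal ℓ 𝔤, Z * Y = Y * Z) →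
      ∃ c : ℚ_[ℓ], ∀ x i, Z x i = (c * w i) • x i := by
  intro Z hZ hZc
  obtain ⟨Z₀, rfl⟩ := exists_conj ℓ Z
  have h1 : ∀ Y ∈ 𝔤, Z₀ * Y.baseChange ℚ_[ℓ] = Y.baseChange ℚ_[ℓ] * Z₀ := by
    intro Y hY
    have h2 := hZc ((ee ℓ).conj (Y.baseChange ℚ_[ℓ])) ((mem_scalars ℓ).2 (mem_bcS hY))
    rw [← Pool.Agent.N203.RE.conj_mul, ← Pool.Agent.N203.RE.conj_mul] at h2
    exact (ee ℓ).conj.injective h2
  let 𝔷 : Submodule ℚ (End ℚ (Betti n)) :=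
    { carrier := {Z | Z ∈ 𝔤 ∧ ∀ Y ∈ 𝔤, Z * Y = Y * Z}
      zero_mem' := ⟨𝔤.zero_mem, fun Y _ => by rw [zero_mul, mul_zero]⟩
      add_mem' := fun {a b} ha hb => ⟨𝔤.add_mem ha.1 hb.1, fun Y hY => by
        rw [add_mul, mul_add, ha.2 Y hY, hb.2 Y hY]⟩
      smul_mem' := fun c a ha => ⟨𝔤.smul_mem c ha.1, fun Y hY => by
        rw [smul_mul_assoc, mul_smul_comm, ha.2 Y hY]⟩ }
  have h3 : Z₀ ∈ bcS ℚ_[ℓ] 𝔷 := by
    rw [(inputs.bc ℚ ℚ_[ℓ] (Betti n) 𝔷).1]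
    intro π
    refine ⟨((inputs.bc ℚ ℚ_[ℓ] (Betti n) 𝔤).1 _).1 ((mem_scalars ℓ).1 hZ) π, fun Y hY => ?_⟩
    rw [← pM_mul_bc, h1 Y hY, pM_bc_mul]
  have h4 : bcS ℚ_[ℓ] 𝔷 ≤ Submodule.span ℚ_[ℓ] {(ratW (n := n) w).baseChange ℚ_[ℓ]} := by
    refine Submodule.span_le.2 ?_
    rintro _ ⟨X, hX, rfl⟩
    obtain ⟨c, rfl⟩ := hc X hX.1 hX.2
    rw [LinearMap.baseChange_smul]
    have h5 : (c • (ratW (n := n) w).baseChange ℚ_[ℓ]) =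
        (c : ℚ_[ℓ]) • (ratW (n := n) w).baseChange ℚ_[ℓ] := by
      refine LinearMap.ext fun v => ?_
      rw [LinearMap.smul_apply, LinearMap.smul_apply, Rat.cast_smul_eq_qsmul]
    rw [h5]
    exact Submodule.smul_mem _ _ (Submodule.mem_span_singleton_self _)
  obtain ⟨c, hcZ⟩ := Submodule.mem_span_singleton.1 (h4 h3)
  refine ⟨c, fun x i => ?_⟩
  rw [← hcZ, map_smul]
  have h6 : Extends (ratW w) (weightOp (k := ℚ_[ℓ]) (fun i => Fin (n i) → ℚ_[ℓ]) w) := by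
    intro x
    funext i j
    change ((w i : ℤ) : ℚ_[ℓ]) * ((x i j : ℚ) : ℚ_[ℓ]) = (((w i : ℚ) * x i j : ℚ) : ℚ_[ℓ])
    rw [Rat.cast_mul, Rat.cast_intCast]
  rw [← (extends_iff ℓ _ _).1 h6, LinearMap.smul_apply, Pi.smul_apply]
  change c • (((w i : ℤ) : ℚ_[ℓ]) • x i) = _
  rw [smul_smul]

end centre

section main

variable {ι : Type} [Fintype ι] [DecidableEq ι] {n : ι → ℕ}
  {w : ι → ℤ} {S : Set (HeightOneSpectrum (𝓞 ℚ))}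
  {P : HeightOneSpectrum (𝓞 ℚ) → ι → Polynomial ℚ}

theorem compactGal (K : Type) [Field K] [NumberField K] :
    CompactSpace Gal(AlgebraicClosure K/K) := inferInstance

theorem isMotivic_restrict {Γ : Type} [Group Γ] {ℓ : ℕ} [Fact ℓ.Prime] {ρ : Reps Γ n ℓ}
    {𝔤 : EndSpace n ℓ} (h : Motivic ρ 𝔤) {Δ : Type} [Group Δ] (φ : Δ →* Γ) :
    Motivic (restrictTo ρ φ) 𝔤 := motivic_restrict h φ

section gal

variable {ρ : ∀ (ℓ : ℕ) [Fact ℓ.Prime], Reps Gal(AlgebraicClosure ℚ/ℚ) n ℓ}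
  {𝔤 : Submodule ℚ (End ℚ (Betti n))}

theorem exists_pure
    (h : Realizations (MonoidHom.id Gal(AlgebraicClosure ℚ/ℚ)) w S P ρ 𝔤) {c : ℕ}
    (hint : IntegralOutside S P c) (ℓ : ℕ) [hℓ : Fact ℓ.Prime] :
    ∃ γ, ActsPurely (ρ ℓ) w γ := by
  obtain ⟨v, hv, -, Q, φ, hQ, hφ, -⟩ := exists_indep (ρ ℓ) (h.continuous ℓ) w c
    (S ∪ {v | Above v ℓ}) (h.finite.union (finite_above ℓ hℓ.out)) P
    (fun v hv i => ⟨h.good ℓ v (fun h' => hv (Or.inl h')) (fun h' => hv (Or.inr h')) i,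
      hint v (fun h' => hv (Or.inl h')) i⟩) 1 0
    ⟨Fin.elim0, Fin.elim0, fun k => k.elim0, fun e _ => Subsingleton.elim _ _⟩ Set.univ isOpen_univ
    (Set.mem_univ _)
  have hg := h.good ℓ v (fun h' => hv (Or.inl h')) (fun h' => hv (Or.inr h'))
  refine ⟨φ⁻¹, (q v : ℝ), P v, ?_, fun i => ⟨((hg i).2 Q hQ φ).2 hφ, (hg i).1⟩⟩
  obtain ⟨p, hp, hpv⟩ := exists_prime v
  have hq : q v = p := absNorm_eq hp hpv
  rw [hq]
  exact_mod_cast hp.one_lt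

/-- At the prime number `ℓ₀`: the tangent space is everything, and there is an element of maximal
rank. -/
theorem key (H : Pieces) (h : Realizations (MonoidHom.id Gal(AlgebraicClosure ℚ/ℚ)) w S P ρ 𝔤)
    {c : ℕ} (hint : IntegralOutside S P c)
    (hc : ∀ Z ∈ 𝔤, (∀ Y ∈ 𝔤, Z * Y = Y * Z) → ∃ c : ℚ, Z = c • ratW w)
    (ℓ₀ : ℕ) [hℓ₀ : Fact ℓ₀.Prime] (hss : Semisimple (ρ ℓ₀)) (hend : TateEndomorphisms (ρ ℓ₀) 𝔤)
    (hsq : SqTate (sumRep (ρ ℓ₀)) (scal ℓ₀ 𝔤)) :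
    ∃ r, RatRankLE 𝔤 r ∧ ∃ σ, IndependentEigenvalues (ρ ℓ₀) σ r := by
  have hcomp : CompactSpace Gal(AlgebraicClosure ℚ/ℚ) := compactGal ℚ
  have hE : EndTate (sumRep (ρ ℓ₀)) (scal ℓ₀ 𝔤) := by
    rintro Q ⟨Δ, hΔ, hQ⟩ X hX
    exact hend Q ⟨Δ, hΔ, fun γ hγ => (hQ γ hγ).symm⟩ X hX
  have h1 : scal ℓ₀ 𝔤 ≤ tng (ρ ℓ₀) H.tan1 := le_tng H.tan1 H.tan2 H.log H.alg H.der H.cart H.perp
    (H.det H.der) H.wnum (h.continuous ℓ₀) (h.motivic ℓ₀) hss hE hsq w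
    (fun _ => exists_pure h hint ℓ₀) (centre_scalars ℓ₀ hc)
  -- the rank
  obtain ⟨X, hX, hmin⟩ : ∃ X ∈ 𝔤, ∀ Y ∈ 𝔤, finrank ℚ (cen 𝔤 X) ≤ finrank ℚ (cen 𝔤 Y) := by
    have hne : (Set.range fun X : 𝔤 => finrank ℚ (cen 𝔤 X.1)).Nonempty :=
      ⟨_, ⟨⟨0, 𝔤.zero_mem⟩, rfl⟩⟩
    obtain ⟨X, hX⟩ := Nat.sInf_mem hne
    refine ⟨X.1, X.2, fun Y hY => ?_⟩
    change finrank ℚ (cen 𝔤 X.1) = _ at hX
    rw [hX]
    exact Nat.sInf_le ⟨⟨Y, hY⟩, rfl⟩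
  refine ⟨finrank ℚ (cen 𝔤 X), ⟨X, hX, le_rfl⟩, ?_⟩
  exact exists_indep_elt H (h.continuous ℓ₀) (h.motivic ℓ₀) h1
    (H.dens ℓ₀ ι n 𝔤 (finrank ℚ (cen 𝔤 X)) hmin)

theorem maximal_at {r : ℕ} {v₀ : HeightOneSpectrum (𝓞 ℚ)} {p : ℕ}
    (hp : p.Prime) (hv₀ : Above v₀ p) (hvS : v₀ ∉ S) (hr : IndepRoots r (Set.range (P v₀))) :
    MaximalRankAt S P r p := by
  refine ⟨hp, fun v hv => unramified hp hv, fun v hv => ?_, ?_, v₀, hv₀, hr⟩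
  · rw [(above_iff hp hv₀ v).1 hv]
    exact hvS
  · exact Pool.Agent.Y114.RM.independentPlaces_of_one _ (fun v => above_iff hp hv₀ v)

theorem main_conn (h : Realizations (MonoidHom.id Gal(AlgebraicClosure ℚ/ℚ)) w S P ρ 𝔤)
    {c : ℕ} (hint : IntegralOutside S P c) (ℓ₀ : ℕ) [hℓ₀ : Fact ℓ₀.Prime] {r : ℕ}
    (hr : RatRankLE 𝔤 r) {σ : Gal(AlgebraicClosure ℚ/ℚ)}
    (hσ : IndependentEigenvalues (ρ ℓ₀) σ r) (hconn : ZariskiConnected (ρ ℓ₀))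
    (ℓ : ℕ) [Fact ℓ.Prime] : (TateMotivated (ρ ℓ) 𝔤 ↔ EndosOverBase (ρ ℓ) 𝔤) ∧
      Pool.Agent.Helper49B.CenterTheorem (ρ ℓ) 𝔤 r ∧
        (Pool.Agent.Helper49B.TypeA 𝔤 → TateMotivated (ρ ℓ) 𝔤) := by
  have hex : ∀ T : Set (HeightOneSpectrum (𝓞 ℚ)), T.Finite → ∃ v, v ∉ T ∧ v ∉ S ∧
      IndepRoots r (Set.range (P v)) := by
    intro T hT
    obtain ⟨v, hv, hv2, -⟩ := exists_indep (ρ ℓ₀) (h.continuous ℓ₀) w c
      (S ∪ {v | Above v ℓ₀} ∪ T) ((h.finite.union (finite_above ℓ₀ hℓ₀.out)).union hT) P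
      (fun v hv i => ⟨h.good ℓ₀ v (fun h' => hv (Or.inl (Or.inl h')))
        (fun h' => hv (Or.inl (Or.inr h'))) i, hint v (fun h' => hv (Or.inl (Or.inl h'))) i⟩) σ r hσ
      Set.univ isOpen_univ (Set.mem_univ _)
    exact ⟨v, fun h' => hv (Or.inr h'), fun h' => hv (Or.inl (Or.inl h')), hv2⟩
  obtain ⟨v₁, -, hv₁S, hv₁⟩ := hex ∅ Set.finite_empty
  obtain ⟨p₁, hp₁, hpv₁⟩ := exists_prime v₁
  obtain ⟨v₂, hv₂T, hv₂S, hv₂⟩ := hex {v | Above v p₁} (finite_above p₁ hp₁)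
  obtain ⟨p₂, hp₂, hpv₂⟩ := exists_prime v₂
  have hne : p₁ ≠ p₂ := by
    rintro rfl
    exact hv₂T hpv₂
  obtain ⟨-, h1, h2, h3⟩ := Pool.Agent.Helper49C.main P S ρ h r hr hne
    (maximal_at hp₁ hpv₁ hv₁S hv₁) (maximal_at hp₂ hpv₂ hv₂S hv₂) ℓ₀ hconn ℓ
  exact ⟨h1, h2, h3⟩

end gal

section fund

variable {Γ : Type} [Group Γ] [TopologicalSpace Γ] {s : Gal(AlgebraicClosure ℚ/ℚ) →* Γ}
  {ρ : ∀ (ℓ : ℕ) [Fact ℓ.Prime], Reps Γ n ℓ} {𝔤 : Submodule ℚ (End ℚ (Betti n))}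

theorem restrict_realizations (h : Realizations s w S P ρ 𝔤) :
    Realizations (MonoidHom.id Gal(AlgebraicClosure ℚ/ℚ)) w S P
      (fun ℓ _ => restrictTo (ρ ℓ) s) 𝔤 :=
  { continuous_point := continuous_id
    continuous := fun ℓ _ i => (h.continuous ℓ i).comp h.continuous_point
    finite := h.finite
    good := fun ℓ _ v hv hvℓ i => h.good ℓ v hv hvℓ i
    reductive := h.reductive
    motivic := fun ℓ _ => isMotivic_restrict (h.motivic ℓ) s }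

/-- The tangent space at a prime number at which all Tate tensors are motivated. -/
theorem tangent_of_tate [IsTopologicalGroup Γ] [CompactSpace Γ] (H : Pieces)
    (h : Realizations s w S P ρ 𝔤) {c : ℕ} (hint : IntegralOutside S P c)
    (hc : ∀ Z ∈ 𝔤, (∀ Y ∈ 𝔤, Z * Y = Y * Z) → ∃ c : ℚ, Z = c • ratW w)
    (ℓ : ℕ) [Fact ℓ.Prime] (hss : Semisimple (ρ ℓ)) (hT : TateMotivated (ρ ℓ) 𝔤) :
    scal ℓ 𝔤 ≤ tng (ρ ℓ) H.tan1 := by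
  have hE : EndTate (sumRep (ρ ℓ)) (scal ℓ 𝔤) := endTate_of_tate (sumRep (ρ ℓ)) hT
  have hS : SqTate (sumRep (ρ ℓ)) (scal ℓ 𝔤) := sqTate_of (sumRep (ρ ℓ)) fun φ hφ => (hT 4 φ).1 hφ
  refine le_tng H.tan1 H.tan2 H.log H.alg H.der H.cart H.perp
    (H.det H.der) H.wnum (h.continuous ℓ) (h.motivic ℓ) hss hE hS w
    (fun _ => ?_) (centre_scalars ℓ hc)
  obtain ⟨σ, hσ⟩ := exists_pure (restrict_realizations h) hint ℓ
  exact ⟨s σ, hσ⟩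

end fund

end main

end Pool.Agent.Helper49P
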