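import Pool.Agent.Helper49P.Tng

/-!
# Tangent vectors kill the Tate tensors
-/

set_option autoImplicit false
set_option linter.unusedSectionVars false

namespace Pool.Agent.Helper49P

open Filter Topology Module Pool.Agent.Y114.TF Pool.Agent.Y114.RM Pool.Agent.R913.Adj

noncomputable section

section seq

variable {ℓ : ℕ} [hℓ : Fact ℓ.Prime] {E : Type} [NormedRing E] [NormedAlgebra ℚ_[ℓ] E]

theorem norm_ell_pow (m : ℕ) : ‖((ℓ : ℚ_[ℓ]) ^ m)⁻¹‖ = (((ℓ : ℝ)⁻¹) ^ m)⁻¹ := by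
  rw [norm_inv, norm_pow, Padic.norm_p]

theorem exists_seq {Γ : Type} [Group Γ] {φ : Γ →* E} {X : E} (h : Tan ℓ φ X) :
    ∃ γ : ℕ → Γ, Tendsto (fun j : ℕ => (((ℓ : ℚ_[ℓ]) ^ j)⁻¹) • (φ (γ j) - 1)) atTop (𝓝 X) := by
  have hpos : ∀ j : ℕ, (0 : ℝ) < ((ℓ : ℝ)⁻¹) ^ j := fun j => by
    have := hℓ.out.pos
    positivity
  let e : ℕ → Γ → ℝ := fun j γ => (((ℓ : ℝ)⁻¹) ^ j)⁻¹ * ‖φ γ - 1 - ((ℓ : ℚ_[ℓ]) ^ j) • X‖
  have he : ∀ j γ, 0 ≤ e j γ := fun j γ => mul_nonneg (inv_nonneg.2 (hpos j).le) (norm_nonneg _)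
  have hch : ∀ j : ℕ, ∃ γ, ∀ δ, e j γ ≤ e j δ + 1 / ((j : ℝ) + 1) := by
    intro j
    have hb : BddBelow (Set.range (e j)) := ⟨0, by
      rintro _ ⟨γ, rfl⟩
      exact he j γ⟩
    have h1 : sInf (Set.range (e j)) < sInf (Set.range (e j)) + 1 / ((j : ℝ) + 1) :=
      lt_add_of_pos_right _ (by positivity)
    obtain ⟨_, ⟨γ, rfl⟩, hγ⟩ := exists_lt_of_csInf_lt (Set.range_nonempty (e j)) h1
    refine ⟨γ, fun δ => hγ.le.trans ?_⟩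
    have h2 : sInf (Set.range (e j)) ≤ e j δ := csInf_le hb ⟨δ, rfl⟩
    linarith
  choose γ hγ using hch
  refine ⟨γ, ?_⟩
  rw [Metric.tendsto_atTop]
  intro ε hε
  obtain ⟨m₀, hm₀⟩ := h (ε / 3) (by positivity)
  obtain ⟨m₁, hm₁⟩ := exists_nat_one_div_lt (show (0 : ℝ) < ε / 3 by positivity)
  refine ⟨max m₀ m₁, fun m hm => ?_⟩
  obtain ⟨δ, hδ⟩ := hm₀ m (le_trans (le_max_left _ _) hm)
  have h1 : e m δ ≤ ε / 3 := by
    change (((ℓ : ℝ)⁻¹) ^ m)⁻¹ * ‖φ δ - 1 - ((ℓ : ℚ_[ℓ]) ^ m) • X‖ ≤ ε / 3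
    rw [inv_mul_le_iff₀ (hpos m), mul_comm]
    exact hδ
  have h2 : (1 : ℝ) / ((m : ℝ) + 1) ≤ ε / 3 := by
    refine le_trans ?_ hm₁.le
    have h3 : (m₁ : ℝ) ≤ m := by exact_mod_cast le_trans (le_max_right _ _) hm
    exact one_div_le_one_div_of_le (by positivity) (by linarith)
  have h4 : dist ((((ℓ : ℚ_[ℓ]) ^ m)⁻¹) • (φ (γ m) - 1)) X = e m (γ m) := by
    rw [dist_eq_norm]
    have h5 : (((ℓ : ℚ_[ℓ]) ^ m)⁻¹) • (φ (γ m) - 1) - X =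
        (((ℓ : ℚ_[ℓ]) ^ m)⁻¹) • (φ (γ m) - 1 - ((ℓ : ℚ_[ℓ]) ^ m) • X) := by
      rw [smul_sub (((ℓ : ℚ_[ℓ]) ^ m)⁻¹) (φ (γ m) - 1), smul_smul, inv_mul_cancel₀, one_smul]
      exact pow_ne_zero _ (Nat.cast_ne_zero.2 hℓ.out.ne_zero)
    rw [h5, norm_smul, norm_ell_pow]
  rw [h4]
  have h6 := hγ m δ
  linarith

theorem tendsto_ell : Tendsto (fun j : ℕ => (ℓ : ℚ_[ℓ]) ^ j) atTop (𝓝 0) := by
  refine tendsto_pow_atTop_nhds_zero_of_norm_lt_one ?_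
  rw [Padic.norm_p]
  exact inv_lt_one_of_one_lt₀ (by exact_mod_cast hℓ.out.one_lt)

theorem tendsto_one {a : ℕ → E} {X : E}
    (h : Tendsto (fun j : ℕ => (((ℓ : ℚ_[ℓ]) ^ j)⁻¹) • (a j - 1)) atTop (𝓝 X)) :
    Tendsto a atTop (𝓝 1) := by
  have h1 := (tendsto_ell (ℓ := ℓ)).smul h
  rw [zero_smul] at h1
  have h2 := h1.add (tendsto_const_nhds (x := (1 : E)))
  rw [zero_add] at h2
  refine h2.congr fun j => ?_
  rw [smul_smul, mul_inv_cancel₀ (pow_ne_zero _ (Nat.cast_ne_zero.2 hℓ.out.ne_zero)), one_smul,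
    sub_add_cancel]

theorem tendsto_mul {a b : ℕ → E} {X Y : E}
    (h : Tendsto (fun j : ℕ => (((ℓ : ℚ_[ℓ]) ^ j)⁻¹) • (a j - 1)) atTop (𝓝 X))
    (h' : Tendsto (fun j : ℕ => (((ℓ : ℚ_[ℓ]) ^ j)⁻¹) • (b j - 1)) atTop (𝓝 Y)) :
    Tendsto (fun j : ℕ => (((ℓ : ℚ_[ℓ]) ^ j)⁻¹) • (a j * b j - 1)) atTop (𝓝 (X + Y)) := by
  have h1 := (h.mul (tendsto_one h')).add h'
  rw [mul_one] at h1
  refine h1.congr fun j => ?_
  rw [smul_mul_assoc, ← smul_add, sub_mul, one_mul]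
  congr 1
  abel

theorem tendsto_pow {a : ℕ → E} {X : E}
    (h : Tendsto (fun j : ℕ => (((ℓ : ℚ_[ℓ]) ^ j)⁻¹) • (a j - 1)) atTop (𝓝 X)) (M : ℕ) :
    Tendsto (fun j : ℕ => (((ℓ : ℚ_[ℓ]) ^ j)⁻¹) • (a j ^ M - 1)) atTop (𝓝 (M • X)) := by
  induction M with
  | zero =>
    simp only [pow_zero, sub_self, smul_zero, zero_smul]
    exact tendsto_const_nhds
  | succ M ih =>
    have h1 := tendsto_mul ih h
    rw [succ_nsmul]
    simp only [pow_succ]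
    exact h1

theorem tendsto_inv [CompleteSpace E] {a a' : ℕ → E} {X : E} (haa : ∀ j, a j * a' j = 1)
    (haa' : ∀ j, a' j * a j = 1)
    (h : Tendsto (fun j : ℕ => (((ℓ : ℚ_[ℓ]) ^ j)⁻¹) • (a j - 1)) atTop (𝓝 X)) :
    Tendsto (fun j : ℕ => (((ℓ : ℚ_[ℓ]) ^ j)⁻¹) • (a' j - 1)) atTop (𝓝 (-X)) := by
  have h1 := tendsto_one h
  have h2 : Tendsto a' atTop (𝓝 1) := by
    have h3 := (NormedRing.inverse_continuousAt (1 : Eˣ)).tendsto.comp h1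
    rw [Units.val_one, Ring.inverse_one] at h3
    refine h3.congr fun j => ?_
    exact Ring.inverse_unit (⟨a j, a' j, haa j, haa' j⟩ : Eˣ)
  have h4 := (h2.mul h).neg
  rw [one_mul] at h4
  refine h4.congr fun j => ?_
  rw [mul_smul_comm, mul_sub, haa', mul_one, ← smul_neg]
  congr 1
  abel

end seq

section kill

variable {ι : Type} [Fintype ι] [DecidableEq ι] {n : ι → ℕ} {ℓ : ℕ} [hℓ : Fact ℓ.Prime]
  {Γ : Type} [Group Γ] {ρ : ∀ i, Representation ℚ_[ℓ] Γ (Fin (n i) → ℚ_[ℓ])}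

/-- Tangent vectors kill all Tate tensors. -/
theorem kills_tng (h1 : S_TAN1) (hD : S_DER) {X : End ℚ_[ℓ] (VV n ℓ)} (hX : X ∈ tng ρ h1)
    (m : ℕ) (φ : Tensor ℚ_[ℓ] (VV n ℓ) m) (hφ : TateTensor (sumRep ρ) φ) : KillsTensor X φ := by
  obtain ⟨Δ, hΔ, hφ⟩ := hφ
  obtain ⟨M, hM, hMΔ⟩ : ∃ M : ℕ, 0 < M ∧ ∀ γ : Γ, γ ^ M ∈ Δ := by
    have : Δ.normalCore.FiniteIndex := inferInstance
    exact ⟨Δ.normalCore.index, Nat.pos_of_ne_zero Subgroup.FiniteIndex.index_ne_zero, fun γ =>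
      Subgroup.normalCore_le Δ (Subgroup.pow_index_mem _ γ)⟩
  obtain ⟨γ, hγ⟩ := exists_seq hX
  have hp := tendsto_pow hγ M
  have hi := tendsto_inv (a := fun j => ph ρ (γ j) ^ M) (a' := fun j => ph ρ ((γ j ^ M)⁻¹))
    (fun j => by rw [← map_pow, ← map_mul, mul_inv_cancel, map_one])
    (fun j => by rw [← map_pow, ← map_mul, inv_mul_cancel, map_one]) hp
  intro v
  let P1 : End ℚ_[ℓ] (VV n ℓ) →ₗ[ℚ_[ℓ]] End ℚ_[ℓ] (VV n ℓ × Dual ℚ_[ℓ] (VV n ℓ)) :=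
    { toFun := fun X => X.prodMap 0
      map_add' := fun X Y => by
        refine LinearMap.ext fun w => Prod.ext rfl ?_
        change (0 : Dual ℚ_[ℓ] (VV n ℓ)) = 0 + 0
        rw [add_zero]
      map_smul' := fun c X => by
        refine LinearMap.ext fun w => Prod.ext rfl ?_
        change (0 : Dual ℚ_[ℓ] (VV n ℓ)) = c • 0
        rw [smul_zero] }
  let P2 : End ℚ_[ℓ] (VV n ℓ) →ₗ[ℚ_[ℓ]] End ℚ_[ℓ] (VV n ℓ × Dual ℚ_[ℓ] (VV n ℓ)) :=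
    { toFun := fun X => (0 : End ℚ_[ℓ] (VV n ℓ)).prodMap X.dualMap
      map_add' := fun X Y => by
        refine LinearMap.ext fun w => Prod.ext ?_ ?_
        · change (0 : VV n ℓ) = 0 + 0
          rw [add_zero]
        · exact LinearMap.ext fun u => map_add w.2 _ _
      map_smul' := fun c X => by
        refine LinearMap.ext fun w => Prod.ext ?_ ?_
        · change (0 : VV n ℓ) = c • 0
          rw [smul_zero]
        · exact LinearMap.ext fun u => map_smul w.2 _ _ }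
  have hgrp : ∀ g g' : End ℚ_[ℓ] (VV n ℓ), grp g g' - 1 = P1 (g - 1) + P2 (g' - 1) := by
    intro g g'
    refine LinearMap.ext fun w => Prod.ext ?_ ?_
    · change g w.1 - w.1 = (g w.1 - w.1) + 0
      rw [add_zero]
    · refine LinearMap.ext fun u => ?_
      change w.2 (g' u) - w.2 u = 0 + w.2 (g' u - u)
      rw [map_sub, zero_add]
  have hlie : ∀ Y : End ℚ_[ℓ] (VV n ℓ), lie Y = P1 Y - P2 Y := by
    intro Y
    refine LinearMap.ext fun w => Prod.ext ?_ ?_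
    · change Y w.1 = Y w.1 - 0
      rw [sub_zero]
    · refine LinearMap.ext fun u => ?_
      change -(w.2 (Y u)) = 0 - w.2 (Y u)
      rw [zero_sub]
  -- continuity of linear functionals
  have hcont : ∀ (η : End ℚ_[ℓ] (VV n ℓ) →ₗ[ℚ_[ℓ]] ℚ_[ℓ]) (a : ℕ → Γ) (Y : End ℚ_[ℓ] (VV n ℓ)),
      Tendsto (fun j : ℕ => (((ℓ : ℚ_[ℓ]) ^ j)⁻¹) • (ph ρ (a j) - 1)) atTop (𝓝 (TM n ℓ Y)) →
      Tendsto (fun j : ℕ => (((ℓ : ℚ_[ℓ]) ^ j)⁻¹) * η (sumRep ρ (a j) - 1)) atTop (𝓝 (η Y)) := by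
    intro η a Y h
    let η' : Mx ℓ (Ix n) →ₗ[ℚ_[ℓ]] ℚ_[ℓ] := η ∘ₗ (TM n ℓ).symm.toLinearMap
    have hc : Continuous η' := LinearMap.continuous_of_finiteDimensional η'
    have h2 := (hc.tendsto _).comp h
    have h3 : η' (TM n ℓ Y) = η Y := by
      change η ((TM n ℓ).symm (TM n ℓ Y)) = η Y
      rw [AlgEquiv.symm_apply_apply]
    rw [h3] at h2
    refine h2.congr fun j => ?_
    change η' ((((ℓ : ℚ_[ℓ]) ^ j)⁻¹) • (ph ρ (a j) - 1)) = _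
    rw [map_smul, smul_eq_mul]
    congr 1
    change η ((TM n ℓ).symm (TM n ℓ (sumRep ρ (a j)) - 1)) = _
    rw [map_sub, AlgEquiv.symm_apply_apply, map_one]
  have hp' : Tendsto (fun j : ℕ => (((ℓ : ℚ_[ℓ]) ^ j)⁻¹) • (ph ρ (γ j ^ M) - 1)) atTop
      (𝓝 (TM n ℓ (M • X))) := by
    rw [map_nsmul]
    simp only [map_pow]
    exact hp
  have hi' : Tendsto (fun j : ℕ => (((ℓ : ℚ_[ℓ]) ^ j)⁻¹) • (ph ρ ((γ j ^ M)⁻¹) - 1)) atTop
      (𝓝 (TM n ℓ (-(M • X)))) := by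
    rw [map_neg, map_nsmul]
    exact hi
  have key := hD ℓ (VV n ℓ × Dual ℚ_[ℓ] (VV n ℓ))
    (fun j => grp (sumRep ρ (γ j ^ M)) (sumRep ρ (γ j ^ M)⁻¹)) (lie (M • X))
    (fun j => (ℓ : ℚ_[ℓ]) ^ j) (fun j => pow_ne_zero _ (Nat.cast_ne_zero.2 hℓ.out.ne_zero))
    tendsto_ell (fun ξ => by
      have e1 := hcont (ξ ∘ₗ P1) _ _ hp'
      have e2 := hcont (ξ ∘ₗ P2) _ _ hi'
      have e3 := e1.add e2
      have e4 : (ξ ∘ₗ P1) (M • X) + (ξ ∘ₗ P2) (-(M • X)) = ξ (lie (M • X)) := by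
        rw [hlie, map_sub, LinearMap.comp_apply, LinearMap.comp_apply, map_neg, map_neg,
          sub_eq_add_neg]
      rw [e4] at e3
      refine e3.congr fun j => ?_
      rw [hgrp, map_add, mul_add]
      rfl) m φ v
  have h0 : (fun j : ℕ => ((ℓ : ℚ_[ℓ]) ^ j)⁻¹ *
      (φ (fun l => grp (sumRep ρ (γ j ^ M)) (sumRep ρ (γ j ^ M)⁻¹) (v l)) - φ v)) =
      fun _ => 0 := by
    funext j
    rw [hφ _ (hMΔ (γ j)), sub_self, mul_zero]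
  rw [h0] at key
  have h5 := tendsto_nhds_unique tendsto_const_nhds key
  have h6 : ∀ l, φ (Function.update v l (lie (M • X) (v l))) =
      (M : ℚ_[ℓ]) * φ (Function.update v l (lie X (v l))) := by
    intro l
    have e5 : lie (M • X) (v l) = (M : ℚ_[ℓ]) • lie X (v l) := by
      have e6 : lie (M • X) = (M : ℚ_[ℓ]) • lie X := by
        rw [hlie, hlie, ← Nat.cast_smul_eq_nsmul ℚ_[ℓ], map_smul, map_smul, smul_sub]
      rw [e6, LinearMap.smul_apply]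
    rw [e5, MultilinearMap.map_update_smul, smul_eq_mul]
  rw [Finset.sum_congr rfl fun l _ => h6 l, ← Finset.mul_sum] at h5
  rcases mul_eq_zero.1 h5.symm with h7 | h7
  · exact absurd h7 (Nat.cast_ne_zero.2 hM.ne')
  · exact h7

end kill

end

end Pool.Agent.Helper49P
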