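import Pool.Agent.Helper49P.Stm
import Pool.Agent.Y114.TF.Defs

/-!
# The matrices with the maximum norm, and the tangent space of a representation
-/

set_option autoImplicit false
set_option linter.unusedSectionVars false

namespace Pool.Agent.Helper49P

open Filter Topology Module Pool.Agent.Y114.TF

noncomputable section

section norm

variable (ℓ : ℕ) [Fact ℓ.Prime] (κ : Type) [Fintype κ] [DecidableEq κ]

attribute [local instance] Matrix.normedAddCommGroup Matrix.normedSpace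

/-- The matrices with the maximum norm. -/
abbrev Mx : Type := Matrix κ κ ℚ_[ℓ]

/-- The maximum norm is submultiplicative. -/
instance instRing : NormedRing (Mx ℓ κ) :=
  { (inferInstance : NormedAddCommGroup (Matrix κ κ ℚ_[ℓ])),
    (inferInstance : Ring (Matrix κ κ ℚ_[ℓ])) with
    norm_mul_le := fun A B => by
      refine (Matrix.norm_le_iff (mul_nonneg (norm_nonneg _) (norm_nonneg _))).2 fun x y => ?_
      rw [Matrix.mul_apply]
      refine IsUltrametricDist.norm_sum_le_of_forall_le_of_nonneg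
        (mul_nonneg (norm_nonneg _) (norm_nonneg _)) fun z _ => ?_
      rw [norm_mul]
      exact mul_le_mul (Matrix.norm_entry_le_entrywise_sup_norm A)
        (Matrix.norm_entry_le_entrywise_sup_norm B) (norm_nonneg _) (norm_nonneg _) }

instance instAlg : NormedAlgebra ℚ_[ℓ] (Mx ℓ κ) :=
  { (inferInstance : Algebra ℚ_[ℓ] (Matrix κ κ ℚ_[ℓ])) with
    norm_smul_le := fun c A => (norm_smul c (A : Matrix κ κ ℚ_[ℓ])).le }

end norm

section norm2

variable (ℓ : ℕ) [Fact ℓ.Prime] (κ : Type) [Fintype κ] [DecidableEq κ]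

theorem norm_le_iff {A : Mx ℓ κ} {c : ℝ} (hc : 0 ≤ c) : ‖A‖ ≤ c ↔ ∀ x y, ‖A x y‖ ≤ c :=
  Matrix.norm_le_iff hc

theorem entry_le (A : Mx ℓ κ) (x y : κ) : ‖A x y‖ ≤ ‖A‖ := Matrix.norm_entry_le_entrywise_sup_norm A

instance instUltra : IsUltrametricDist (Mx ℓ κ) := by
  refine IsUltrametricDist.isUltrametricDist_of_forall_norm_add_le_max_norm fun A B => ?_
  refine (norm_le_iff ℓ κ (le_max_of_le_left (norm_nonneg _))).2 fun x y => ?_
  rw [Matrix.add_apply]
  exact (IsUltrametricDist.norm_add_le_max _ _).trans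
    (max_le_max (entry_le ℓ κ A x y) (entry_le ℓ κ B x y))

theorem one_le : ‖(1 : Mx ℓ κ)‖ ≤ 1 := by
  refine (norm_le_iff ℓ κ zero_le_one).2 fun x y => ?_
  rw [Matrix.one_apply]
  split
  · rw [norm_one]
  · rw [norm_zero]
    exact zero_le_one

instance instFin : FiniteDimensional ℚ_[ℓ] (Mx ℓ κ) :=
  inferInstanceAs (FiniteDimensional ℚ_[ℓ] (Matrix κ κ ℚ_[ℓ]))

theorem complete_of (ℓ : ℕ) [Fact ℓ.Prime] (E : Type) [NormedRing E] [NormedAlgebra ℚ_[ℓ] E]
    [FiniteDimensional ℚ_[ℓ] E] : CompleteSpace E := FiniteDimensional.complete ℚ_[ℓ] E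

instance instComplete : @CompleteSpace (Mx ℓ κ) (@PseudoMetricSpace.toUniformSpace _
    (@SeminormedRing.toPseudoMetricSpace _ (@NormedRing.toSeminormedRing _ (instRing ℓ κ)))) :=
  complete_of ℓ (Mx ℓ κ)

end norm2

section rep

variable {ι : Type} [Fintype ι] [DecidableEq ι] (n : ι → ℕ) (ℓ : ℕ) [Fact ℓ.Prime]

/-- The index set of the coordinates. -/
abbrev Ix : Type := Σ i, Fin (n i)

/-- The direct sum. -/
abbrev VV : Type := ∀ i, Fin (n i) → ℚ_[ℓ]

/-- The standard basis. -/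
def bs : Basis (Ix n) ℚ_[ℓ] (VV n ℓ) := Pi.basis fun i => Pi.basisFun ℚ_[ℓ] (Fin (n i))

/-- The matrix of an endomorphism. -/
def TM : End ℚ_[ℓ] (VV n ℓ) ≃ₐ[ℚ_[ℓ]] Mx ℓ (Ix n) := LinearMap.toMatrixAlgEquiv (bs n ℓ)

variable {n ℓ} {Γ : Type} [Group Γ] (ρ : ∀ i, Representation ℚ_[ℓ] Γ (Fin (n i) → ℚ_[ℓ]))

/-- The representation by matrices. -/
def ph : Γ →* Mx ℓ (Ix n) :=
  ((TM n ℓ : End ℚ_[ℓ] (VV n ℓ) →* Mx ℓ (Ix n))).comp (sumRep ρ : Γ →* End ℚ_[ℓ] (VV n ℓ))

theorem ph_apply (γ : Γ) : ph ρ γ = TM n ℓ (sumRep ρ γ) := rfl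

theorem ph_entry (γ : Γ) (x y : Ix n) : ph ρ γ x y =
    if h : y.1 = x.1 then LinearMap.toMatrix' (ρ x.1 γ) x.2 (h ▸ y.2) else 0 := by
  rw [ph_apply, TM, LinearMap.toMatrixAlgEquiv_apply, bs, Pi.basis_repr, Pi.basis_apply]
  obtain ⟨i, a⟩ := x
  obtain ⟨j, b⟩ := y
  change (Pi.basisFun ℚ_[ℓ] (Fin (n i))).repr (ρ i γ ((Pi.single j ((Pi.basisFun ℚ_[ℓ]
    (Fin (n j))) b) : ∀ i, Fin (n i) → ℚ_[ℓ]) i)) a = _
  rw [Pi.basisFun_repr]
  by_cases h : j = i
  · subst h
    rw [Pi.single_eq_same, dif_pos rfl, Pi.basisFun_apply, LinearMap.toMatrix'_apply]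
  · rw [dif_neg h, Pi.single_eq_of_ne (Ne.symm h), map_zero, Pi.zero_apply]

variable {ρ}

theorem continuous_ph [TopologicalSpace Γ]
    (hρ : ∀ i, Continuous fun g => LinearMap.toMatrix' (ρ i g)) : Continuous (ph ρ) := by
  refine continuous_pi fun x => continuous_pi fun y => ?_
  have h1 : (fun γ : Γ => ph ρ γ x y) = fun γ =>
      if h : y.1 = x.1 then LinearMap.toMatrix' (ρ x.1 γ) x.2 (h ▸ y.2) else 0 := by
    funext γ
    exact ph_entry ρ γ x y
  change Continuous (fun γ : Γ => ph ρ γ x y)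
  rw [h1]
  by_cases h : y.1 = x.1
  · simp only [h, dite_true]
    exact (hρ x.1).matrix_elem _ _
  · simp only [h, dite_false]
    exact continuous_const

end rep

end

end Pool.Agent.Helper49P
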