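import Pool.Agent.Helper49P.Kil
import Pool.Agent.Helper49N.Mot

/-!
# The motivic Lie algebra is generated by the tangent space and its centre
-/

set_option autoImplicit false
set_option linter.unusedSectionVars false
set_option linter.unusedVariables false

namespace Pool.Agent.Helper49P

open Pool.Agent.Y114.RM hiding comm mem_LT_of_semisimple
open Filter Topology Module Pool.Agent.Y114.TF Pool.Agent.R913.Adj
  Pool.Agent.H204R3.GP Pool.Agent.R918.Ell Pool.Agent.Helper49N Pool.Agent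

noncomputable section

section lin

variable {k : Type} [Field k] {V : Type} [AddCommGroup V] [Module k V]

/-- The form attached to an endomorphism. -/
theorem exists_form (P : End k V) : ∃ φ : Tensor k V 2, ∀ X : End k V,
    KillsTensor X φ ↔ X * P = P * X := by
  let ω : (V × Dual k V) →ₗ[k] (V × Dual k V) →ₗ[k] k :=
    LinearMap.mk₂ k (fun a b => b.2 (P a.1))
      (fun a a' b => by rw [Prod.fst_add, map_add, map_add])
      (fun c a b => by rw [Prod.smul_fst, map_smul, map_smul])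
      (fun a b b' => by rw [Prod.snd_add, LinearMap.add_apply])
      (fun c a b => by rw [Prod.smul_snd, LinearMap.smul_apply])
  let φ : Tensor k V 2 := Pool.Agent.H204R3.SP.bil2 ω
  have hφ : ∀ v, φ v = (v 1).2 (P (v 0).1) := fun v => rfl
  refine ⟨φ, fun X => ⟨fun h1 => ?_, fun h1 v => ?_⟩⟩
  · refine LinearMap.ext fun x => ?_
    rw [← sub_eq_zero, ← Module.forall_dual_apply_eq_zero_iff k]
    intro ξ
    have h2 := h1 ![(x, 0), (0, ξ)]
    rw [Fin.sum_univ_two, hφ, hφ, Function.update_self, Function.update_self,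
      Function.update_of_ne Fin.zero_ne_one.symm, Function.update_of_ne Fin.zero_ne_one] at h2
    change ξ (P (X x)) + -(ξ (X (P x))) = 0 at h2
    rw [map_sub, Module.End.mul_apply, Module.End.mul_apply, sub_eq_zero]
    linear_combination -h2
  · rw [Fin.sum_univ_two, hφ, hφ, Function.update_self, Function.update_self,
      Function.update_of_ne Fin.zero_ne_one.symm, Function.update_of_ne Fin.zero_ne_one]
    change (v 1).2 (P (X (v 0).1)) + -((v 1).2 (X (P (v 0).1))) = 0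
    have h2 := LinearMap.congr_fun h1 (v 0).1
    rw [Module.End.mul_apply, Module.End.mul_apply] at h2
    rw [h2, add_neg_cancel]

variable [CharZero k] [FiniteDimensional k V]

/-- The trace form is not degenerate on the centre. -/
theorem centre_nondeg {L : Submodule k (End k V)}
    (hcl : ∀ X, (∀ (m : ℕ) (φ : Tensor k V m), (∀ Y ∈ L, KillsTensor Y φ) → KillsTensor X φ) →
      X ∈ L) (hnd : NonDeg L) {X : End k V} (hX : X ∈ L ⊓ comm L)
    (h : ∀ Y ∈ L ⊓ comm L, LinearMap.trace k V (X * Y) = 0) : X = 0 := by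
  have hcl' : ∀ X, (∀ (m : ℕ) (φ : Tensor k V m), (∀ Y ∈ L ⊓ comm L, KillsTensor Y φ) →
      KillsTensor X φ) → X ∈ L ⊓ comm L := by
    intro X hX
    refine ⟨hcl X fun m φ hφ => hX m φ fun Y hY => hφ Y hY.1, fun Y hY => ?_⟩
    obtain ⟨φ, hφ⟩ := exists_form Y
    have h1 := (hφ X).1 (hX 2 φ fun Z hZ => (hφ Z).2 (hZ.2 Y hY).symm)
    exact h1.symm
  have hn : IsNilpotent X := nilpotent_of_orth hcl' hX h
  refine hnd X hX.1 fun Y hY => ?_
  have hc : Commute X Y := (hX.2 Y hY).symm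
  exact (LinearMap.isNilpotent_trace_of_isNilpotent (hc.isNilpotent_mul_right hn)).eq_zero

end lin

section main

variable {ι : Type} [Fintype ι] [DecidableEq ι] {n : ι → ℕ} {ℓ : ℕ} [hℓ : Fact ℓ.Prime]
  {Γ : Type} [Group Γ] [TopologicalSpace Γ] [IsTopologicalGroup Γ] [CompactSpace Γ]

/-- The subalgebra of the endomorphisms which preserve a subspace. -/
def stab {k : Type} [Field k] {V : Type} [AddCommGroup V] [Module k V] (U : Submodule k V) :
    Subalgebra k (End k V) where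
  carrier := {T | ∀ u ∈ U, T u ∈ U}
  mul_mem' := fun {a b} ha hb u hu => ha _ (hb u hu)
  add_mem' := fun {a b} ha hb u hu => U.add_mem (ha u hu) (hb u hu)
  algebraMap_mem' := fun c u hu => U.smul_mem c hu

theorem exists_split2 (h1 : S_TAN1) (h2 : S_TAN2) (h3 : S_LOG) (h4 : S_ALG) (h5 : S_DER)
    (h6 : S_CART) (ρ : ∀ i, Representation ℚ_[ℓ] Γ (Fin (n i) → ℚ_[ℓ]))
    (hρ : ∀ i, Continuous fun g => LinearMap.toMatrix' (ρ i g))
    {𝔤 : Submodule ℚ_[ℓ] (End ℚ_[ℓ] (∀ i, Fin (n i) → ℚ_[ℓ]))} (h𝔤 : IsMotivic ρ 𝔤)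
    (hss : FiniteIndexSemisimple (sumRep ρ)) (hE : EndTate (sumRep ρ) 𝔤)
    (hS : SqTate (sumRep ρ) 𝔤) :
    tng ρ h1 ≤ 𝔤 ∧ ∀ X ∈ 𝔤, ∃ A ∈ tng ρ h1, ∀ Y ∈ 𝔤, (X - A) * Y = Y * (X - A) := by
  obtain ⟨L, hL, hLie, hAd, -⟩ := Y41.RM.lieL' ℚ_[ℓ] (∀ i, Fin (n i) → ℚ_[ℓ]) Γ (sumRep ρ)
  have hnd : NonDeg L := nonDeg_of_semisimple hss hL hLie hAd
  have hLG : L ≤ 𝔤 := fun X hX => h𝔤.algebraic X fun m φ h =>
    ((hL X).1 hX).2 m φ (h𝔤.tate m φ h)
  have hcl : ∀ X, (∀ (m : ℕ) (φ : Tensor ℚ_[ℓ] (∀ i, Fin (n i) → ℚ_[ℓ]) m),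
      (∀ Y ∈ L, KillsTensor Y φ) → KillsTensor X φ) → X ∈ L := fun X hX =>
    (hL X).2 (mem_LT_of_semisimple (sumRep ρ) hss fun m φ hφ =>
      hX m φ fun Y hY => ((hL Y).1 hY).2 m φ hφ)
  have hTL : tng ρ h1 ≤ L := fun X hX => (hL X).2 (mem_LT_of_semisimple (sumRep ρ) hss
    fun m φ hφ => kills_tng h1 h5 hX m φ hφ)
  have hfin := finite_Dl hρ
  -- endomorphisms which commute with the tangent space commute with an open subgroup
  have hcomD : ∀ P : End ℚ_[ℓ] (VV n ℓ), (∀ X ∈ tng ρ h1, X * P = P * X) →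
      ∀ γ ∈ Dl ρ, P * sumRep ρ γ = sumRep ρ γ * P := by
    intro P hP γ hγ
    have h7 := alg_Dl h1 h3 h4 (Subalgebra.centralizer ℚ_[ℓ] {P}) (fun X hX => by
      rw [Subalgebra.mem_centralizer_iff]
      intro Q hQ
      rw [Set.mem_singleton_iff.1 hQ]
      exact (hP X hX).symm) γ hγ
    rw [Subalgebra.mem_centralizer_iff] at h7
    exact h7 P rfl
  have hcomL : ∀ P : End ℚ_[ℓ] (VV n ℓ), (∀ X ∈ tng ρ h1, X * P = P * X) → P ∈ comm L := by
    intro P hP X hX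
    exact Pool.Agent.R913.Adj.tate_comm (sumRep ρ) ((hL X).1 hX).2 hfin (hcomD P hP)
  -- the Lie algebra
  let M : Submodule ℚ_[ℓ] (End ℚ_[ℓ] (VV n ℓ)) := tng ρ h1 ⊔ (L ⊓ comm L)
  have hTM : tng ρ h1 ≤ M := le_sup_left
  have hZM : L ⊓ comm L ≤ M := le_sup_right
  have hML : M ≤ L := sup_le hTL inf_le_left
  have hMLie : IsLie M := by
    intro X hX Y hY
    obtain ⟨A, hA, Z, hZ, rfl⟩ := Submodule.mem_sup.1 hX
    obtain ⟨B, hB, W, hW, rfl⟩ := Submodule.mem_sup.1 hY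
    have e1 := hZ.2 B (hTL hB)
    have e2 := hZ.2 W hW.1
    have e3 := hW.2 A (hTL hA)
    have e4 : (A + Z) * (B + W) - (B + W) * (A + Z) = A * B - B * A := by
      rw [add_mul, mul_add, mul_add, add_mul, mul_add, mul_add, e1, e2, e3]
      abel
    rw [e4]
    exact hTM (lie_tng h1 h2 A hA B hB)
  have hMss : ∀ U : Submodule ℚ_[ℓ] (VV n ℓ), (∀ X ∈ M, ∀ u ∈ U, X u ∈ U) →
      ∃ U' : Submodule ℚ_[ℓ] (VV n ℓ), (∀ X ∈ M, ∀ u ∈ U', X u ∈ U') ∧ IsCompl U U' := by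
    intro U hU
    have h7 := alg_Dl h1 h3 h4 (stab U) fun X hX => hU X (hTM hX)
    obtain ⟨U', hU', hc⟩ := hss (Dl ρ) hfin U fun s hs => h7 s hs
    exact ⟨U', fun X hX => ((hL X).1 (hML hX)).1 U' ⟨Dl ρ, hfin, hU'⟩, hc⟩
  have hMnd : NonDeg M := by
    intro X hX hXo
    have h7 := h6 ℚ_[ℓ] (VV n ℓ) M hMLie hMss X hX hXo
    have h8 : X ∈ comm L := hcomL X fun Y hY => (h7 Y (hTM hY)).symm
    exact centre_nondeg hcl hnd ⟨hML hX, h8⟩ fun Y hY => hXo Y (hZM hY)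
  have hMAd : ∀ γ, ∀ Y ∈ M, sumRep ρ γ * Y * sumRep ρ γ⁻¹ ∈ M := by
    intro γ Y hY
    obtain ⟨A, hA, Z, hZ, rfl⟩ := Submodule.mem_sup.1 hY
    rw [mul_add, add_mul]
    refine M.add_mem (hTM (conj_tng h1 h2 γ hA)) (hZM ⟨?_, ?_⟩)
    · have h7 := hAd γ Z hZ.1
      rw [AdE_apply, ← mul_assoc] at h7
      exact h7
    · have h7 := comm_conj hAd γ Z hZ.2
      rw [AdE_apply, ← mul_assoc] at h7
      exact h7
  obtain ⟨Δ, hΔ, hcΔ⟩ := Y220.RM.tfr ℓ ι n Γ ρ hρ (comm L) (comm_conj hAd) (comm_order hL)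
  obtain ⟨N, x, y, pr, hx, hy, hp, hpr⟩ := exists_pr hMnd
  refine ⟨hTL.trans hLG, fun X hX => ?_⟩
  have hcom := hS (cas x y) (fun γ => cas_comm hMnd hx hy hp hpr (rmi (sumRep ρ) γ)
    (rim (sumRep ρ) γ) (hMAd γ) fun Y hY => by
      have h7 := hMAd γ⁻¹ Y hY
      rwa [inv_inv] at h7) (fun u w => cas_swap hMnd hx hy hp hpr u w) X hX
  have hnorm := norm_of_comm hMnd hx hy hp hpr hcom
  have hmem := pr_mem hMnd hx hy hp hpr X
  have hc : ∀ A ∈ M, (X - pr X) * A - A * (X - pr X) = 0 := by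
    intro A hA
    refine hMnd _ ?_ fun A' hA' => ?_
    · rw [rg1]
      exact M.sub_mem (hnorm A hA) (hMLie _ hmem _ hA)
    · rw [rg2, map_sub, LinearMap.trace_mul_comm _ A, ← map_sub, rg3, map_sub,
        hp X _ (hMLie A hA A' hA'), sub_self]
  have hcL : X - pr X ∈ comm L := hcomL _ fun A hA => (sub_eq_zero.1 (hc A (hTM hA))).symm
  obtain ⟨A, hA, Z, hZ, hAZ⟩ := Submodule.mem_sup.1 hmem
  have hfin2 := hE (X - A) ⟨Δ, hΔ, fun γ hγ => by
    have e1 : X - A = (X - pr X) + Z := by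
      rw [← hAZ]
      abel
    rw [e1]
    exact (hcΔ γ hγ _ ((comm L).add_mem hcL hZ.2)).symm⟩
  exact ⟨A, hA, fun Y hY => (hfin2 Y hY).symm⟩

end main

end

end Pool.Agent.Helper49P
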