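import Mathlib

/-!
# The Lie algebra of a compact `ℓ`-adic group: task statements (normed algebras)

`E` is a finite-dimensional algebra over `ℚ_ℓ` with an ultrametric norm, submultiplicative, with
`‖1‖ ≤ 1` (for instance the matrices with the maximum norm). `Γ` is a group with a homomorphism
`φ : Γ →* E`.
-/

set_option autoImplicit false

namespace Pool.Agent.Helper49P

open Filter Topology Module

section defs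

variable {E : Type} [NormedRing E]

/-- `X` is a tangent vector at `1` of the image of `φ`: for every `ε` and all large `m` there is `γ`
with `‖φ γ - 1 - ℓ ^ m X‖ ≤ ε ℓ ^ (-m)`. -/
def Tan (ℓ : ℕ) [Fact ℓ.Prime] [Module ℚ_[ℓ] E] {Γ : Type} [Group Γ] (φ : Γ →* E) (X : E) : Prop :=
  ∀ ε : ℝ, 0 < ε → ∃ m₀ : ℕ, ∀ m ≥ m₀, ∃ γ : Γ,
    ‖φ γ - 1 - ((ℓ : ℚ_[ℓ]) ^ m) • X‖ ≤ ε * ((ℓ : ℝ)⁻¹) ^ m

/-- `X` is the logarithm of `g`: the limit of `(g ^ (ℓ ^ k) - 1) / ℓ ^ k`. -/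
def IsLog (ℓ : ℕ) [Fact ℓ.Prime] [Module ℚ_[ℓ] E] (g X : E) : Prop :=
  Tendsto (fun k : ℕ => (((ℓ : ℚ_[ℓ]) ^ k)⁻¹) • (g ^ (ℓ ^ k) - 1)) atTop (𝓝 X)

end defs

/-- TAN1: sums and multiples of tangent vectors.
Proof. If `φ γ = 1 + ℓ^m X + a`, `φ δ = 1 + ℓ^m Y + b` with `‖a‖, ‖b‖ ≤ ε ℓ^(-m)`, then
`φ (γ δ) - 1 - ℓ^m (X + Y) = a + b + (φ γ - 1) (φ δ - 1)`, and the last product has norm at most
`C ℓ^(-2m)` (`‖φ γ - 1‖ ≤ (‖X‖ + ε) ℓ^(-m)`), which is at most `ε ℓ^(-m)` for large `m`.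
Natural multiples: by induction from the sums. `ℓ⁻¹ X`: use for `m + 1` the element which belongs to `m`
and `X` (`ℓ^(m+1) (ℓ⁻¹ X) = ℓ^m X`, error `ε ℓ^(-m) = ε ℓ ℓ^(-(m+1))`). Multiples by `c` in `ℤ_ℓ`: choose
a natural number `c'` with `‖c - c'‖ ≤ δ` (`PadicInt.appr` or density); `ℓ^m c X` and `ℓ^m c' X` differ by
at most `δ ‖X‖ ℓ^(-m)`. Every `c` in `ℚ_ℓ` is `ℓ^(-j)` times an element of `ℤ_ℓ`. -/
def S_TAN1 : Prop := ∀ (ℓ : ℕ) [Fact ℓ.Prime] (E : Type) [NormedRing E] [NormedAlgebra ℚ_[ℓ] E]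
  (Γ : Type) [Group Γ] (φ : Γ →* E),
  (∀ X Y, Tan ℓ φ X → Tan ℓ φ Y → Tan ℓ φ (X + Y)) ∧
    ∀ (c : ℚ_[ℓ]) (X : E), Tan ℓ φ X → Tan ℓ φ (c • X)

/-- TAN2: conjugates, limits and brackets of tangent vectors.
Proof. Conjugates: `φ (δ γ δ⁻¹) - 1 - ℓ^m (φ δ * X * φ δ⁻¹) = φ δ * (φ γ - 1 - ℓ^m X) * φ δ⁻¹`.
Closed: if `‖X - X'‖ ≤ ε` and `X'` is tangent, the same `γ` serves for `X` with `2 ε`.
Brackets: let `φ γ = 1 + ℓ^m X + a` (the elements `γ = γ_m` which belong to `m` and a small `ε`). The vector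
`ℓ^(-m) (φ γ * Y * φ γ⁻¹ - Y)` is tangent by TAN1 (hypothesis `h`) and the conjugates, and
`φ γ * Y * φ γ⁻¹ - Y = (φ γ * Y - Y * φ γ) * φ γ⁻¹`, `φ γ * Y - Y * φ γ = ℓ^m (X Y - Y X) + (a Y - Y a)`, and
`φ γ⁻¹ → 1` (`φ γ⁻¹ - 1 = - φ γ⁻¹ (φ γ - 1)`, so `‖φ γ⁻¹‖ ≤ 2 max(1, ‖1‖)` if `‖φ γ - 1‖ ≤ 1/2`). So these
vectors converge to `X Y - Y X`, and the set of tangent vectors is closed. -/
def S_TAN2 : Prop := ∀ (ℓ : ℕ) [Fact ℓ.Prime] (E : Type) [NormedRing E] [NormedAlgebra ℚ_[ℓ] E]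
  (Γ : Type) [Group Γ] (φ : Γ →* E),
  ((∀ X Y, Tan ℓ φ X → Tan ℓ φ Y → Tan ℓ φ (X + Y)) ∧
    ∀ (c : ℚ_[ℓ]) (X : E), Tan ℓ φ X → Tan ℓ φ (c • X)) →
  (∀ X (δ : Γ), Tan ℓ φ X → Tan ℓ φ (φ δ * X * φ δ⁻¹)) ∧ IsClosed {X | Tan ℓ φ X} ∧
    ∀ X Y, Tan ℓ φ X → Tan ℓ φ Y → Tan ℓ φ (X * Y - Y * X)

/-- LOG: logarithms exist and are tangent vectors.
Proof. Put `x_k = g ^ (ℓ ^ k) - 1`. Since `(1 + x) ^ ℓ = 1 + ℓ x + ∑_{j ≥ 2} (ℓ choose j) x ^ j` and integers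
have norm at most `1` (`‖n • y‖ ≤ ‖y‖`), for `‖x‖ ≤ ℓ⁻²`: `‖(1+x)^ℓ - 1 - ℓ x‖ ≤ ‖x‖ ^ 2 ≤ ℓ⁻² ‖x‖`, so
`‖x_{k+1}‖ ≤ ℓ⁻¹ ‖x_k‖`, `‖x_k‖ ≤ ℓ^(-k-2)`, and `‖ℓ^(-k-1) x_{k+1} - ℓ^(-k) x_k‖ ≤ ℓ^(k+1) ‖x_k‖ ^ 2 → 0`; the
sequence is Cauchy (ultrametric), `E` is complete. Tangent: for `m` take `γ ^ (ℓ ^ m)`. -/
def S_LOG : Prop := ∀ (ℓ : ℕ) [Fact ℓ.Prime] (E : Type) [NormedRing E] [NormedAlgebra ℚ_[ℓ] E]
  [IsUltrametricDist E] [CompleteSpace E], ‖(1 : E)‖ ≤ 1 → ∀ (Γ : Type) [Group Γ] (φ : Γ →* E)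
  (γ : Γ), ‖φ γ - 1‖ ≤ ((ℓ : ℝ)⁻¹) ^ 2 → ∃ X, IsLog ℓ (φ γ) X ∧ Tan ℓ φ X

/-- ALG: an element whose logarithm is in a subalgebra is in the subalgebra.
Proof. `A` is a closed subspace (finite dimension). Let `d g` be the distance of `g` to `A`; it is attained
(`E` is a proper space), `g = α + β`, `α ∈ A`, `‖β‖ = d g ≤ ‖g - 1‖ ≤ ℓ⁻²`, so `‖α - 1‖ ≤ ℓ⁻²`. By the
telescoping sum, `g ^ ℓ - α ^ ℓ = ∑_{a < ℓ} g ^ a β α ^ (ℓ - 1 - a) = ℓ β + ε`, `‖ε‖ ≤ ℓ⁻² ‖β‖`. For all `a ∈ A`,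
`‖ℓ β - a‖ = ℓ⁻¹ ‖β - ℓ⁻¹ a‖ ≥ ℓ⁻¹ d g`. So `d (g ^ ℓ) ≥ ℓ⁻¹ d g` (ultrametric), and by induction
(`‖g ^ (ℓ ^ k) - 1‖ ≤ ℓ⁻²` stays true) `d (g ^ (ℓ ^ k)) ≥ ℓ^(-k) d g`. But `1 + ℓ^k X ∈ A`, so
`d (g ^ (ℓ ^ k)) ≤ ‖g ^ (ℓ ^ k) - 1 - ℓ^k X‖`, which is `o(ℓ^(-k))`. So `d g = 0` and `g ∈ A`. -/
def S_ALG : Prop := ∀ (ℓ : ℕ) [Fact ℓ.Prime] (E : Type) [NormedRing E] [NormedAlgebra ℚ_[ℓ] E]
  [IsUltrametricDist E] [FiniteDimensional ℚ_[ℓ] E], ‖(1 : E)‖ ≤ 1 →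
  ∀ (A : Subalgebra ℚ_[ℓ] E) (g X : E), ‖g - 1‖ ≤ ((ℓ : ℝ)⁻¹) ^ 2 → IsLog ℓ g X → X ∈ A → g ∈ A

/-- STAB: the graded pieces of the congruence filtration become stationary.
Proof. Let `B` be the closed unit ball, a compact set (finite dimension); it is covered by finitely many
balls of radius `ℓ⁻¹` (which are open), and `x ~ y ↔ ‖x - y‖ ≤ ℓ⁻¹` is an equivalence relation on it, so
there are finitely many classes. Let `R k` be the set of the classes of `ℓ^(-k) (φ γ - 1)` for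
`‖φ γ - 1‖ ≤ ℓ^(-k)`. For `k ≥ 2`, `R k ⊆ R (k + 1)`: replace `γ` by `γ ^ ℓ`
(`‖(1+x)^ℓ - 1 - ℓ x‖ ≤ ‖x‖ ^ 2 ≤ ℓ^(-2k) ≤ ℓ^(-k-2)`). So `R k = R (k + 1)` for all large `k`. -/
def S_STAB : Prop := ∀ (ℓ : ℕ) [Fact ℓ.Prime] (E : Type) [NormedRing E] [NormedAlgebra ℚ_[ℓ] E]
  [IsUltrametricDist E] [FiniteDimensional ℚ_[ℓ] E], ‖(1 : E)‖ ≤ 1 →
  ∀ (Γ : Type) [Group Γ] (φ : Γ →* E), ∃ k₀ : ℕ, 2 ≤ k₀ ∧ ∀ k ≥ k₀, ∀ η : Γ,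
    ‖φ η - 1‖ ≤ ((ℓ : ℝ)⁻¹) ^ (k + 1) → ∃ δ : Γ, ‖φ δ - 1‖ ≤ ((ℓ : ℝ)⁻¹) ^ k ∧
      ‖φ η - 1 - (ℓ : ℚ_[ℓ]) • (φ δ - 1)‖ ≤ ((ℓ : ℝ)⁻¹) ^ (k + 2)

/-- ROOT: `ℓ`-th roots.
Proof. Fix `k ≥ k₀` and `η`. Claim: for every `j` there is `γ` with `‖φ γ - 1‖ ≤ ℓ^(-k)` and
`‖φ γ ^ ℓ - φ η‖ ≤ ℓ^(-(k+1+j))`. `j = 0`: `γ = 1`. Step: `η' = η γ^(-ℓ)` has
`‖φ η' - 1‖ ≤ ℓ^(-(k+1+j))` (`‖φ γ^(-ℓ)‖ ≤ 1`, since `‖φ γ - 1‖ < 1`); STAB for `k + j` gives `δ` with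
`‖φ δ - 1‖ ≤ ℓ^(-(k+j))`, `‖φ η' - 1 - ℓ (φ δ - 1)‖ ≤ ℓ^(-(k+j+2))`. Take `γ δ`:
`φ (γ δ) ^ ℓ - φ γ ^ ℓ = ∑_a φ(γδ)^a (φ γ (φ δ - 1)) φ γ ^ (ℓ-1-a)` is `ℓ (φ δ - 1)` up to `ℓ^(-(k+j)-k)`, and
`φ η - φ γ ^ ℓ = (φ η' - 1) φ γ ^ ℓ` is `φ η' - 1` up to `ℓ^(-(k+j+1)-k)`; and `k ≥ 2`. The sets of these `γ`
are closed, nonempty and decreasing in the compact group `Γ`, so they have a common element. -/
def S_ROOT : Prop := ∀ (ℓ : ℕ) [Fact ℓ.Prime] (E : Type) [NormedRing E] [NormedAlgebra ℚ_[ℓ] E]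
  [IsUltrametricDist E], ‖(1 : E)‖ ≤ 1 →
  ∀ (Γ : Type) [Group Γ] [TopologicalSpace Γ] [CompactSpace Γ] (φ : Γ →* E), Continuous φ →
  ∀ k₀ : ℕ, 2 ≤ k₀ → (∀ k ≥ k₀, ∀ η : Γ,
    ‖φ η - 1‖ ≤ ((ℓ : ℝ)⁻¹) ^ (k + 1) → ∃ δ : Γ, ‖φ δ - 1‖ ≤ ((ℓ : ℝ)⁻¹) ^ k ∧
      ‖φ η - 1 - (ℓ : ℚ_[ℓ]) • (φ δ - 1)‖ ≤ ((ℓ : ℝ)⁻¹) ^ (k + 2)) →
  ∀ k ≥ k₀, ∀ η : Γ, ‖φ η - 1‖ ≤ ((ℓ : ℝ)⁻¹) ^ (k + 1) →
    ∃ γ : Γ, ‖φ γ - 1‖ ≤ ((ℓ : ℝ)⁻¹) ^ k ∧ φ γ ^ ℓ = φ η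

/-- EXP: every tangent vector is, up to a power of `ℓ`, the logarithm of an element.
Proof. Choose `m ≥ k₀` with `ℓ^(-m) ‖X‖ ≤ ℓ^(-k₀)` (so `m ≥ 2` and `‖ℓ^m X‖ ≤ ℓ^(-k₀)`). For every `i`
there are elements `γ` with `‖φ γ - 1 - ℓ^(m+i) X‖ ≤ ε ℓ^(-(m+i))`, for `i` large depending on `ε`; for
`ε ≤ ℓ^(m-k₀)` this gives `‖φ γ - 1‖ ≤ ℓ^(-(k₀+i))`. Taking `i` roots (hypothesis `hroot`, for
`k₀ + i - 1, ..., k₀`) there is `g` with `‖φ g - 1‖ ≤ ℓ^(-k₀)` and `φ g ^ (ℓ ^ i) = φ γ`. Its logarithm `Z`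
exists (LOG), and `‖ℓ^i Z - (φ g ^ (ℓ ^ i) - 1)‖ ≤ ‖φ γ - 1‖ ^ 2 ℓ ≤ ℓ^(-2 (k₀+i) + 1)` (from the proof of LOG:
`‖Z - ℓ^(-i) x_i‖ ≤ sup_k ℓ^(k+1) ‖x_k‖ ^ 2` over `k ≥ i`, `‖x_k‖ ≤ ℓ^(-(k-i)) ‖x_i‖`). So
`‖Z - ℓ^m X‖ ≤ max (ε ℓ^(-m), ℓ^(-2 k₀ - i + 1))`. Choose such `g = g_i` for `ε → 0`, `i → ∞`; a cluster
point `g` in the compact group satisfies `‖φ g - 1‖ ≤ ℓ^(-k₀)`, and its logarithm is `ℓ^m X`: on the ball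
`‖x - 1‖ ≤ ℓ⁻²` the logarithm is continuous, since `‖g ^ ℓ - h ^ ℓ‖ = ℓ⁻¹ ‖g - h‖` there (telescoping),
so `‖log g - log h‖ ≤ ‖g - h‖`. -/
def S_EXP : Prop := ∀ (ℓ : ℕ) [Fact ℓ.Prime] (E : Type) [NormedRing E] [NormedAlgebra ℚ_[ℓ] E]
  [IsUltrametricDist E] [CompleteSpace E], ‖(1 : E)‖ ≤ 1 →
  ∀ (Γ : Type) [Group Γ] [TopologicalSpace Γ] [CompactSpace Γ] (φ : Γ →* E), Continuous φ →
  ∀ k₀ : ℕ, 2 ≤ k₀ → (∀ k ≥ k₀, ∀ η : Γ, ‖φ η - 1‖ ≤ ((ℓ : ℝ)⁻¹) ^ (k + 1) →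
    ∃ γ : Γ, ‖φ γ - 1‖ ≤ ((ℓ : ℝ)⁻¹) ^ k ∧ φ γ ^ ℓ = φ η) →
  ∀ X, Tan ℓ φ X → ∃ (m : ℕ) (γ : Γ), ‖φ γ - 1‖ ≤ ((ℓ : ℝ)⁻¹) ^ 2 ∧
    IsLog ℓ (φ γ) (((ℓ : ℚ_[ℓ]) ^ m) • X)

/-- EIG: independent eigenvalues of the logarithm give multiplicatively independent eigenvalues.
(The limit is taken for all entries of the matrices.)
Proof. Let `C = PadicAlgCl ℓ`, `M`, `N` the images of the matrices `g`, `X` over `C`; they commute (`X` is a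
limit of polynomials in `g`). For every `j` the eigenspace of `N` for `x j` is stable under `M`, so it
contains an eigenvector `v ≠ 0` of `M`, `M v = z j v`. Since `(M ^ (ℓ ^ k) - 1) v / ℓ^k = ((z j) ^ (ℓ ^ k) - 1) / ℓ^k v`
converges to `N v = x j v` (the inclusion of `ℚ_ℓ` in `C` is continuous), `((z j) ^ (ℓ ^ k) - 1) / ℓ^k → x j`
(look at a coordinate of `v` which is not zero). If `∏ z j ^ e j = 1`, then `∑ e j x j = 0`: if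
`(a_k - 1) / ℓ^k → α`, `(b_k - 1) / ℓ^k → β` (so `a_k, b_k → 1`), then
`(a_k b_k - 1) / ℓ^k = (a_k - 1) / ℓ^k b_k + (b_k - 1) / ℓ^k → α + β`, and `(a_k⁻¹ - 1) / ℓ^k → -α`. -/
def S_EIG : Prop := ∀ (ℓ : ℕ) [Fact ℓ.Prime] (κ : Type) [Fintype κ] [DecidableEq κ]
  (g X : Matrix κ κ ℚ_[ℓ]),
  (∀ a b, Tendsto (fun k : ℕ => (((ℓ : ℚ_[ℓ]) ^ k)⁻¹) * (g ^ (ℓ ^ k) - 1) a b) atTop
    (𝓝 (X a b))) → ∀ (r : ℕ) (x : Fin r → PadicAlgCl ℓ),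
  (∀ j, Polynomial.aeval (x j) X.charpoly = 0) → (∀ e : Fin r → ℤ, ∑ j, e j • x j = 0 → e = 0) →
  ∃ z : Fin r → PadicAlgCl ℓ, (∀ j, Polynomial.aeval (z j) g.charpoly = 0) ∧
    ∀ e : Fin r → ℤ, ∏ j, z j ^ e j = 1 → e = 0

/-- PIG: the pigeonhole argument.
Proof. For each `t : k` choose integers `e t : Fin r → ℤ`, `e' t : ℤ`, not all zero, with
`∑ e_i (x_i + t y_i) + e' (u + t v) = 0`. `k` is uncountable and the set of integer vectors is countable, so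
two different `t`, `t'` have the same vector `(e, e')`; subtracting, `∑ e_i y_i + e' v = 0` and then
`∑ e_i x_i + e' u = 0`. If `e' = 0`, `e = 0` by the independence of `x`, a contradiction. -/
def S_PIG : Prop := ∀ (k C : Type) [Field k] [Uncountable k] [Field C] [Algebra k C] (r : ℕ)
  (x y : Fin r → C) (u v : C), (∀ e : Fin r → ℤ, ∑ j, e j • x j = 0 → e = 0) →
  (∀ t : k, ∃ (e : Fin r → ℤ) (e' : ℤ), (e ≠ 0 ∨ e' ≠ 0) ∧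
    ∑ j, e j • (x j + algebraMap k C t * y j) + e' • (u + algebraMap k C t * v) = 0) →
  ∃ (e : Fin r → ℤ) (e' : ℤ), e' ≠ 0 ∧ ∑ j, e j • x j + e' • u = 0 ∧ ∑ j, e j • y j + e' • v = 0

/-- DER: the derivative of a multilinear form along a one-parameter family.
(Convergence of endomorphisms is tested with all linear functionals on `End U`.)
Proof. Induction on `m` (`Fin.cons`, `MultilinearMap.cons_add`, or `curryLeft`): write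
`ψ (A v₀, A v') - ψ (v₀, v') = ψ ((A - 1) v₀, A v') + (ψ (v₀, A v') - ψ (v₀, v'))`; the last part, divided by
`c`, converges by induction for the form `ψ (v₀, ·)`. The first is `∑ᵢ bᵢ^*((A - 1) v₀) ψ (bᵢ, A v')` for a
basis `bᵢ` of `U`; `c⁻¹ bᵢ^*((A - 1) v₀) → bᵢ^*(B v₀)`, and `ψ (bᵢ, A v') → ψ (bᵢ, v')` by induction and `c → 0`. -/
def S_DER : Prop := ∀ (ℓ : ℕ) [Fact ℓ.Prime] (U : Type) [AddCommGroup U] [Module ℚ_[ℓ] U]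
  [FiniteDimensional ℚ_[ℓ] U] (A : ℕ → End ℚ_[ℓ] U) (B : End ℚ_[ℓ] U) (c : ℕ → ℚ_[ℓ]),
  (∀ j, c j ≠ 0) → Tendsto c atTop (𝓝 0) →
  (∀ ξ : End ℚ_[ℓ] U →ₗ[ℚ_[ℓ]] ℚ_[ℓ], Tendsto (fun j => (c j)⁻¹ * ξ (A j - 1)) atTop (𝓝 (ξ B))) →
  ∀ (m : ℕ) (ψ : MultilinearMap ℚ_[ℓ] (fun _ : Fin m => U) ℚ_[ℓ]) (v : Fin m → U),
  Tendsto (fun j => (c j)⁻¹ * (ψ (fun l => A j (v l)) - ψ v)) atTop
    (𝓝 (∑ l, ψ (Function.update v l (B (v l)))))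

/-- CART: elements of the radical of the trace form of a completely reducible Lie algebra of matrices
are central.
Proof. Let `R` be the set of the `X ∈ L` with `tr (X Y) = 0` for all `Y ∈ L`, an ideal of `L`
(`tr ([X, Z] Y) = tr (X [Z, Y])`). The trace form of `R` (a Lie algebra acting on `V`) is zero, so by
`LieModule.isNilpotent_derivedSeries_of_traceForm_eq_zero` (Mathlib, `Algebra/Lie/CartanCriterion`) the span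
`D` of the brackets of `R` acts nilpotently on `V`. (NIL) If `I` is an ideal of `L` which acts nilpotently
(Engel: every nonzero `I`-stable subspace has a nonzero vector killed by `I`), then `I = 0`: the vectors
killed by `I` are a subspace `W` stable under `L`; let `W'` be an `L`-stable complement; if `W' ≠ 0` it has a
nonzero vector killed by `I`, a contradiction; so `W = V`. So `D = 0` and `R` is commutative. For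
`A ∈ L`, `B ∈ R` the bracket `c = [A, B]` is in `R`, commutes with `B`, and
`tr (c ^ (k+1)) = tr ([A, B] c ^ k) = tr (A [B, c ^ k]) = 0`, so `c` is nilpotent (characteristic zero). The
span `I` of these brackets is an ideal of `L` which consists of commuting sums of nilpotents, so it
acts nilpotently, and `I = 0` by (NIL). -/
def S_CART : Prop := ∀ (k : Type) [Field k] [CharZero k] (V : Type) [AddCommGroup V] [Module k V]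
  [FiniteDimensional k V] (L : Submodule k (End k V)), (∀ X ∈ L, ∀ Y ∈ L, X * Y - Y * X ∈ L) →
  (∀ U : Submodule k V, (∀ X ∈ L, ∀ u ∈ U, X u ∈ U) →
    ∃ U' : Submodule k V, (∀ X ∈ L, ∀ u ∈ U', X u ∈ U') ∧ IsCompl U U') →
  ∀ X ∈ L, (∀ Y ∈ L, LinearMap.trace k V (X * Y) = 0) → ∀ Y ∈ L, X * Y = Y * X

/-- SEM: the semisimple part is defined over the base field.
Proof. `Module.End.exists_isNilpotent_isSemisimple` (perfect field) gives `X = n + s`, `n`, `s` in the algebra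
generated by `X`, `n` nilpotent, `s` semisimple. The minimal polynomial of `s` is squarefree, hence separable
(characteristic zero), so over `C` it is a product of different linear factors and `s` becomes
diagonalizable. On the generalized eigenspace of `X` for `β` over `C`, `s` has only the eigenvalue `β`
(`X - s = n` is nilpotent and commutes), and it is diagonalizable there, so it is `β`. -/
def S_SEM : Prop := ∀ (k : Type) [Field k] [CharZero k] (C : Type) [Field C] [IsAlgClosed C]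
  [Algebra k C] (V : Type) [AddCommGroup V] [Module k V] [FiniteDimensional k V] (X : End k V),
  ∃ s : End k V, (⨆ μ, End.eigenspace (s.baseChange C) μ = ⊤) ∧
    ∀ (β : C), ∀ v ∈ End.maxGenEigenspace (X.baseChange C) β, s.baseChange C v = β • v

/-- CEN: the trace form is nondegenerate on the centralizer of a diagonalizable element.
Proof. Let `A ∈ L` commute with `X`, with `tr (A B) = 0` for all `B ∈ L` commuting with `X`. The operator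
`ad X` is diagonalizable on `L` (`X` is diagonalizable, so `ad X` is diagonalizable on `End V`; `L` is
stable), so every `Y ∈ L` is `B + [X, Z]` with `B, Z ∈ L`, `[X, B] = 0`. And
`tr (A [X, Z]) = tr ([A, X] Z) = 0`. So `A` is orthogonal to `L` and zero. -/
def S_CEN : Prop := ∀ (C : Type) [Field C] [CharZero C] (V : Type) [AddCommGroup V]
  [Module C V] [FiniteDimensional C V] (L : Submodule C (End C V)),
  (∀ X ∈ L, ∀ Y ∈ L, X * Y - Y * X ∈ L) →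
  (∀ X ∈ L, (∀ Y ∈ L, LinearMap.trace C V (X * Y) = 0) → X = 0) →
  ∀ X ∈ L, (⨆ μ, End.eigenspace X μ = ⊤) →
  ∀ A ∈ L, X * A = A * X → (∀ B ∈ L, X * B = B * X → LinearMap.trace C V (A * B) = 0) → A = 0

end Pool.Agent.Helper49P
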