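import Pool.Agent.R913.Adj.Semi
import Pool.Agent.R913.Adj.Weight
import Pool.Agent.Y114.RM.Final
import Pool.Agent.N203.RE.Defs
import Pool.Agent.Helper49P.Stm

/-!
# The Lie algebra of a compact `ℓ`-adic group: task statements (Lie algebras and weights)
-/

set_option autoImplicit false

namespace Pool.Agent.Helper49P

open Filter Topology Module TensorProduct Polynomial Pool.Agent.Y114.RM Pool.Agent.R913.Adj
  Pool.Agent.N203.RE

/-- PERP: if the centre of `L` is contained in `k W`, an element `Y` of `L` with `tr (W Y) = 0` is a sum of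
brackets.
Proof. Otherwise there is a linear functional on `L` which vanishes on all brackets but not at `Y`
(`Submodule.exists_le_ker_of_lt_top` or `Module.exists_dual_forall_apply_eq_zero...`); since the trace form
is nondegenerate on `L` it is `tr (B ·)` with `B ∈ L`. Then `tr ([B, X] Z) = tr (B [X, Z]) = 0` for all
`X, Z ∈ L`, so `[B, X] = 0`, `B` is central, `B = b W`, and `tr (B Y) = b tr (W Y) = 0`. -/
def S_PERP : Prop := ∀ (k : Type) [Field k] (V : Type) [AddCommGroup V] [Module k V]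
  [FiniteDimensional k V] (L : Submodule k (End k V)) (W : End k V), IsLie L → NonDeg L →
  (∀ B ∈ L, (∀ X ∈ L, B * X = X * B) → ∃ b : k, B = b • W) →
  ∀ Y ∈ L, LinearMap.trace k V (W * Y) = 0 →
  Y ∈ Submodule.span k {T : End k V | ∃ X ∈ L, ∃ Z ∈ L, T = X * Z - Z * X}

/-- DET: the derivative of the determinant.
Proof. From DER (hypothesis) with `U = κ → ℚ_ℓ`, `m = card κ`, `ψ` the determinant as a multilinear form
(`Matrix.detRowAlternating` or `(Pi.basisFun ..).det`, reindexed by `Fintype.equivFin κ`) and `v` the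
standard basis: `ψ (A e_1, ..., A e_N) = det A`, `∑ ψ (update e l (B e_l)) = trace B`. -/
def S_DET : Prop := S_DER → ∀ (ℓ : ℕ) [Fact ℓ.Prime] (κ : Type) [Fintype κ] [DecidableEq κ]
  (A : ℕ → Matrix κ κ ℚ_[ℓ]) (B : Matrix κ κ ℚ_[ℓ]),
  (∀ a b, Tendsto (fun k : ℕ => (((ℓ : ℚ_[ℓ]) ^ k)⁻¹) * (A k - 1) a b) atTop (𝓝 (B a b))) →
  Tendsto (fun k : ℕ => (((ℓ : ℚ_[ℓ]) ^ k)⁻¹) * ((A k).det - 1)) atTop (𝓝 B.trace)

/-- WNUM: the logarithm of a power of a Frobenius element is not orthogonal to the weight operator.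
(`DET` is the conclusion of `S_DET`.)
Proof. `d i = det (g i)` is the image of the rational number `δ i = ± P i (0)`, and by Vieta
`|δ i| ^ 2 = q ^ (w i * n i)`; so `δ i ≠ 0`. By DET (`((g i) ^ N) ^ (ℓ ^ k)`), `((d i ^ N) ^ (ℓ ^ k) - 1) / ℓ^k`
converges to `trace (X i)`, and with `D = ∏ (d i ^ N) ^ (w i)` (integer exponents),
`(D ^ (ℓ ^ k) - 1) / ℓ^k → ∑ w i * trace (X i) = 0` (limits of `(a_k b_k - 1) / ℓ^k` and `(a_k⁻¹ - 1) / ℓ^k`).
`‖d i ^ N - 1‖ ≤ ℓ⁻²`, since the determinant of a matrix congruent to `1` is congruent to `1`; so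
`‖D - 1‖ ≤ ℓ⁻²`, and then `‖D ^ (ℓ ^ k) - 1‖ = ℓ^(-k) ‖D - 1‖` (for `‖x‖ ≤ ℓ⁻²`: `(1+x)^ℓ - 1 = ℓ x + y`,
`‖y‖ ≤ ‖x‖ ^ 2 < ‖ℓ x‖`). So `D = 1`, `∏ (δ i ^ N) ^ (w i) = 1`, and taking absolute values squared,
`q ^ (N ∑ n i (w i) ^ 2) = 1`, so `∑ n i (w i) ^ 2 = 0`. -/
def S_WNUM : Prop := (∀ (ℓ : ℕ) [Fact ℓ.Prime] (κ : Type) [Fintype κ] [DecidableEq κ]
  (A : ℕ → Matrix κ κ ℚ_[ℓ]) (B : Matrix κ κ ℚ_[ℓ]),
  (∀ a b, Tendsto (fun k : ℕ => (((ℓ : ℚ_[ℓ]) ^ k)⁻¹) * (A k - 1) a b) atTop (𝓝 (B a b))) →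
  Tendsto (fun k : ℕ => (((ℓ : ℚ_[ℓ]) ^ k)⁻¹) * ((A k).det - 1)) atTop (𝓝 B.trace)) →
  ∀ (ℓ : ℕ) [Fact ℓ.Prime] (ι : Type) [Fintype ι] [DecidableEq ι]
  (n : ι → ℕ) (g X : ∀ i, Matrix (Fin (n i)) (Fin (n i)) ℚ_[ℓ]) (w : ι → ℤ) (q : ℝ) (P : ι → ℚ[X])
  (N : ℕ), 1 < q → 0 < N → (∀ i, (g i).charpoly = (P i).map (algebraMap ℚ ℚ_[ℓ])) →
  (∀ i, ∀ a ∈ (P i).aroots ℂ, ‖a‖ ^ 2 = q ^ w i) →
  (∀ i a b, ‖((g i) ^ N - 1) a b‖ ≤ ((ℓ : ℝ)⁻¹) ^ 2) →
  (∀ i a b, Tendsto (fun k : ℕ => (((ℓ : ℚ_[ℓ]) ^ k)⁻¹) * (((g i) ^ N) ^ (ℓ ^ k) - 1) a b) atTop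
    (𝓝 (X i a b))) → ∑ i, (w i : ℚ_[ℓ]) * (X i).trace = 0 → ∀ i, w i = 0 ∨ n i = 0

/-- GX: an element with as many independent eigenvalues as the rank. `L` is determined by tensors.
Proof. Let `r₀` be the largest number such that some `X ∈ L` has `r₀` eigenvalues in `C` which are linearly
independent over `ℤ` (`r₀ ≤ dim V`, they are different), and suppose `r₀ < r`. By SEM (with
`rep_mem`, `Pool.Agent.R913.Adj.Rep`, for `f = id`: `s.baseChange C ∈ bcS C L`, so `s ∈ L` by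
`(Y809.RM.BC.bc k C V L).1`, see the end of the proof of `Pool.Agent.R913.Adj.op_mem`) we may assume that
`X` is diagonalizable over `C` (replace `X` by `s`, same eigenvalues): `V_C = ⊕ V_μ`. Let `x_1, ..., x_{r₀}`
be the independent eigenvalues. Let `Y ∈ L` commute with `X`, let `v_j ≠ 0` be common eigenvectors:
`X v_j = x_j v_j`, `Y v_j = y_j v_j`, and let `v ≠ 0`, `X v = u v`, `Y v = y v` be any other common
eigenvector. For all `t ∈ k`, `X + t Y ∈ L` has the eigenvalues `x_j + t y_j`, `u + t y`, which are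
dependent by the choice of `r₀`. By PIG, `e' u = -∑ e_j x_j`, `e' y = -∑ e_j y_j`, `e' ≠ 0`. Let
`f : C →+ C` be a `ℚ`-linear map with `f x_j = y_j` (the `x_j` are independent over `ℚ`). So `y = f u`: on
`V_u` the only eigenvalue of `Y` is `f u`. Let `s_Y` be the operator with the value `f u` on `V_u`
(`IsRep f (X.baseChange C) s_Y`, `exists_rep`), in `bcS C L` by `rep_mem`, and `n_Y = Y - s_Y`, nilpotent,
commuting with `X`, in `bcS C L`. Since `f u * dim V_u` is the trace of `Y` on `V_u`, `s_Y` is additive in `Y`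
for the different `Y` commuting with `X`, and so is `n_Y`; all `n_Y` are nilpotent, so
`0 = tr (n_Y + n_Z)^2 - tr n_Y^2 - tr n_Z^2 = 2 tr (n_Y n_Z)`. Also `tr (n_Y s_Z) = 0` (`s_Z` is a polynomial in
`X`, commutes with the nilpotent `n_Y`). So `tr (n_Y Z) = 0` for all `Z ∈ cen L X`, hence for all elements of
`cen (bcS C L) X` (which is `bcS C (cen L X)`, compare `Y809.RM.BC.bc`), and by CEN `n_Y = 0`. So the
elements `Y` of `cen L X` are multiplications by `f u` on `V_u`, and they are determined by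
`y_j = f x_j`, `j ≤ r₀` (`e' u` is an integral combination of the `x_j`, and `f` is additive); so
`Y ↦ (y_j)` is an injective `C`-linear map from `bcS C (cen L X)` to `C^{r₀}` and
`r ≤ finrank k (cen L X) ≤ r₀`. -/
def S_GX : Prop := S_PIG → S_SEM → S_CEN → ∀ (k : Type) [Field k] [CharZero k] [Uncountable k]
  (C : Type) [Field C] [CharZero C] [IsAlgClosed C] [Algebra k C] (V : Type) [AddCommGroup V]
  [Module k V] [FiniteDimensional k V] (L : Submodule k (End k V)),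
  (∀ X, (∀ (m : ℕ) (φ : Tensor k V m), (∀ Y ∈ L, KillsTensor Y φ) → KillsTensor X φ) → X ∈ L) →
  IsLie L → NonDeg L → ∀ r : ℕ, (∀ x ∈ L, r ≤ finrank k (cen L x)) →
  ∃ X ∈ L, ∃ x : Fin r → C, (∀ j, aeval (x j) X.charpoly = 0) ∧
    ∀ e : Fin r → ℤ, ∑ j, e j • x j = 0 → e = 0

/-- DENS: the rank does not become smaller over `ℚ_ℓ`.
Proof. Let `X ∈ scalars ℓ 𝔤` with `finrank (cen ..) < r`. `cen` is the kernel of `ad X` on `scalars ℓ 𝔤`; the
rank of a linear map is lower semicontinuous (`isOpen_setOf_nat_le_rank`, Mathlib), and the `ℚ`-span of a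
basis of `𝔤` is dense in `scalars ℓ 𝔤` (`ℚ` is dense in `ℚ_ℓ`), so there is `X' ∈ 𝔤` whose extension to `ℚ_ℓ` has
`finrank (cen ..) < r`; but the centralizer of the extension of `X'` is the extension of `cen 𝔤 X'`
(compare the lemmas on `scal` and `rank_scalars` in `Pool.Agent.N203.RE.Ext`, `Y809.RM.BC.bc`). -/
def S_DENS : Prop := ∀ (ℓ : ℕ) [Fact ℓ.Prime] (ι : Type) [Fintype ι] [DecidableEq ι] (n : ι → ℕ)
  (𝔤 : Submodule ℚ (End ℚ (Betti n))) (r : ℕ), (∀ X ∈ 𝔤, r ≤ finrank ℚ (cen 𝔤 X)) →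
  RankAtLeast (k := ℚ_[ℓ]) (V := ∀ i, Fin (n i) → ℚ_[ℓ]) (scalars ℓ 𝔤) r

end Pool.Agent.Helper49P
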