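import Pool.Agent.Helper49P.Nrm
import Pool.Agent.Helper49P.Stm2

/-!
# The tangent Lie algebra of a representation
-/

set_option autoImplicit false
set_option linter.unusedSectionVars false

namespace Pool.Agent.Helper49P

open Filter Topology Module Pool.Agent.Y114.TF Pool.Agent.Y114.RM Pool.Agent.R913.Adj

noncomputable section

section tng

variable {ι : Type} [Fintype ι] [DecidableEq ι] {n : ι → ℕ} {ℓ : ℕ} [hℓ : Fact ℓ.Prime]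
  {Γ : Type} [Group Γ] (ρ : ∀ i, Representation ℚ_[ℓ] Γ (Fin (n i) → ℚ_[ℓ]))

theorem tan_zero : Tan ℓ (ph ρ) (0 : Mx ℓ (Ix n)) := by
  intro ε hε
  refine ⟨0, fun m _ => ⟨1, ?_⟩⟩
  rw [map_one, sub_self, smul_zero, sub_zero, norm_zero]
  positivity

/-- The tangent space of the representation. -/
def tng (h1 : S_TAN1) : Submodule ℚ_[ℓ] (End ℚ_[ℓ] (VV n ℓ)) where
  carrier := {X | Tan ℓ (ph ρ) (TM n ℓ X)}
  zero_mem' := by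
    change Tan ℓ (ph ρ) (TM n ℓ 0)
    rw [map_zero]
    exact tan_zero ρ
  add_mem' := fun {X Y} hX hY => by
    change Tan ℓ (ph ρ) (TM n ℓ (X + Y))
    rw [map_add]
    exact (h1 ℓ (Mx ℓ (Ix n)) Γ (ph ρ)).1 _ _ hX hY
  smul_mem' := fun c X hX => by
    change Tan ℓ (ph ρ) (TM n ℓ (c • X))
    rw [map_smul]
    exact (h1 ℓ (Mx ℓ (Ix n)) Γ (ph ρ)).2 c _ hX

variable {ρ}

theorem mem_tng {h1 : S_TAN1} {X : End ℚ_[ℓ] (VV n ℓ)} :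
    X ∈ tng ρ h1 ↔ Tan ℓ (ph ρ) (TM n ℓ X) := Iff.rfl

theorem lie_tng (h1 : S_TAN1) (h2 : S_TAN2) : IsLie (tng ρ h1) := by
  intro X hX Y hY
  rw [mem_tng, map_sub, map_mul, map_mul]
  exact (h2 ℓ (Mx ℓ (Ix n)) Γ (ph ρ) (h1 ℓ _ Γ (ph ρ))).2.2 _ _ hX hY

theorem conj_tng (h1 : S_TAN1) (h2 : S_TAN2) (γ : Γ) {X : End ℚ_[ℓ] (VV n ℓ)}
    (hX : X ∈ tng ρ h1) : sumRep ρ γ * X * sumRep ρ γ⁻¹ ∈ tng ρ h1 := by
  rw [mem_tng, map_mul, map_mul]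
  exact (h2 ℓ (Mx ℓ (Ix n)) Γ (ph ρ) (h1 ℓ _ Γ (ph ρ))).1 _ γ hX

/-- The elements congruent to `1` modulo `ℓ ^ 2`. -/
theorem inv_le {γ : Γ} (h : ‖ph ρ γ - 1‖ ≤ ((ℓ : ℝ)⁻¹) ^ 2) : ‖ph ρ γ⁻¹‖ ≤ 1 := by
  by_contra hc
  rw [not_le] at hc
  have h1 : ph ρ γ⁻¹ = 1 - ph ρ γ⁻¹ * (ph ρ γ - 1) := by
    rw [mul_sub, ← map_mul, inv_mul_cancel, map_one, mul_one]
    abel
  have h2 : ‖ph ρ γ⁻¹ * (ph ρ γ - 1)‖ < ‖ph ρ γ⁻¹‖ := by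
    refine (norm_mul_le _ _).trans_lt ?_
    have h3 : ((ℓ : ℝ)⁻¹) ^ 2 < 1 := by
      have h4 : (1 : ℝ) < ℓ := by exact_mod_cast hℓ.out.one_lt
      exact pow_lt_one₀ (by positivity) (inv_lt_one_of_one_lt₀ h4) two_ne_zero
    have h5 : 0 < ‖ph ρ γ⁻¹‖ := lt_trans one_pos hc
    calc ‖ph ρ γ⁻¹‖ * ‖ph ρ γ - 1‖ ≤ ‖ph ρ γ⁻¹‖ * ((ℓ : ℝ)⁻¹) ^ 2 :=
          mul_le_mul_of_nonneg_left h h5.le
      _ < ‖ph ρ γ⁻¹‖ * 1 := mul_lt_mul_of_pos_left h3 h5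
      _ = ‖ph ρ γ⁻¹‖ := mul_one _
  have h6 : ‖ph ρ γ⁻¹‖ ≤ max ‖(1 : Mx ℓ (Ix n))‖ ‖ph ρ γ⁻¹ * (ph ρ γ - 1)‖ := by
    conv_lhs => rw [h1]
    rw [sub_eq_add_neg, ← norm_neg (ph ρ γ⁻¹ * (ph ρ γ - 1))]
    exact IsUltrametricDist.norm_add_le_max _ _
  rcases le_max_iff.1 h6 with h7 | h7
  · exact absurd (h7.trans (one_le ℓ _)) (not_le.2 hc)
  · exact absurd h7 (not_le.2 h2)

variable (ρ) in
/-- The subgroup of the elements congruent to `1` modulo `ℓ ^ 2`. -/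
def Dl : Subgroup Γ where
  carrier := {γ | ‖ph ρ γ - 1‖ ≤ ((ℓ : ℝ)⁻¹) ^ 2}
  one_mem' := by
    change ‖ph ρ 1 - 1‖ ≤ _
    rw [map_one, sub_self, norm_zero]
    positivity
  mul_mem' := fun {γ δ} hγ hδ => by
    change ‖ph ρ (γ * δ) - 1‖ ≤ _
    have hδ' : ‖ph ρ δ‖ ≤ 1 := by
      have h1 : ph ρ δ = (ph ρ δ - 1) + 1 := by abel
      rw [h1]
      refine (IsUltrametricDist.norm_add_le_max _ _).trans (max_le ?_ (one_le ℓ _))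
      refine (show ‖ph ρ δ - 1‖ ≤ ((ℓ : ℝ)⁻¹) ^ 2 from hδ).trans ?_
      have h4 : (1 : ℝ) < ℓ := by exact_mod_cast hℓ.out.one_lt
      exact pow_le_one₀ (by positivity) (inv_lt_one_of_one_lt₀ h4).le
    have h2 : ph ρ (γ * δ) - 1 = (ph ρ γ - 1) * ph ρ δ + (ph ρ δ - 1) := by
      rw [map_mul, sub_mul, one_mul]
      abel
    rw [h2]
    refine (IsUltrametricDist.norm_add_le_max _ _).trans (max_le ?_ hδ)
    refine (norm_mul_le _ _).trans ?_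
    calc ‖ph ρ γ - 1‖ * ‖ph ρ δ‖ ≤ ((ℓ : ℝ)⁻¹) ^ 2 * 1 :=
          mul_le_mul hγ hδ' (norm_nonneg _) (by positivity)
      _ = _ := mul_one _
  inv_mem' := fun {γ} hγ => by
    change ‖ph ρ γ⁻¹ - 1‖ ≤ _
    have h1 : ph ρ γ⁻¹ - 1 = -(ph ρ γ⁻¹ * (ph ρ γ - 1)) := by
      rw [mul_sub, ← map_mul, inv_mul_cancel, map_one, mul_one]
      abel
    rw [h1, norm_neg]
    refine (norm_mul_le _ _).trans ?_
    calc ‖ph ρ γ⁻¹‖ * ‖ph ρ γ - 1‖ ≤ 1 * ((ℓ : ℝ)⁻¹) ^ 2 :=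
          mul_le_mul (inv_le hγ) hγ (norm_nonneg _) zero_le_one
      _ = _ := one_mul _

theorem mem_Dl {γ : Γ} : γ ∈ Dl ρ ↔ ‖ph ρ γ - 1‖ ≤ ((ℓ : ℝ)⁻¹) ^ 2 := Iff.rfl

theorem isOpen_Dl [TopologicalSpace Γ] [IsTopologicalGroup Γ]
    (hρ : ∀ i, Continuous fun g => LinearMap.toMatrix' (ρ i g)) : IsOpen (Dl ρ : Set Γ) := by
  refine Subgroup.isOpen_of_mem_nhds (g := 1) _ ?_
  have h1 : Continuous fun γ : Γ => ‖ph ρ γ - 1‖ := ((continuous_ph hρ).sub continuous_const).norm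
  have h2 : {γ : Γ | ‖ph ρ γ - 1‖ < ((ℓ : ℝ)⁻¹) ^ 2} ∈ 𝓝 (1 : Γ) := by
    refine (isOpen_lt h1 continuous_const).mem_nhds ?_
    change ‖ph ρ 1 - 1‖ < _
    rw [map_one, sub_self, norm_zero]
    have := hℓ.out.pos
    positivity
  exact mem_of_superset h2 fun γ hγ => mem_Dl.2 (le_of_lt hγ)

theorem finite_Dl [TopologicalSpace Γ] [IsTopologicalGroup Γ] [CompactSpace Γ]
    (hρ : ∀ i, Continuous fun g => LinearMap.toMatrix' (ρ i g)) : (Dl ρ).FiniteIndex :=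
  have : Finite (Γ ⧸ Dl ρ) := (Dl ρ).quotient_finite_of_isOpen (isOpen_Dl hρ)
  Subgroup.finiteIndex_of_finite_quotient

/-- Subalgebras which contain the tangent space contain the elements congruent to `1`. -/
theorem alg_Dl (h1 : S_TAN1) (h3 : S_LOG) (h4 : S_ALG)
    (A : Subalgebra ℚ_[ℓ] (End ℚ_[ℓ] (VV n ℓ))) (hA : ∀ X ∈ tng ρ h1, X ∈ A) :
    ∀ γ ∈ Dl ρ, sumRep ρ γ ∈ A := by
  intro γ hγ
  obtain ⟨X, hX, hT⟩ := h3 ℓ (Mx ℓ (Ix n)) (one_le ℓ _) Γ (ph ρ) γ hγ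
  have h5 : X ∈ A.map (TM n ℓ : End ℚ_[ℓ] (VV n ℓ) →ₐ[ℚ_[ℓ]] Mx ℓ (Ix n)) := by
    obtain ⟨Y, rfl⟩ := (TM n ℓ).surjective X
    exact ⟨Y, hA Y hT, rfl⟩
  obtain ⟨Y, hY, hYe⟩ := h4 ℓ (Mx ℓ (Ix n)) (one_le ℓ _) _ _ _ hγ hX h5
  have h6 : Y = sumRep ρ γ := (TM n ℓ).injective hYe
  rw [← h6]
  exact hY

end tng

end

end Pool.Agent.Helper49P
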