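import Pool.Agent.Helper49P.Spl

/-!
# The tangent space contains the motivic Lie algebra, if the centre is given by the weights
-/

set_option autoImplicit false
set_option linter.unusedSectionVars false
set_option linter.unusedVariables false

namespace Pool.Agent.Helper49P

open Pool.Agent.Y114.RM hiding comm mem_LT_of_semisimple
open Filter Topology Module Pool.Agent.Y114.TF Pool.Agent.R913.Adj
  Pool.Agent.H204R3.GP Pool.Agent.R918.Ell Pool.Agent.Helper49N Pool.Agent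

noncomputable section

/-- The conclusion of `S_DET`. -/
def DetLim : Prop := ∀ (ℓ : ℕ) [Fact ℓ.Prime] (κ : Type) [Fintype κ] [DecidableEq κ]
  (A : ℕ → Matrix κ κ ℚ_[ℓ]) (B : Matrix κ κ ℚ_[ℓ]),
  (∀ a b, Tendsto (fun k : ℕ => (((ℓ : ℚ_[ℓ]) ^ k)⁻¹) * (A k - 1) a b) atTop (𝓝 (B a b))) →
  Tendsto (fun k : ℕ => (((ℓ : ℚ_[ℓ]) ^ k)⁻¹) * ((A k).det - 1)) atTop (𝓝 B.trace)

section main

variable {ι : Type} [Fintype ι] [DecidableEq ι] {n : ι → ℕ} {ℓ : ℕ} [hℓ : Fact ℓ.Prime]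
  {Γ : Type} [Group Γ] {ρ : ∀ i, Representation ℚ_[ℓ] Γ (Fin (n i) → ℚ_[ℓ])}

/-- The block of a matrix. -/
def blk (i : ι) (A : Mx ℓ (Ix n)) : Matrix (Fin (n i)) (Fin (n i)) ℚ_[ℓ] :=
  fun a b => A ⟨i, a⟩ ⟨i, b⟩

theorem blk_ph (i : ι) (γ : Γ) : blk i (ph ρ γ) = LinearMap.toMatrix' (ρ i γ) := by
  funext a b
  change ph ρ γ ⟨i, a⟩ ⟨i, b⟩ = _
  rw [ph_entry, dif_pos rfl]

theorem entry_log {g X : Mx ℓ (Ix n)} (h : IsLog ℓ g X) (x y : Ix n) :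
    Tendsto (fun k : ℕ => (((ℓ : ℚ_[ℓ]) ^ k)⁻¹) * (g ^ (ℓ ^ k) - 1) x y) atTop (𝓝 (X x y)) := by
  let η : Mx ℓ (Ix n) →ₗ[ℚ_[ℓ]] ℚ_[ℓ] := Matrix.entryLinearMap ℚ_[ℓ] ℚ_[ℓ] x y
  have hc : Continuous η := LinearMap.continuous_of_finiteDimensional η
  have h2 := (hc.tendsto _).comp h
  exact h2

theorem toMatrix_pow {m : ℕ} (A : End ℚ_[ℓ] (Fin m → ℚ_[ℓ])) (k : ℕ) :
    LinearMap.toMatrix' (A ^ k) = LinearMap.toMatrix' A ^ k := by
  induction k with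
  | zero => rw [pow_zero, pow_zero, LinearMap.toMatrix'_one]
  | succ k ih => rw [pow_succ, pow_succ, LinearMap.toMatrix'_mul, ih]

theorem charpoly_toM {m : ℕ} (A : End ℚ_[ℓ] (Fin m → ℚ_[ℓ])) :
    (LinearMap.toMatrix' A).charpoly = A.charpoly := by
  rw [← LinearMap.toMatrix_eq_toMatrix', LinearMap.charpoly_toMatrix]

theorem blk_pow_sub (ρ : ∀ i, Representation ℚ_[ℓ] Γ (Fin (n i) → ℚ_[ℓ])) (i : ι) (γ : Γ)
    (M k : ℕ) (a b : Fin (n i)) : (ph ρ (γ ^ M) ^ k - 1 : Mx ℓ (Ix n)) ⟨i, a⟩ ⟨i, b⟩ =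
      ((LinearMap.toMatrix' (ρ i γ) ^ M) ^ k - 1 : Matrix (Fin (n i)) (Fin (n i)) ℚ_[ℓ]) a b := by
  have e4 : ph ρ (γ ^ M) ^ k = ph ρ ((γ ^ M) ^ k) := (map_pow _ _ _).symm
  have e5 : ph ρ ((γ ^ M) ^ k) ⟨i, a⟩ ⟨i, b⟩ = ((LinearMap.toMatrix' (ρ i γ) ^ M) ^ k) a b := by
    have e7 : LinearMap.toMatrix' (ρ i ((γ ^ M) ^ k)) = (LinearMap.toMatrix' (ρ i γ) ^ M) ^ k := by
      rw [← toMatrix_pow, ← toMatrix_pow, ← map_pow (ρ i), ← map_pow (ρ i)]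
    rw [← e7]
    exact congrFun (congrFun (blk_ph (ρ := ρ) i ((γ ^ M) ^ k)) a) b
  rw [Matrix.sub_apply, Matrix.sub_apply, e4, e5, Matrix.one_apply, Matrix.one_apply]
  congr 1
  by_cases hab : a = b
  · subst hab
    rw [if_pos rfl, if_pos rfl]
  · rw [if_neg hab, if_neg fun h => hab (by simpa using h)]

theorem trace_weight (w : ι → ℤ) (X : End ℚ_[ℓ] (VV n ℓ)) :
    LinearMap.trace ℚ_[ℓ] (VV n ℓ) (weightOp (k := ℚ_[ℓ]) (fun i => Fin (n i) → ℚ_[ℓ]) w * X) =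
      ∑ i, (w i : ℚ_[ℓ]) * (blk i (TM n ℓ X)).trace := by
  rw [LinearMap.trace_eq_matrix_trace ℚ_[ℓ] (bs n ℓ)]
  have h1 : LinearMap.toMatrix (bs n ℓ) (bs n ℓ)
      (weightOp (k := ℚ_[ℓ]) (fun i => Fin (n i) → ℚ_[ℓ]) w * X) =
      TM n ℓ (weightOp (k := ℚ_[ℓ]) (fun i => Fin (n i) → ℚ_[ℓ]) w) * TM n ℓ X := by
    rw [← map_mul]
    rfl
  have h2 : ∀ x y : Ix n, TM n ℓ (weightOp (k := ℚ_[ℓ]) (fun i => Fin (n i) → ℚ_[ℓ]) w) x y =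
      if x = y then (w x.1 : ℚ_[ℓ]) else 0 := by
    intro x y
    rw [TM, LinearMap.toMatrixAlgEquiv_apply, bs, Pi.basis_repr, Pi.basis_apply]
    obtain ⟨i, a⟩ := x
    obtain ⟨j, b⟩ := y
    change (Pi.basisFun ℚ_[ℓ] (Fin (n i))).repr ((w i : ℚ_[ℓ]) • ((Pi.single j
      ((Pi.basisFun ℚ_[ℓ] (Fin (n j))) b) : ∀ i, Fin (n i) → ℚ_[ℓ]) i)) a = _
    rw [Pi.basisFun_repr]
    by_cases h : j = i
    · subst h
      rw [Pi.single_eq_same, Pi.basisFun_apply, Pi.smul_apply, smul_eq_mul, Pi.single_apply]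
      by_cases hab : a = b
      · subst hab
        rw [if_pos rfl, if_pos rfl, mul_one]
      · rw [if_neg hab, mul_zero, if_neg fun h => hab (by simpa using h)]
    · rw [Pi.single_eq_of_ne (Ne.symm h), smul_zero, Pi.zero_apply,
        if_neg fun h' => h (congrArg Sigma.fst h').symm]
  rw [h1, Matrix.trace]
  have h3 : ∀ x : Ix n, Matrix.diag (TM n ℓ (weightOp (k := ℚ_[ℓ]) (fun i => Fin (n i) → ℚ_[ℓ]) w)
      * TM n ℓ X) x = (w x.1 : ℚ_[ℓ]) * TM n ℓ X x x := by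
    intro x
    rw [Matrix.diag_apply, Matrix.mul_apply, Finset.sum_eq_single x]
    · rw [h2, if_pos rfl]
    · intro y _ hy
      rw [h2, if_neg (Ne.symm hy), zero_mul]
    · intro h
      exact absurd (Finset.mem_univ x) h
  rw [Finset.sum_congr rfl fun x _ => h3 x, Fintype.sum_sigma]
  refine Finset.sum_congr rfl fun i _ => ?_
  rw [Matrix.trace, Finset.mul_sum]
  rfl

theorem mem_of_trace {k : Type} [Field k] {V : Type} [AddCommGroup V] [Module k V]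
    [FiniteDimensional k V] (hP : S_PERP) {𝔤 T : Submodule k (End k V)} (hLie : IsLie 𝔤)
    (hnd : NonDeg 𝔤) (hT : IsLie T) (hTG : T ≤ 𝔤)
    (hs : ∀ X ∈ 𝔤, ∃ A ∈ T, ∀ Y ∈ 𝔤, (X - A) * Y = Y * (X - A)) {W : End k V}
    (hW : ∀ Z ∈ 𝔤, (∀ Y ∈ 𝔤, Z * Y = Y * Z) → ∃ c : k, Z = c • W) {X : End k V} (hX : X ∈ T)
    (hXW : LinearMap.trace k V (W * X) ≠ 0) : 𝔤 ≤ T := by
  have hbr : ∀ A ∈ 𝔤, ∀ B ∈ 𝔤, A * B - B * A ∈ T := by
    intro A hA B hB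
    obtain ⟨A', hA', hAc⟩ := hs A hA
    obtain ⟨B', hB', hBc⟩ := hs B hB
    have e2 := hAc B hB
    have e3 := hBc A' (hTG hA')
    have e4 : A * B - B * A = ((A - A') * B - B * (A - A')) - ((B - B') * A' - A' * (B - B')) +
        (A' * B' - B' * A') := by
      simp only [sub_mul, mul_sub]
      abel
    rw [e4, e2, e3, sub_self, sub_self, sub_zero, zero_add]
    exact hT A' hA' B' hB'
  intro Y hY
  let c : k := LinearMap.trace k V (W * Y) / LinearMap.trace k V (W * X)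
  have h1 : Y - c • X ∈ 𝔤 := 𝔤.sub_mem hY (𝔤.smul_mem c (hTG hX))
  have h2 : LinearMap.trace k V (W * (Y - c • X)) = 0 := by
    rw [mul_sub, mul_smul_comm, map_sub, map_smul, smul_eq_mul, div_mul_cancel₀ _ hXW, sub_self]
  have h3 := hP k V 𝔤 W hLie hnd hW _ h1 h2
  have h4 : Y - c • X ∈ T := by
    refine Submodule.span_le.2 ?_ h3
    rintro _ ⟨A, hA, B, hB, rfl⟩
    exact hbr A hA B hB
  have h5 := T.add_mem h4 (T.smul_mem c hX)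
  rwa [sub_add_cancel] at h5

variable [TopologicalSpace Γ] [IsTopologicalGroup Γ] [CompactSpace Γ]

/-- **The tangent space is the motivic Lie algebra**, if the centre is given by the weights. -/
theorem le_tng (h1 : S_TAN1) (h2 : S_TAN2) (h3 : S_LOG) (h4 : S_ALG) (h5 : S_DER)
    (h6 : S_CART) (h7 : S_PERP) (h8 : DetLim) (h9 : S_WNUM)
    (hρ : ∀ i, Continuous fun g => LinearMap.toMatrix' (ρ i g))
    {𝔤 : Submodule ℚ_[ℓ] (End ℚ_[ℓ] (∀ i, Fin (n i) → ℚ_[ℓ]))} (h𝔤 : IsMotivic ρ 𝔤)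
    (hss : FiniteIndexSemisimple (sumRep ρ)) (hE : EndTate (sumRep ρ) 𝔤)
    (hS : SqTate (sumRep ρ) 𝔤) (w : ι → ℤ) (hw : (∃ i, w i ≠ 0) → ∃ γ : Γ, ActsPurely ρ w γ)
    (hc : ∀ Z ∈ 𝔤, (∀ Y ∈ 𝔤, Z * Y = Y * Z) → ∃ c : ℚ_[ℓ], ∀ x i, Z x i = (c * w i) • x i) :
    𝔤 ≤ tng ρ h1 := by
  obtain ⟨hle, hs⟩ := exists_split2 h1 h2 h3 h4 h5 h6 ρ hρ h𝔤 hss hE hS
  have hcW : ∀ Z ∈ 𝔤, (∀ Y ∈ 𝔤, Z * Y = Y * Z) →
      ∃ c : ℚ_[ℓ], Z = c • weightOp (k := ℚ_[ℓ]) (fun i => Fin (n i) → ℚ_[ℓ]) w := by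
    intro Z hZ hZc
    obtain ⟨c, hcz⟩ := hc Z hZ hZc
    refine ⟨c, LinearMap.ext fun x => funext fun i => ?_⟩
    rw [hcz x i, LinearMap.smul_apply, Pi.smul_apply]
    change _ = c • (((w i : ℤ) : ℚ_[ℓ]) • x i)
    rw [smul_smul]
  by_cases h0 : weightOp (k := ℚ_[ℓ]) (fun i => Fin (n i) → ℚ_[ℓ]) w = 0
  · intro X hX
    obtain ⟨A, hA, hAc⟩ := hs X hX
    obtain ⟨c, hcz⟩ := hcW _ (𝔤.sub_mem hX (hle hA)) hAc
    rw [h0, smul_zero, sub_eq_zero] at hcz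
    rw [hcz]
    exact hA
  · have hex : ∃ i, w i ≠ 0 := by
      by_contra hcon
      refine h0 (LinearMap.ext fun x => funext fun i => ?_)
      change ((w i : ℤ) : ℚ_[ℓ]) • x i = 0
      rw [not_not.1 (not_exists.1 hcon i), Int.cast_zero, zero_smul]
    obtain ⟨γ, q, P, hq, hP⟩ := hw hex
    -- a power in the open subgroup
    have hfin := finite_Dl hρ
    obtain ⟨M, hM, hMΔ⟩ : ∃ M : ℕ, 0 < M ∧ γ ^ M ∈ Dl ρ := by
      have : (Dl ρ).normalCore.FiniteIndex := inferInstance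
      exact ⟨(Dl ρ).normalCore.index, Nat.pos_of_ne_zero Subgroup.FiniteIndex.index_ne_zero,
        Subgroup.normalCore_le _ (Subgroup.pow_index_mem _ γ)⟩
    obtain ⟨X, hX, hXT⟩ := h3 ℓ (Mx ℓ (Ix n)) (one_le ℓ _) Γ (ph ρ) (γ ^ M) hMΔ
    obtain ⟨Y, rfl⟩ := (TM n ℓ).surjective X
    refine mem_of_trace h7 h𝔤.bracket h𝔤.nondeg (lie_tng h1 h2) hle hs hcW (X := Y) hXT fun h10 => ?_
    rw [trace_weight] at h10
    have h11 := h9 h8 ℓ ι n (fun i => LinearMap.toMatrix' (ρ i γ)) (fun i => blk i (TM n ℓ Y)) w q P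
      M hq hM (fun i => (charpoly_toM (ρ i γ)).trans (hP i).1) (fun i => (hP i).2) (fun i a b => by
        have e1 := (entry_le ℓ (Ix n) (ph ρ (γ ^ M) - 1) ⟨i, a⟩ ⟨i, b⟩).trans hMΔ
        have e3 := blk_pow_sub ρ i γ M 1 a b
        rw [pow_one, pow_one] at e3
        rw [e3] at e1
        exact e1) (fun i a b => by
        refine (entry_log hX ⟨i, a⟩ ⟨i, b⟩).congr fun k => ?_
        rw [blk_pow_sub ρ i γ M (ℓ ^ k) a b]) h10
    refine h0 (LinearMap.ext fun x => funext fun i => ?_)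
    change ((w i : ℤ) : ℚ_[ℓ]) • x i = 0
    rcases h11 i with h12 | h12
    · rw [h12, Int.cast_zero, zero_smul]
    · exact funext fun a => (Fin.cast h12 a).elim0

end main

end

end Pool.Agent.Helper49P
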